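import Mathlib
set_option autoImplicit false
namespace Pool.Agent.Helper844.FC

/-- integer valued Lyndon length (four point condition) on a group -/
structure LenGroup (G : Type*) [Group G] where
  len : G → ℕ
  len_one : len 1 = 0
  eq_one : ∀ g, len g = 0 → g = 1
  len_inv : ∀ g, len g⁻¹ = len g
  fp : ∀ u v w z : G, len (u⁻¹ * v) + len (w⁻¹ * z) ≤
      max (len (u⁻¹ * w) + len (v⁻¹ * z)) (len (u⁻¹ * z) + len (v⁻¹ * w))
  step : ∀ g, g ≠ 1 → ∃ h, len h + 1 = len g ∧ len (h⁻¹ * g) = 1

/-- syllables: factor and exponent -/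
abbrev Syl := Bool × ℤ

/-- the free product `ℤ * ℤ` -/
abbrev W := Monoid.CoprodI (fun _ : Bool => Multiplicative ℤ)

/-- the element `k` of the factor `b` -/
def letter (b : Bool) (k : ℤ) : W :=
  Monoid.CoprodI.of (M := fun _ : Bool => Multiplicative ℤ) (i := b) (Multiplicative.ofAdd k)

/-- the union of the two factors -/
def Fac : Set W := {w | ∃ b k, w = letter b k}

/-- reduced lists of syllables -/
def Red (l : List Syl) : Prop := (∀ p ∈ l, p.2 ≠ 0) ∧ l.IsChain (fun p q => p.1 ≠ q.1)

/-- the product of a list of syllables -/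
def pr (l : List Syl) : W := (l.map (fun p => letter p.1 p.2)).prod

/-- inverse of a list of syllables -/
def linv (l : List Syl) : List Syl := (l.map (fun p => (p.1, -p.2))).reverse

/-! ### blocks -/

/-- half length of the regular part of the blocks -/
def mB : ℕ := 200
/-- length of a block -/
def Lb : ℕ := 402
/-- cut off at both ends -/
def c0 : ℕ := 40
/-- length of the core -/
def CC : ℕ := 322
/-- bound for the gaps -/
def KK : ℕ := 12
/-- bound for the junctions -/
def jm : ℕ := 92

def NN (j : ℕ) : ℕ := 2 * mB * j + 1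
def MM (j : ℕ) : ℕ := 2 * mB * j + mB + 1

/-- the block words, in any group -/
def D {G : Type*} [Group G] (j : ℕ) (x y : G) : G :=
  ((List.range mB).map (fun i => x ^ (NN j + i) * y ^ (MM j + i))).prod *
    (x ^ (∑ i ∈ Finset.range mB, (NN j + i)))⁻¹ * (y ^ (∑ i ∈ Finset.range mB, (MM j + i)))⁻¹

/-- signed block -/
abbrev Blk := ℕ × Bool

def Blk.inv (k : Blk) : Blk := (k.1, !k.2)

/-- value of a signed block -/
def Dv {G : Type*} [Group G] (k : Blk) (x y : G) : G := if k.2 then D k.1 x y else (D k.1 x y)⁻¹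

/-- base: `x = letter b s`, `y = letter (!b) t` -/
structure Base where
  b : Bool
  s : ℤ
  t : ℤ
  hs : s ≠ 0
  ht : t ≠ 0

def Base.x (β : Base) : W := letter β.b β.s
def Base.y (β : Base) : W := letter (!β.b) β.t

/-- the exponents multiplying `s` or `t` in the positive block -/
def kap (j i : ℕ) : ℤ :=
  if i % 2 = 0 then
    (if i / 2 < mB then ((NN j + i / 2 : ℕ) : ℤ) else -((∑ i ∈ Finset.range mB, (NN j + i) : ℕ) : ℤ))
  else
    (if i / 2 < mB then ((MM j + i / 2 : ℕ) : ℤ) else -((∑ i ∈ Finset.range mB, (MM j + i) : ℕ) : ℤ))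

/-- syllable `i` of the positive block `j` -/
def psyl (β : Base) (j i : ℕ) : Syl :=
  if i % 2 = 0 then (β.b, β.s * kap j i) else (!β.b, β.t * kap j i)

/-- syllable `i < Lb` of a signed block -/
def syl (β : Base) (k : Blk) (i : ℕ) : Syl :=
  if k.2 then psyl β k.1 i else ((psyl β k.1 (Lb - 1 - i)).1, -(psyl β k.1 (Lb - 1 - i)).2)

/-- the list of syllables of a signed block -/
def blist (β : Base) (k : Blk) : List Syl := (List.range Lb).map (syl β k)

/-- first `c0` syllables -/
def hd (β : Base) (k : Blk) : List Syl := (List.range c0).map (syl β k)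
/-- last `c0` syllables -/
def tl (β : Base) (k : Blk) : List Syl := (List.range c0).map (fun i => syl β k (c0 + CC + i))
/-- core syllables -/
def core (β : Base) (k : Blk) : List Syl := (List.range CC).map (fun i => syl β k (c0 + i))

end Pool.Agent.Helper844.FC
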