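import Mathlib
import Pool.Agent.Helper844.FC.Defs
set_option autoImplicit false
namespace Pool.Agent.Helper844.FC


theorem letter_zero (b : Bool) : letter b 0 = 1 := by
  show Monoid.CoprodI.of (M := fun _ : Bool => Multiplicative ℤ) (i := b) (Multiplicative.ofAdd 0) = 1
  rw [ofAdd_zero]
  exact map_one _

theorem letter_mul (b : Bool) (k l : ℤ) : letter b k * letter b l = letter b (k + l) := by
  unfold letter
  rw [ofAdd_add]
  exact (map_mul _ _ _).symm

theorem letter_inv (b : Bool) (k : ℤ) : (letter b k)⁻¹ = letter b (-k) := by
  apply inv_eq_of_mul_eq_one_right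
  rw [letter_mul, add_neg_cancel, letter_zero]

theorem letter_pow (b : Bool) (k : ℤ) (n : ℕ) : letter b k ^ n = letter b (k * n) := by
  induction n with
  | zero => rw [pow_zero, Nat.cast_zero, mul_zero, letter_zero]
  | succ n ih =>
    rw [pow_succ, ih, letter_mul]
    congr 1
    push_cast
    ring

theorem pr_append (l l' : List Syl) : pr (l ++ l') = pr l * pr l' := by
  unfold pr
  rw [List.map_append, List.prod_append]

theorem pr_linv (l : List Syl) : pr (linv l) = (pr l)⁻¹ := by
  induction l with
  | nil => simp [pr, linv]
  | cons p l ih =>
    have h1 : linv (p :: l) = linv l ++ [(p.1, -p.2)] := by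
      unfold linv
      rw [List.map_cons, List.reverse_cons]
    have h2 : pr (p :: l) = letter p.1 p.2 * pr l := by
      unfold pr
      rw [List.map_cons, List.prod_cons]
    have h3 : pr [(p.1, -p.2)] = letter p.1 (-p.2) := by
      unfold pr
      simp
    rw [h1, pr_append, ih, h2, mul_inv_rev, h3, letter_inv]

theorem red_linv {l : List Syl} (h : Red l) : Red (linv l) := by
  constructor
  · intro p hp
    unfold linv at hp
    rw [List.mem_reverse, List.mem_map] at hp
    obtain ⟨q, hq, rfl⟩ := hp
    exact neg_ne_zero.2 (h.1 q hq)
  · unfold linv
    rw [List.isChain_reverse, List.isChain_map]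
    exact h.2.imp fun a b hab => Ne.symm hab

theorem job11017_exists_word {l : List Syl} (h : Red l) :
    ∃ w : Monoid.CoprodI.Word (fun _ : Bool => Multiplicative ℤ), w.prod = pr l ∧
      w.toList = l.map (fun p => (⟨p.1, Multiplicative.ofAdd p.2⟩ : Σ _ : Bool, Multiplicative ℤ)) := by
  refine ⟨⟨l.map (fun p => (⟨p.1, Multiplicative.ofAdd p.2⟩ : Σ _ : Bool, Multiplicative ℤ)), ?_, ?_⟩,
    ?_, rfl⟩
  · intro q hq
    rw [List.mem_map] at hq
    obtain ⟨p, hp, rfl⟩ := hq
    intro h1
    exact h.1 p hp (ofAdd_eq_one.1 h1)
  · rw [List.isChain_map]
    exact h.2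
  · unfold Monoid.CoprodI.Word.prod pr
    rw [List.map_map]
    rfl

/-- every element is the product of a reduced list -/
theorem exists_red (g : W) : ∃ l, Red l ∧ pr l = g := by
  let w := Monoid.CoprodI.Word.equiv g
  have hw : w.prod = g := Monoid.CoprodI.Word.equiv.symm_apply_apply g
  refine ⟨w.toList.map (fun q => (q.1, Multiplicative.toAdd q.2)), ⟨?_, ?_⟩, ?_⟩
  · intro p hp
    rw [List.mem_map] at hp
    obtain ⟨q, hq, rfl⟩ := hp
    intro h1
    exact w.ne_one q hq (toAdd_eq_zero.1 h1)
  · rw [List.isChain_map]
    exact w.chain_ne
  · rw [← hw]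
    unfold Monoid.CoprodI.Word.prod pr
    rw [List.map_map]
    rfl

/-- the reduced list is unique -/
theorem red_unique {l l' : List Syl} (h : Red l) (h' : Red l') (e : pr l = pr l') : l = l' := by
  obtain ⟨w, hw, hl⟩ := job11017_exists_word h
  obtain ⟨w', hw', hl'⟩ := job11017_exists_word h'
  have h1 : w.prod = w'.prod := by rw [hw, hw', e]
  have h2 : w = w' := Monoid.CoprodI.Word.equiv.symm.injective h1
  rw [h2, hl'] at hl
  have hinj : Function.Injective
      (fun p : Syl => (⟨p.1, Multiplicative.ofAdd p.2⟩ : Σ _ : Bool, Multiplicative ℤ)) := by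
    intro p q hpq
    rw [Sigma.mk.injEq] at hpq
    exact Prod.ext hpq.1 (Multiplicative.ofAdd.injective (eq_of_heq hpq.2))
  exact (List.map_injective_iff.2 hinj hl).symm



/-- (twice) the Gromov product of reduced lists: 2 for every common syllable, and 1 more if the next
syllables exist and lie in the same factor -/
def cc : List Syl → List Syl → ℕ
  | a :: l, b :: l' => if a = b then 2 + cc l l' else if a.1 = b.1 then 1 else 0
  | _, _ => 0

/-- the unique reduced list of an element -/
noncomputable def lst (g : W) : List Syl := (exists_red g).choose

theorem lst_red (g : W) : Red (lst g) := (exists_red g).choose_spec.1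

theorem pr_lst (g : W) : pr (lst g) = g := (exists_red g).choose_spec.2

theorem lst_pr {l : List Syl} (h : Red l) : lst (pr l) = l :=
  red_unique (lst_red _) h (pr_lst _)

theorem red_nil : Red [] := ⟨by simp, List.isChain_nil⟩

theorem red_tail {a : Syl} {l : List Syl} (h : Red (a :: l)) : Red l :=
  ⟨fun p hp => h.1 p (List.mem_cons_of_mem _ hp), h.2.tail⟩

theorem pr_cons (a : Syl) (l : List Syl) : pr (a :: l) = letter a.1 a.2 * pr l := by
  simp [pr]

theorem pr_nil : pr [] = 1 := by simp [pr]

theorem linv_length (l : List Syl) : (linv l).length = l.length := by simp [linv]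

theorem linv_getLast (l : List Syl) (x : Syl) (hx : x ∈ (linv l).getLast?) :
    ∃ y ∈ l.head?, x.1 = y.1 := by
  unfold linv at hx
  rw [List.getLast?_reverse, List.head?_map] at hx
  rw [Option.mem_def, Option.map_eq_some_iff] at hx
  obtain ⟨y, hy, rfl⟩ := hx
  exact ⟨y, hy, rfl⟩

theorem red_append {l m : List Syl} (h : Red l) (h' : Red m)
    (hh : ∀ x ∈ l.getLast?, ∀ y ∈ m.head?, x.1 ≠ y.1) : Red (l ++ m) := by
  refine ⟨fun p hp => ?_, ?_⟩
  · rcases List.mem_append.1 hp with hp | hp
    · exact h.1 p hp
    · exact h'.1 p hp
  · exact List.isChain_append.2 ⟨h.2, h'.2, hh⟩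

theorem head_ne {a : Syl} {l : List Syl} (h : Red (a :: l)) : ∀ y ∈ l.head?, a.1 ≠ y.1 := by
  intro y hy
  cases l with
  | nil => simp at hy
  | cons b l =>
    simp only [List.head?_cons, Option.mem_def, Option.some.injEq] at hy
    subst hy
    have := h.2
    rw [List.isChain_cons_cons] at this
    exact this.1

/-- key formula -/
theorem lst_inv_mul {l l' : List Syl} (h : Red l) (h' : Red l') :
    ((lst ((pr l)⁻¹ * pr l')).length : ℤ) = l.length + l'.length - cc l l' := by
  induction l generalizing l' with
  | nil =>
    rw [pr_nil, inv_one, one_mul, lst_pr h']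
    simp [cc]
  | cons a l ih =>
    cases l' with
    | nil =>
      rw [pr_nil, mul_one, ← pr_linv, lst_pr (red_linv h), linv_length]
      simp [cc]
    | cons a' l' =>
      by_cases haa : a = a'
      · subst haa
        have e : (pr (a :: l))⁻¹ * pr (a :: l') = (pr l)⁻¹ * pr l' := by
          rw [pr_cons, pr_cons]; group
        rw [e, ih (red_tail h) (red_tail h')]
        simp only [cc, if_true, List.length_cons]
        push_cast
        ring
      · by_cases hb : a.1 = a'.1
        · have hk : a'.2 - a.2 ≠ 0 := by
            intro hk
            exact haa (Prod.ext hb (by omega))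
          have r1 : Red ([(a.1, a'.2 - a.2)] ++ l') := by
            refine red_append ⟨by simpa using hk, List.isChain_singleton _⟩ (red_tail h') ?_
            intro x hx y hy
            simp only [List.getLast?_singleton, Option.mem_def, Option.some.injEq] at hx
            subst hx
            rw [show ((a.1, a'.2 - a.2) : Syl).1 = a'.1 from hb]
            exact head_ne h' y hy
          have r2 : Red (linv l ++ ([(a.1, a'.2 - a.2)] ++ l')) := by
            refine red_append (red_linv (red_tail h)) r1 ?_
            intro x hx y hy
            obtain ⟨w, hw, hxw⟩ := linv_getLast l x hx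
            simp only [List.singleton_append, List.head?_cons, Option.mem_def,
              Option.some.injEq] at hy
            subst hy
            rw [hxw]
            exact (head_ne h w hw).symm
          have e : (pr (a :: l))⁻¹ * pr (a' :: l') = pr (linv l ++ ([(a.1, a'.2 - a.2)] ++ l')) := by
            rw [pr_append, pr_append, pr_linv, pr_cons, pr_cons, pr_cons, pr_nil, mul_one,
              ← hb, mul_inv_rev, letter_inv]
            have : letter a.1 (a'.2 - a.2) = letter a.1 (-a.2) * letter a.1 a'.2 := by
              rw [letter_mul]; congr 1; ring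
            simp only [this, mul_assoc]
          rw [e, lst_pr r2]
          simp only [cc, haa, hb, if_false, if_true, List.length_append, linv_length,
            List.length_cons, List.length_nil]
          push_cast
          ring
        · have r : Red (linv (a :: l) ++ (a' :: l')) := by
            refine red_append (red_linv h) h' ?_
            intro x hx y hy
            obtain ⟨w, hw, hxw⟩ := linv_getLast _ x hx
            simp only [List.head?_cons, Option.mem_def, Option.some.injEq] at hw hy
            subst hw
            subst hy
            rw [hxw]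
            exact hb
          rw [← pr_linv, ← pr_append, lst_pr r]
          simp only [cc, haa, hb, if_false, List.length_append, linv_length]
          push_cast
          ring

theorem cc_min (U V X : List Syl) : min (cc U X) (cc V X) ≤ cc U V := by
  induction U generalizing V X with
  | nil => simp [cc]
  | cons a l ih =>
    cases V with
    | nil => simp [cc]
    | cons b l' =>
      cases X with
      | nil => simp [cc]
      | cons c m =>
        have := ih l' m
        simp only [cc]
        by_cases h1 : a = c
        · by_cases h2 : b = c
          · have h3 : a = b := h1.trans h2.symm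
            simp only [h1, h2, if_true]
            omega
          · have h3 : ¬ a = b := fun h => h2 (h.symm.trans h1)
            subst h1
            simp only [h2, h3, if_true, if_false]
            by_cases h4 : b.1 = a.1
            · simp [h4]
            · simp [h4]
        · by_cases h2 : b = c
          · have h3 : ¬ a = b := fun h => h1 (h.trans h2)
            subst h2
            simp only [h1, if_true, if_false]
            by_cases h4 : a.1 = b.1
            · simp [h4]
            · simp [h4]
          · simp only [h1, h2, if_false]
            by_cases h4 : a.1 = c.1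
            · by_cases h5 : b.1 = c.1
              · have h6 : a.1 = b.1 := h4.trans h5.symm
                by_cases h3 : a = b
                · simp only [h3, h5, if_true]; omega
                · simp only [h3, h4, h5, if_true, if_false]; omega
              · simp [h5]
            · simp [h4]

theorem lst_inv (g : W) : lst g⁻¹ = linv (lst g) := by
  refine red_unique (lst_red _) (red_linv (lst_red _)) ?_
  rw [pr_lst, pr_linv, pr_lst]

/-- the syllable length satisfies the four point condition -/
noncomputable def WL : LenGroup W where
  len g := (lst g).length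
  len_one := by
    have : lst (1 : W) = [] := by rw [← pr_nil, lst_pr red_nil]
    rw [this]; rfl
  eq_one := by
    intro g hg
    have : lst g = [] := List.length_eq_zero_iff.1 hg
    rw [← pr_lst g, this, pr_nil]
  len_inv := by
    intro g
    rw [lst_inv, linv_length]
  fp := by
    intro u v w z
    have key : ∀ x y : W, ((lst (x⁻¹ * y)).length : ℤ) =
        (lst (z⁻¹ * x)).length + (lst (z⁻¹ * y)).length - cc (lst (z⁻¹ * x)) (lst (z⁻¹ * y)) := by
      intro x y
      have := lst_inv_mul (lst_red (z⁻¹ * x)) (lst_red (z⁻¹ * y))
      rw [pr_lst, pr_lst] at this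
      rw [← this]
      congr 3
      group
    have key2 : ∀ x : W, ((lst (x⁻¹ * z)).length : ℤ) = (lst (z⁻¹ * x)).length := by
      intro x
      have : x⁻¹ * z = (z⁻¹ * x)⁻¹ := by group
      rw [this, lst_inv, linv_length]
    have h1 := key u v
    have h2 := key u w
    have h3 := key v w
    have h4 := key2 u
    have h5 := key2 v
    have h6 := key2 w
    have h7 := cc_min (lst (z⁻¹ * u)) (lst (z⁻¹ * v)) (lst (z⁻¹ * w))
    omega
  step := by
    intro g hg
    have hne : lst g ≠ [] := by
      intro h
      apply hg
      rw [← pr_lst g, h, pr_nil]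
    obtain ⟨l, a, hla⟩ : ∃ l a, lst g = l ++ [a] :=
      ⟨(lst g).dropLast, (lst g).getLast hne, (List.dropLast_append_getLast hne).symm⟩
    have hr : Red (l ++ [a]) := hla ▸ lst_red g
    have hrl : Red l := ⟨fun p hp => hr.1 p (List.mem_append_left _ hp), (List.isChain_append.1 hr.2).1⟩
    have hra : Red [a] := ⟨fun p hp => hr.1 p (List.mem_append_right _ hp), List.isChain_singleton _⟩
    refine ⟨pr l, ?_, ?_⟩
    · rw [lst_pr hrl, hla]; simp
    · have : (pr l)⁻¹ * g = pr [a] := by
        rw [← pr_lst g, hla, pr_append]; group
      rw [this, lst_pr hra]; rfl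

theorem WL_pr {l : List Syl} (h : Red l) : WL.len (pr l) = l.length := by
  show (lst (pr l)).length = l.length
  rw [lst_pr h]


theorem WL_len (g : W) : WL.len g = (lst g).length := rfl

end Pool.Agent.Helper844.FC
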