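import Mathlib
import Pool.Agent.Helper844.FC.Free
set_option autoImplicit false
namespace Pool.Agent.Helper844.FC


theorem prod_range_comm_11019 {G : Type*} [Group G] (x y : G) (h : Commute x y) (a b : ℕ → ℕ)
    (n : ℕ) : ((List.range n).map (fun i => x ^ a i * y ^ b i)).prod =
      x ^ (∑ i ∈ Finset.range n, a i) * y ^ (∑ i ∈ Finset.range n, b i) := by
  induction n with
  | zero => simp
  | succ n ih =>
    rw [List.range_succ, List.map_append, List.prod_append, ih, Finset.sum_range_succ,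
      Finset.sum_range_succ, pow_add, pow_add]
    simp only [List.map_cons, List.map_nil, List.prod_cons, List.prod_nil, mul_one]
    have h1 : y ^ (∑ i ∈ Finset.range n, b i) * x ^ a n = x ^ a n * y ^ (∑ i ∈ Finset.range n, b i) :=
      ((h.pow_pow _ _).eq).symm
    calc x ^ (∑ i ∈ Finset.range n, a i) * y ^ (∑ i ∈ Finset.range n, b i) *
          (x ^ a n * y ^ b n) = x ^ (∑ i ∈ Finset.range n, a i) *
          (y ^ (∑ i ∈ Finset.range n, b i) * x ^ a n) * y ^ b n := by group
      _ = x ^ (∑ i ∈ Finset.range n, a i) *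
          (x ^ a n * y ^ (∑ i ∈ Finset.range n, b i)) * y ^ b n := by rw [h1]
      _ = _ := by group

/-- blocks are trivial on commuting elements -/
theorem D_comm {G : Type*} [Group G] (j : ℕ) (x y : G) (h : x * y = y * x) : D j x y = 1 := by
  unfold D
  rw [prod_range_comm_11019 x y h]
  have h1 : y ^ (∑ i ∈ Finset.range mB, (MM j + i)) * (x ^ (∑ i ∈ Finset.range mB, (NN j + i)))⁻¹ =
      (x ^ (∑ i ∈ Finset.range mB, (NN j + i)))⁻¹ * y ^ (∑ i ∈ Finset.range mB, (MM j + i)) :=
    (((show Commute x y from h).pow_pow _ _).inv_left.eq).symm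
  rw [mul_assoc (x ^ _), h1]
  group

theorem map_D {G H : Type*} [Group G] [Group H] (φ : G →* H) (j : ℕ) (x y : G) :
    φ (D j x y) = D j (φ x) (φ y) := by
  unfold D
  simp only [map_mul, map_inv, map_pow, map_list_prod, List.map_map]
  congr 3
  refine List.map_congr_left fun i _ => ?_
  simp

theorem map_Dv {G H : Type*} [Group G] [Group H] (φ : G →* H) (k : Blk) (x y : G) :
    φ (Dv k x y) = Dv k (φ x) (φ y) := by
  unfold Dv
  split_ifs
  · exact map_D φ _ _ _
  · rw [map_inv, map_D]

theorem kap_ne (j i : ℕ) : kap j i ≠ 0 := by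
  have h1 : 0 < ∑ i ∈ Finset.range mB, (NN j + i) := by
    refine Finset.sum_pos (fun i _ => ?_) ⟨0, by simp [mB]⟩
    unfold NN
    omega
  have h2 : 0 < ∑ i ∈ Finset.range mB, (MM j + i) := by
    refine Finset.sum_pos (fun i _ => ?_) ⟨0, by simp [mB]⟩
    unfold MM
    omega
  unfold kap
  split_ifs
  · unfold NN
    omega
  · have : ((∑ i ∈ Finset.range mB, (NN j + i) : ℕ) : ℤ) ≠ 0 := by
      exact_mod_cast h1.ne'
    exact neg_ne_zero.2 this
  · unfold MM
    omega
  · have : ((∑ i ∈ Finset.range mB, (MM j + i) : ℕ) : ℤ) ≠ 0 := by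
      exact_mod_cast h2.ne'
    exact neg_ne_zero.2 this

theorem psyl_ne_11019 (β : Base) (j i : ℕ) : (psyl β j i).2 ≠ 0 := by
  unfold psyl
  split_ifs
  · exact mul_ne_zero β.hs (kap_ne _ _)
  · exact mul_ne_zero β.ht (kap_ne _ _)

theorem syl_ne_11019 (β : Base) (k : Blk) (i : ℕ) : (syl β k i).2 ≠ 0 := by
  unfold syl
  split_ifs
  · exact psyl_ne_11019 _ _ _
  · exact neg_ne_zero.2 (psyl_ne_11019 _ _ _)

theorem psyl_fst_11019 (β : Base) (j i : ℕ) :
    (psyl β j i).1 = if i % 2 = 0 then β.b else !β.b := by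
  unfold psyl
  split_ifs <;> rfl

theorem syl_fst_ne_11019 (β : Base) (k : Blk) (i : ℕ) (hi : i + 1 < Lb) :
    (syl β k i).1 ≠ (syl β k (i + 1)).1 := by
  unfold Lb at hi
  unfold syl Lb
  split_ifs
  · rw [psyl_fst_11019, psyl_fst_11019]
    rcases Nat.mod_two_eq_zero_or_one i with h | h
    · have h' : (i + 1) % 2 = 1 := by omega
      rw [h, h']
      cases β.b <;> simp
    · have h' : (i + 1) % 2 = 0 := by omega
      rw [h, h']
      cases β.b <;> simp
  · simp only
    rw [psyl_fst_11019, psyl_fst_11019]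
    rcases Nat.mod_two_eq_zero_or_one i with h | h
    · have h1 : (402 - 1 - i) % 2 = 1 := by omega
      have h2 : (402 - 1 - (i + 1)) % 2 = 0 := by omega
      rw [h1, h2]
      cases β.b <;> simp
    · have h1 : (402 - 1 - i) % 2 = 0 := by omega
      have h2 : (402 - 1 - (i + 1)) % 2 = 1 := by omega
      rw [h1, h2]
      cases β.b <;> simp

theorem blist_red (β : Base) (k : Blk) : Red (blist β k) := by
  refine ⟨fun p hp => ?_, ?_⟩
  · unfold blist at hp
    obtain ⟨i, -, rfl⟩ := List.mem_map.1 hp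
    exact syl_ne_11019 _ _ _
  · rw [List.isChain_iff_getElem]
    intro i hi
    unfold blist at hi ⊢
    simp only [List.length_map, List.length_range] at hi
    simp only [List.getElem_map, List.getElem_range]
    exact syl_fst_ne_11019 β k i hi

theorem pr_pos_11019 (β : Base) (j : ℕ) (n : ℕ) (hn : n ≤ 200) :
    pr ((List.range (2 * n)).map (psyl β j)) =
      ((List.range n).map (fun i => β.x ^ (NN j + i) * β.y ^ (MM j + i))).prod := by
  induction n with
  | zero => rfl
  | succ n ih =>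
    have h1 : 2 * (n + 1) = 2 * n + 1 + 1 := by ring
    rw [h1, List.range_succ, List.range_succ, List.map_append, List.map_append, pr_append,
      pr_append, ih (by omega), List.range_succ, List.map_append, List.prod_append, mul_assoc]
    congr 1
    have e1 : psyl β j (2 * n) = (β.b, β.s * ((NN j + n : ℕ) : ℤ)) := by
      unfold psyl kap mB
      have h2 : (2 * n) % 2 = 0 := by omega
      have h3 : (2 * n) / 2 = n := by omega
      rw [if_pos h2, if_pos h2, h3, if_pos (by omega)]
    have e2 : psyl β j (2 * n + 1) = (!β.b, β.t * ((MM j + n : ℕ) : ℤ)) := by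
      unfold psyl kap mB
      have h2 : ¬ (2 * n + 1) % 2 = 0 := by omega
      have h3 : (2 * n + 1) / 2 = n := by omega
      rw [if_neg h2, if_neg h2, h3, if_pos (by omega)]
    simp only [List.map_cons, List.map_nil, List.prod_cons, List.prod_nil, mul_one, pr, e1, e2]
    rw [Base.x, Base.y, letter_pow, letter_pow]

theorem Dv_pos_11019 (β : Base) (j : ℕ) : D j β.x β.y = pr (blist β (j, true)) := by
  have e : blist β (j, true) = (List.range (2 * mB)).map (psyl β j) ++
      [psyl β j 400, psyl β j 401] := by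
    unfold blist
    have h1 : Lb = 2 * mB + 1 + 1 := by norm_num [Lb, mB]
    have h2 : 2 * mB = 400 := by norm_num [mB]
    rw [h1, List.range_succ, List.range_succ, List.map_append, List.map_append, List.append_assoc]
    have h3 : syl β (j, true) = psyl β j := by
      funext i
      simp [syl]
    rw [h3, List.map_cons, List.map_nil, List.map_cons, List.map_nil, h2]
    simp only [List.cons_append, List.nil_append]
  rw [e, pr_append, pr_pos_11019 β j mB (by norm_num [mB])]
  have e1 : psyl β j 400 = (β.b, -(β.s * ((∑ i ∈ Finset.range mB, (NN j + i) : ℕ) : ℤ))) := by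
    unfold psyl kap
    rw [if_pos (by norm_num), if_pos (by norm_num), if_neg (by norm_num [mB]), mul_neg]
  have e2 : psyl β j 401 = (!β.b, -(β.t * ((∑ i ∈ Finset.range mB, (MM j + i) : ℕ) : ℤ))) := by
    unfold psyl kap
    rw [if_neg (by norm_num), if_neg (by norm_num), if_neg (by norm_num [mB]), mul_neg]
  rw [e1, e2]
  simp only [pr, List.map_cons, List.map_nil, List.prod_cons, List.prod_nil, mul_one]
  unfold D
  rw [mul_assoc]
  refine congrArg₂ (· * ·) rfl ?_
  rw [Base.x, Base.y, letter_pow, letter_pow, letter_inv, letter_inv]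

theorem blist_false_11019 (β : Base) (j : ℕ) : blist β (j, false) = linv (blist β (j, true)) := by
  unfold linv
  refine List.ext_getElem ?_ ?_
  · simp [blist]
  · intro i h1 h2
    rw [List.getElem_reverse]
    simp only [blist, List.length_map, List.length_range] at h1 h2 ⊢
    simp only [List.getElem_map, List.getElem_range]
    simp only [syl]
    rfl

theorem Dv_eq (β : Base) (k : Blk) : Dv k β.x β.y = pr (blist β k) := by
  obtain ⟨j, b⟩ := k
  cases b with
  | false =>
    rw [blist_false_11019, pr_linv, ← Dv_pos_11019]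
    rfl
  | true =>
    rw [← Dv_pos_11019]
    rfl

theorem blist_split (β : Base) (k : Blk) : blist β k = hd β k ++ core β k ++ tl β k := by
  have h1 : Lb = c0 + CC + c0 := by norm_num [Lb, c0, CC]
  unfold blist hd core tl
  rw [h1, List.range_add, List.range_add, List.map_append, List.map_append, List.map_map,
    List.map_map]
  have e1 : (syl β k ∘ fun x => c0 + x) = fun i => syl β k (c0 + i) := funext fun _ => rfl
  have e2 : (syl β k ∘ fun x => c0 + CC + x) = fun i => syl β k (c0 + CC + i) :=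
    funext fun _ => rfl
  rw [e1, e2]

theorem syl_inv (β : Base) (k : Blk) (i : ℕ) (hi : i < Lb) :
    syl β (Blk.inv k) i = ((syl β k (Lb - 1 - i)).1, -(syl β k (Lb - 1 - i)).2) := by
  obtain ⟨j, b⟩ := k
  have h1 : Lb - 1 - (Lb - 1 - i) = i := by
    unfold Lb at *
    omega
  cases b with
  | false =>
    simp only [syl, Blk.inv, Bool.not_false, if_true, Bool.false_eq_true, if_false, h1, neg_neg]
  | true =>
    simp only [syl, Blk.inv, Bool.not_true, if_true, Bool.false_eq_true, if_false]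

theorem syl_data_11019 (β : Base) (k : Blk) (i : ℕ) (h2 : 2 ≤ i) (hi : i + 3 < 400) :
    ∃ (ty : Bool) (σ0 σ1 κ0 κ1 : ℤ), σ0 ≠ 0 ∧ σ1 ≠ 0 ∧ syl β k i = (ty, σ0 * κ0) ∧
      syl β k (i + 1) = (!ty, σ1 * κ1) ∧ syl β k (i + 2) = (ty, σ0 * (κ0 + 1)) ∧
      syl β k (i + 3) = (!ty, σ1 * (κ1 + 1)) ∧
      ((k.2 = true ∧ i % 2 = 0 ∧ ty = β.b ∧ σ0 = β.s ∧ σ1 = β.t ∧
          κ0 = ((400 * k.1 + 1 + i / 2 : ℕ) : ℤ)) ∨
       (k.2 = true ∧ i % 2 = 1 ∧ ty = (!β.b) ∧ σ0 = β.t ∧ σ1 = β.s ∧
          κ0 = ((400 * k.1 + 201 + i / 2 : ℕ) : ℤ)) ∨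
       (k.2 = false ∧ i % 2 = 0 ∧ ty = (!β.b) ∧ σ0 = β.t ∧ σ1 = β.s ∧
          κ0 = -((400 * k.1 + 201 + (401 - i) / 2 : ℕ) : ℤ)) ∨
       (k.2 = false ∧ i % 2 = 1 ∧ ty = β.b ∧ σ0 = β.s ∧ σ1 = β.t ∧
          κ0 = -((400 * k.1 + 1 + (401 - i) / 2 : ℕ) : ℤ))) := by
  obtain ⟨j, sg⟩ := k
  have kE : ∀ m, m % 2 = 0 → m < 400 → kap j m = ((400 * j + 1 + m / 2 : ℕ) : ℤ) := by
    intro m hm hm'
    unfold kap mB
    rw [if_pos hm, if_pos (by omega)]
    unfold NN mB
    push_cast
    ring
  have kO : ∀ m, m % 2 = 1 → m < 400 → kap j m = ((400 * j + 201 + m / 2 : ℕ) : ℤ) := by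
    intro m hm hm'
    unfold kap mB
    rw [if_neg (by omega), if_pos (by omega)]
    unfold MM mB
    push_cast
    ring
  have pE : ∀ m, m % 2 = 0 → m < 400 →
      psyl β j m = (β.b, β.s * ((400 * j + 1 + m / 2 : ℕ) : ℤ)) := by
    intro m hm hm'
    unfold psyl
    rw [if_pos hm, kE m hm hm']
  have pO : ∀ m, m % 2 = 1 → m < 400 →
      psyl β j m = (!β.b, β.t * ((400 * j + 201 + m / 2 : ℕ) : ℤ)) := by
    intro m hm hm'
    unfold psyl
    rw [if_neg (by omega), kO m hm hm']
  cases sg with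
  | true =>
    simp only [syl, if_true]
    rcases Nat.mod_two_eq_zero_or_one i with hp | hp
    · refine ⟨β.b, β.s, β.t, ((400 * j + 1 + i / 2 : ℕ) : ℤ), ((400 * j + 201 + i / 2 : ℕ) : ℤ),
        β.hs, β.ht, pE i hp (by omega), ?_, ?_, ?_, Or.inl ⟨trivial, hp, rfl, rfl, rfl, rfl⟩⟩
      · rw [pO (i + 1) (by omega) (by omega)]
        congr 3
        push_cast
        omega
      · rw [pE (i + 2) (by omega) (by omega)]
        congr 3
        push_cast
        omega
      · rw [pO (i + 3) (by omega) (by omega)]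
        congr 3
        push_cast
        omega
    · refine ⟨!β.b, β.t, β.s, ((400 * j + 201 + i / 2 : ℕ) : ℤ),
        ((400 * j + 1 + (i / 2 + 1) : ℕ) : ℤ),
        β.ht, β.hs, pO i hp (by omega), ?_, ?_, ?_, Or.inr (Or.inl ⟨trivial, hp, rfl, rfl, rfl, rfl⟩)⟩
      · rw [pE (i + 1) (by omega) (by omega), Bool.not_not]
        congr 3
        push_cast
        omega
      · rw [pO (i + 2) (by omega) (by omega)]
        congr 3
        push_cast
        omega
      · rw [pE (i + 3) (by omega) (by omega), Bool.not_not]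
        congr 3
        push_cast
        omega
  | false =>
    simp only [syl, Bool.false_eq_true, if_false, Lb]
    rcases Nat.mod_two_eq_zero_or_one i with hp | hp
    · refine ⟨!β.b, β.t, β.s, -((400 * j + 201 + (401 - i) / 2 : ℕ) : ℤ),
        -((400 * j + 1 + (401 - i) / 2 : ℕ) : ℤ), β.ht, β.hs, ?_, ?_, ?_, ?_,
        Or.inr (Or.inr (Or.inl ⟨trivial, hp, rfl, rfl, rfl, rfl⟩))⟩
      · rw [pO (402 - 1 - i) (by omega) (by omega)]
        simp only
        rw [mul_neg]
      · rw [pE (402 - 1 - (i + 1)) (by omega) (by omega), Bool.not_not]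
        simp only
        rw [mul_neg]
        congr 4
        omega
      · rw [pO (402 - 1 - (i + 2)) (by omega) (by omega)]
        simp only
        rw [← mul_neg]
        congr 2
        omega
      · rw [pE (402 - 1 - (i + 3)) (by omega) (by omega), Bool.not_not]
        simp only
        rw [← mul_neg]
        congr 2
        omega
    · refine ⟨β.b, β.s, β.t, -((400 * j + 1 + (401 - i) / 2 : ℕ) : ℤ),
        -((400 * j + 201 + (400 - i) / 2 : ℕ) : ℤ), β.hs, β.ht, ?_, ?_, ?_, ?_,
        Or.inr (Or.inr (Or.inr ⟨trivial, hp, rfl, rfl, rfl, rfl⟩))⟩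
      · rw [pE (402 - 1 - i) (by omega) (by omega)]
        simp only
        rw [mul_neg]
      · rw [pO (402 - 1 - (i + 1)) (by omega) (by omega)]
        simp only
        rw [mul_neg]
        congr 4
        omega
      · rw [pE (402 - 1 - (i + 2)) (by omega) (by omega)]
        simp only
        rw [← mul_neg]
        congr 2
        omega
      · rw [pO (402 - 1 - (i + 3)) (by omega) (by omega)]
        simp only
        rw [← mul_neg]
        congr 2
        omega

/-- block rigidity: four consecutive syllables in the regular part determine base, block, sign and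
position -/
theorem br (β β' : Base) (k k' : Blk) (i i' : ℕ) (h2 : 2 ≤ i) (h2' : 2 ≤ i') (hi : i + 3 < 400)
    (hi' : i' + 3 < 400) (h : ∀ e < 4, syl β k (i + e) = syl β' k' (i' + e)) :
    β = β' ∧ k = k' ∧ i = i' := by
  obtain ⟨ty, σ0, σ1, κ0, κ1, n0, n1, a0, a1, a2, a3, hd⟩ := syl_data_11019 β k i h2 hi
  obtain ⟨ty', τ0, τ1, ν0, ν1, m0, m1, b0, b1, b2, b3, hd'⟩ := syl_data_11019 β' k' i' h2' hi'
  have e0 := h 0 (by norm_num)
  have e1 := h 1 (by norm_num)
  have e2 := h 2 (by norm_num)
  have e3 := h 3 (by norm_num)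
  rw [add_zero, add_zero, a0, b0, Prod.mk.injEq] at e0
  rw [a1, b1, Prod.mk.injEq] at e1
  rw [a2, b2, Prod.mk.injEq] at e2
  rw [a3, b3, Prod.mk.injEq] at e3
  obtain ⟨hty, q0⟩ := e0
  obtain ⟨-, q1⟩ := e1
  obtain ⟨-, q2⟩ := e2
  obtain ⟨-, q3⟩ := e3
  have s0 : σ0 = τ0 := by linarith
  have s1 : σ1 = τ1 := by linarith
  rw [← s0] at q0
  have k0 : κ0 = ν0 := mul_left_cancel₀ n0 q0
  obtain ⟨bb, s, t, hs, ht⟩ := β
  obtain ⟨bb', s', t', hs', ht'⟩ := β'
  obtain ⟨j, sg⟩ := k
  obtain ⟨j', sg'⟩ := k'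
  simp only at hd hd'
  rcases hd with ⟨c1, c2, c3, c4, c5, c6⟩ | ⟨c1, c2, c3, c4, c5, c6⟩ | ⟨c1, c2, c3, c4, c5, c6⟩ |
      ⟨c1, c2, c3, c4, c5, c6⟩ <;>
    rcases hd' with ⟨d1, d2, d3, d4, d5, d6⟩ | ⟨d1, d2, d3, d4, d5, d6⟩ |
      ⟨d1, d2, d3, d4, d5, d6⟩ | ⟨d1, d2, d3, d4, d5, d6⟩
  all_goals first
    | (exfalso; omega)
    | (have hj : j = j' := by omega
       have hii : i = i' := by omega
       have hb : bb = bb' := by
         rw [c3, d3] at hty
         first
           | exact hty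
           | (simpa using hty)
       have hss : s = s' := by linarith
       have htt : t = t' := by linarith
       subst hj hii hb hss htt
       subst c1
       subst d1
       exact ⟨rfl, rfl, rfl⟩)

/-- for a fixed base: block rigidity with distinct positions -/
theorem syl_fst_ne (β : Base) (k : Blk) (i : ℕ) (hi : i + 1 < Lb) :
    (syl β k i).1 ≠ (syl β k (i + 1)).1 := syl_fst_ne_11019 β k i hi


end Pool.Agent.Helper844.FC
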