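import Mathlib
import Pool.Agent.Helper844.FC.Block
set_option autoImplicit false
namespace Pool.Agent.Helper844.FC


theorem h170_red_append {l l' : List Syl} : Red (l ++ l') ↔ Red l ∧ Red l' ∧
    ∀ x ∈ l.getLast?, ∀ y ∈ l'.head?, x.1 ≠ y.1 := by
  unfold Red
  rw [List.isChain_append]
  simp only [List.mem_append]
  constructor
  · rintro ⟨h1, h2, h3, h4⟩
    exact ⟨⟨fun p hp => h1 p (Or.inl hp), h2⟩, ⟨fun p hp => h1 p (Or.inr hp), h3⟩, h4⟩
  · rintro ⟨⟨h1, h2⟩, ⟨h3, h4⟩, h5⟩
    exact ⟨fun p hp => hp.elim (h1 p) (h3 p), h2, h4, h5⟩

theorem h170_linv_cons (a : Syl) (l : List Syl) : linv (a :: l) = linv l ++ [(a.1, -a.2)] := by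
  simp [linv]

theorem h170_linv_last (l : List Syl) : (linv l).getLast? = l.head?.map (fun p => (p.1, -p.2)) := by
  cases l <;> simp [linv]

theorem h170_linv_head (l : List Syl) : (linv l).head? = l.getLast?.map (fun p => (p.1, -p.2)) := by
  simp [linv]

theorem h170_linv_length (l : List Syl) : (linv l).length = l.length := by
  simp [linv]

theorem h170_red_cons {a : Syl} {l : List Syl} : Red (a :: l) ↔ a.2 ≠ 0 ∧ Red l ∧ ∀ y ∈ l.head?, a.1 ≠ y.1 := by
  have h := h170_red_append (l := [a]) (l' := l)
  rw [List.singleton_append] at h
  rw [h]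
  have h1 : Red [a] ↔ a.2 ≠ 0 := by simp [Red]
  rw [h1]
  simp

theorem h170_pr_cons (a : Syl) (l : List Syl) : pr (a :: l) = letter a.1 a.2 * pr l := by
  simp [pr]

theorem h170_pr_nil : pr [] = 1 := by simp [pr]

/-- structure of a product: after `p` common syllables, possibly one merged syllable -/
theorem mul_structure {l l' : List Syl} (h : Red l) (h' : Red l') :
    ∃ (p d : ℕ) (mid : List Syl), d ≤ 1 ∧ mid.length = d ∧ l.take p = l'.take p ∧
      p + d ≤ l.length ∧ p + d ≤ l'.length ∧
      Red (linv (l.drop (p + d)) ++ mid ++ l'.drop (p + d)) ∧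
      (pr l)⁻¹ * pr l' = pr (linv (l.drop (p + d)) ++ mid ++ l'.drop (p + d)) := by
  induction l generalizing l' with
  | nil =>
    refine ⟨0, 0, [], by norm_num, rfl, rfl, by simp, by simp, ?_, ?_⟩
    · simpa [linv] using h'
    · simp [linv, pr]
  | cons a t ih =>
    cases l' with
    | nil =>
      refine ⟨0, 0, [], by norm_num, rfl, by simp, by simp, by simp, ?_, ?_⟩
      · simpa using red_linv h
      · simp [pr_linv, h170_pr_nil]
    | cons b t' =>
      obtain ⟨ha0, ht, hat⟩ := h170_red_cons.1 h
      obtain ⟨hb0, ht', hbt⟩ := h170_red_cons.1 h'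
      by_cases hab : a = b
      · subst hab
        obtain ⟨p, d, mid, h1, h2, h3, h4, h5, h6, h7⟩ := ih ht ht'
        have e : p + 1 + d = (p + d) + 1 := by ring
        refine ⟨p + 1, d, mid, h1, h2, by simp [h3], by simp; omega, by simp; omega, ?_, ?_⟩
        · rw [e, List.drop_succ_cons, List.drop_succ_cons]; exact h6
        · rw [e, List.drop_succ_cons, List.drop_succ_cons, ← h7, h170_pr_cons, h170_pr_cons]
          group
      · by_cases hf : a.1 = b.1
        · have h2 : b.2 - a.2 ≠ 0 := by
            intro h3
            apply hab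
            exact Prod.ext hf (by omega)
          refine ⟨0, 1, [(a.1, b.2 - a.2)], le_rfl, rfl, by simp, by simp, by simp, ?_, ?_⟩
          · simp only [zero_add, List.drop_succ_cons, List.drop_zero]
            rw [List.append_assoc, h170_red_append]
            refine ⟨red_linv ht, ?_, ?_⟩
            · rw [List.singleton_append, h170_red_cons]
              exact ⟨h2, ht', by rw [hf]; exact hbt⟩
            · intro x hx y hy
              rw [h170_linv_last] at hx
              simp only [List.singleton_append, List.head?_cons, Option.mem_def, Option.some.injEq] at hy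
              rw [Option.mem_def, Option.map_eq_some_iff] at hx
              obtain ⟨q, hq, hqx⟩ := hx
              rw [← hqx, ← hy]
              exact (hat q hq).symm
          · simp only [zero_add, List.drop_succ_cons, List.drop_zero]
            rw [pr_append, pr_append, pr_linv, h170_pr_cons, h170_pr_cons, h170_pr_cons, h170_pr_nil, mul_one,
              mul_inv_rev, letter_inv, ← hf]
            simp only
            have h3 : letter a.1 (b.2 - a.2) = letter a.1 (-a.2) * letter a.1 b.2 := by
              rw [letter_mul]; congr 1; ring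
            rw [h3]
            group
        · refine ⟨0, 0, [], by norm_num, rfl, by simp, by simp, by simp, ?_, ?_⟩
          · simp only [add_zero, List.drop_zero, List.append_nil]
            rw [h170_red_append]
            refine ⟨red_linv h, h', ?_⟩
            intro x hx y hy
            rw [h170_linv_last] at hx
            simp only [List.head?_cons, Option.map_some, Option.mem_def, Option.some.injEq] at hx hy
            rw [← hx, ← hy]
            exact hf
          · simp only [add_zero, List.drop_zero, List.append_nil]
            rw [pr_append, pr_linv]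

theorem h170_hd_get (β : Base) (k : Blk) (i : ℕ) (hi : i < 40) : (hd β k)[i]? = some (syl β k i) := by
  simp [hd, c0, hi]

theorem h170_hd_len (β : Base) (k : Blk) : (hd β k).length = 40 := by simp [hd, c0]

theorem h170_tl_inv (β : Base) (k : Blk) : linv (tl β k) = hd β (Blk.inv k) := by
  refine List.ext_getElem ?_ ?_
  · simp [linv, tl, hd]
  · intro i h1 h2
    have hi : i < 40 := by simpa [hd, c0] using h2
    simp only [linv, tl, hd, List.getElem_reverse, List.getElem_map, List.length_map, List.length_range,
      List.getElem_range]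
    rw [syl_inv β k i (by unfold Lb; omega)]
    have e : c0 + CC + (c0 - 1 - i) = Lb - 1 - i := by unfold c0 CC Lb; omega
    rw [e]

/-- junction lemma: between two blocks with a short gap only the ends of the blocks are changed -/
theorem junction (β : Base) (k k' : Blk) (u : W) (hu : WL.len u ≤ KK)
    (hk : ¬ (k' = Blk.inv k ∧ u = 1)) :
    ∃ J : List Syl, Red J ∧ pr J = pr (tl β k) * u * pr (hd β k') ∧ J.length ≤ jm ∧
      J.head? = some (syl β k (c0 + CC)) ∧ J.getLast? = some (syl β k' (c0 - 1)) := by
  have hul : (lst u).length ≤ 12 := by rw [← WL_len]; exact hu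
  obtain ⟨v, hv⟩ : ∃ v, v = hd β k' := ⟨_, rfl⟩
  obtain ⟨w, hw⟩ : ∃ w, w = hd β (Blk.inv k) := ⟨_, rfl⟩
  have hhdred : ∀ k, Red (hd β k) := by
    intro k
    have := blist_red β k
    rw [blist_split, List.append_assoc] at this
    exact (h170_red_append.1 this).1
  have hvred : Red v := by rw [hv]; exact hhdred k'
  have hwred : Red w := by rw [hw]; exact hhdred _
  have hvlen : v.length = 40 := by rw [hv]; exact h170_hd_len _ _
  have hwlen : w.length = 40 := by rw [hw]; exact h170_hd_len _ _
  have hwt : linv (tl β k) = w := by rw [hw]; exact h170_tl_inv β k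
  have hprt : pr (tl β k) = (pr w)⁻¹ := by
    rw [← hwt, pr_linv, inv_inv]
  -- first product
  obtain ⟨p, d, mid, h1, h2, h3, h4, h5, h6, h7⟩ := mul_structure (red_linv (lst_red u)) hvred
  rw [pr_linv, inv_inv, pr_lst] at h7
  rw [h170_linv_length] at h4
  obtain ⟨al, hal⟩ : ∃ al, al = linv ((linv (lst u)).drop (p + d)) ++ mid ++ (v.take 12).drop (p + d) := ⟨_, rfl⟩
  have hpd : p + d ≤ 12 := h4.trans hul
  have hr : linv ((linv (lst u)).drop (p + d)) ++ mid ++ v.drop (p + d) = al ++ v.drop 12 := by
    rw [hal, List.append_assoc _ _ (v.drop 12)]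
    congr 1
    conv_lhs => rw [← List.take_append_drop 12 v]
    rw [List.drop_append_of_le_length]
    rw [List.length_take, hvlen]
    omega
  rw [hr] at h6 h7
  have hallen : al.length ≤ 24 := by
    rw [hal]
    simp only [List.length_append, h170_linv_length, List.length_drop, List.length_take, hvlen, h2]
    omega
  have hglen : (al ++ v.drop 12).length = al.length + 28 := by
    simp only [List.length_append, List.length_drop, hvlen]
  -- second product
  obtain ⟨p', d', mid', g1, g2, g3, g4, g5, g6, g7⟩ := mul_structure hwred h6
  rw [hwlen] at g4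
  rw [hglen] at g5
  have key : p' ≤ max al.length 2 + 3 := by
    by_contra hcon
    push Not at hcon
    obtain ⟨i0, hi0⟩ : ∃ i0, i0 = max al.length 2 := ⟨_, rfl⟩
    rw [← hi0] at hcon
    have hi02 : 2 ≤ i0 := by rw [hi0]; exact le_max_right _ _
    have hi0al : al.length ≤ i0 := by rw [hi0]; exact le_max_left _ _
    have hi0le : i0 ≤ al.length + 2 := by rw [hi0]; omega
    have hget : ∀ j, j < p' → w[j]? = (al ++ v.drop 12)[j]? := by
      intro j hj
      have := congrArg (fun l => l[j]?) g3
      simp only [List.getElem?_take_of_lt hj] at this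
      exact this
    have hbr := br β β (Blk.inv k) k' i0 (12 + i0 - al.length) hi02 (by omega) (by omega) (by omega) (by
      intro e he
      have e1 := hget (i0 + e) (by omega)
      rw [hw, h170_hd_get _ _ _ (by omega), List.getElem?_append_right (by omega), List.getElem?_drop, hv,
        h170_hd_get _ _ _ (by omega)] at e1
      have e2 : 12 + (i0 + e - al.length) = 12 + i0 - al.length + e := by omega
      rw [e2] at e1
      exact Option.some.inj e1)
    obtain ⟨-, hkk, hii⟩ := hbr
    have hal12 : al.length = 12 := by omega
    have hvw : v = w := by rw [hv, hw, hkk]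
    have halv : al = v.take 12 := by
      refine List.ext_getElem? fun j => ?_
      by_cases hj : j < 12
      · have e1 := hget j (by omega)
        rw [List.getElem?_append_left (by omega), ← hvw] at e1
        rw [List.getElem?_take_of_lt hj]
        exact e1.symm
      · rw [List.getElem?_eq_none (by omega), List.getElem?_eq_none (by rw [List.length_take]; omega)]
    apply hk
    refine ⟨hkk.symm, ?_⟩
    rw [halv, List.take_append_drop] at h7
    exact mul_eq_right.1 h7
  have hpd' : p' + d' ≤ al.length + 6 := by omega
  have hpd2 : p' + d' ≤ 28 := by omega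
  refine ⟨linv (w.drop (p' + d')) ++ mid' ++ (al ++ v.drop 12).drop (p' + d'), g6, ?_, ?_, ?_, ?_⟩
  · rw [← g7, hprt, ← h7, ← hv]
    group
  · simp only [List.length_append, h170_linv_length, List.length_drop, hwlen, hvlen, g2]
    unfold jm
    omega
  · have e1 : (linv (w.drop (p' + d'))).head? = some (syl β k (c0 + CC)) := by
      rw [h170_linv_head, List.getLast?_drop]
      have e2 : ¬ (w.length ≤ p' + d') := by omega
      rw [if_neg e2, List.getLast?_eq_getElem?, hwlen, hw, h170_hd_get _ _ _ (by omega)]
      have e3 := syl_inv β k (40 - 1) (by unfold Lb; omega)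
      rw [e3]
      simp only [Option.map_some, neg_neg]
      rfl
    rw [List.append_assoc, List.head?_append, e1]
    rfl
  · rw [List.getLast?_append, List.getLast?_drop, if_neg (by omega), List.getLast?_append, List.getLast?_drop,
      if_neg (by omega), List.getLast?_eq_getElem?, hvlen, hv, h170_hd_get _ _ _ (by omega)]
    rfl



end Pool.Agent.Helper844.FC
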