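import Mathlib
import Pool.Agent.Helper844.FC.Junction
set_option autoImplicit false
namespace Pool.Agent.Helper844.FC


/-- bi-infinite reduced sequence of syllables made of cores of blocks and short junctions -/
structure BSeq (β : Base) where
  a : ℤ → ℤ
  blk : ℤ → Blk
  gap : ℤ → W
  J : ℤ → List Syl
  s : ℤ → Syl
  ha : ∀ i, a (i + 1) = a i + CC + (J i).length
  hJ : ∀ i, (J i).length ≤ jm
  hJred : ∀ i, Red (J i)
  hcore : ∀ i (e : ℕ), e < CC → s (a i + e) = syl β (blk i) (c0 + e)
  hjun : ∀ i (e : ℕ) (he : e < (J i).length), s (a i + CC + e) = (J i)[e]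
  hpr : ∀ i, pr (J i) = pr (tl β (blk i)) * gap i * pr (hd β (blk (i + 1)))
  hne : ∀ p, (s p).2 ≠ 0
  halt : ∀ p, (s p).1 ≠ (s (p + 1)).1


theorem syl_ne_11191 (β : Base) (k : Blk) (i : ℕ) (hi : i < Lb) : (syl β k i).2 ≠ 0 := by
  refine (blist_red β k).1 (syl β k i) ?_
  unfold blist
  rw [List.mem_map]
  exact ⟨i, List.mem_range.2 hi, rfl⟩

/-- recursion on the integers -/
theorem exists_a_11191 (f : ℤ → ℤ) : ∃ a : ℤ → ℤ, a 0 = 0 ∧ ∀ i, a (i + 1) = a i + f i := by
  let a : ℤ → ℤ := fun i => match i with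
    | Int.ofNat n => ∑ j ∈ Finset.range n, f j
    | Int.negSucc n => -∑ j ∈ Finset.range (n + 1), f (-((j : ℤ) + 1))
  have h0 : ∀ n : ℕ, a (n : ℤ) = ∑ j ∈ Finset.range n, f j := fun n => rfl
  have h1 : ∀ n : ℕ, a (-((n : ℤ) + 1)) = -∑ j ∈ Finset.range (n + 1), f (-((j : ℤ) + 1)) := by
    intro n
    have : (-((n : ℤ) + 1)) = Int.negSucc n := by
      rw [Int.negSucc_eq]
    rw [this]
  refine ⟨a, rfl, fun i => ?_⟩
  rcases le_or_gt 0 i with h | h
  · obtain ⟨n, rfl⟩ := Int.eq_ofNat_of_zero_le h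
    have e : ((n : ℤ) + 1) = ((n + 1 : ℕ) : ℤ) := by push_cast; rfl
    rw [e, h0, h0, Finset.sum_range_succ]
  · obtain ⟨n, hn⟩ := Int.eq_ofNat_of_zero_le (show 0 ≤ -i - 1 by omega)
    have hi : i = -((n : ℤ) + 1) := by omega
    subst hi
    rw [h1]
    cases n with
    | zero =>
      simp only [Nat.cast_zero, zero_add, Finset.range_one, Finset.sum_singleton]
      have : a (-1 + 1) = 0 := rfl
      rw [this]
      ring
    | succ m =>
      have e : -(((m + 1 : ℕ) : ℤ) + 1) + 1 = -((m : ℤ) + 1) := by push_cast; ring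
      rw [e, h1, Finset.sum_range_succ (fun j : ℕ => f (-((j : ℤ) + 1))) (m + 1)]
      ring

theorem linv_length_11191 (l : List Syl) : (linv l).length = l.length := by
  unfold linv
  rw [List.length_reverse, List.length_map]

theorem linv_getElem_11191 (l : List Syl) (e : ℕ) (he : e < (linv l).length)
    (he' : l.length - 1 - e < l.length) :
    (linv l)[e] = ((l[l.length - 1 - e]).1, -(l[l.length - 1 - e]).2) := by
  unfold linv
  rw [List.getElem_reverse, List.getElem_map]
  simp only [List.length_map]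

theorem tl_inv_11191 (β : Base) (k : Blk) : tl β (Blk.inv k) = linv (hd β k) := by
  refine List.ext_getElem ?_ ?_
  · rw [linv_length_11191]
    simp [tl, hd]
  · intro n h1 h2
    have hn : n < c0 := by simpa [tl] using h1
    have hl : (hd β k).length = c0 := by simp [hd]
    rw [linv_getElem_11191 _ _ _ (by rw [hl]; omega)]
    simp only [tl, List.getElem_map, List.getElem_range]
    rw [syl_inv β k _ (by unfold Lb c0 CC at *; omega)]
    simp only [hd, List.getElem_map, List.getElem_range, List.length_map, List.length_range]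
    have e : Lb - 1 - (c0 + CC + n) = c0 - 1 - n := by unfold Lb c0 CC at *; omega
    rw [e]

theorem hd_inv_11191 (β : Base) (k : Blk) : hd β (Blk.inv k) = linv (tl β k) := by
  refine List.ext_getElem ?_ ?_
  · rw [linv_length_11191]
    simp [tl, hd]
  · intro n h1 h2
    have hn : n < c0 := by simpa [hd] using h1
    have hl : (tl β k).length = c0 := by simp [tl]
    rw [linv_getElem_11191 _ _ _ (by rw [hl]; omega)]
    simp only [hd, List.getElem_map, List.getElem_range]
    rw [syl_inv β k _ (by unfold Lb c0 at *; omega)]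
    simp only [tl, List.getElem_map, List.getElem_range, List.length_map, List.length_range]
    have e : Lb - 1 - n = c0 + CC + (c0 - 1 - n) := by unfold Lb c0 CC at *; omega
    rw [e]


/-- existence -/
theorem exists_bseq (β : Base) (blk : ℤ → Blk) (gap : ℤ → W) (hgap : ∀ i, WL.len (gap i) ≤ KK)
    (hnb : ∀ i, ¬ (blk (i + 1) = Blk.inv (blk i) ∧ gap i = 1)) :
    ∃ S : BSeq β, S.blk = blk ∧ S.gap = gap ∧ S.a 0 = 0 := by
  classical
  choose J hJ1 hJ2 hJ3 hJ4 hJ5 using fun i : ℤ =>
    junction β (blk i) (blk (i + 1)) (gap i) (hgap i) (hnb i)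
  obtain ⟨a, ha0, ha⟩ := exists_a_11191 (fun i => (CC : ℤ) + (J i).length)
  have hCC : (CC : ℤ) = 322 := rfl
  have hstep : ∀ i, a i + 322 ≤ a (i + 1) := by
    intro i
    rw [ha, hCC]
    omega
  have hpos : ∀ n : ℕ, (n : ℤ) ≤ a n := by
    intro n
    induction n with
    | zero => rw [Nat.cast_zero, ha0]
    | succ n ih =>
      have := hstep n
      push_cast
      omega
  have hneg : ∀ n : ℕ, a (-(n : ℤ)) ≤ -(n : ℤ) := by
    intro n
    induction n with
    | zero => rw [Nat.cast_zero, neg_zero, ha0]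
    | succ n ih =>
      have := hstep (-((n : ℤ) + 1))
      have e : -((n : ℤ) + 1) + 1 = -(n : ℤ) := by ring
      rw [e] at this
      push_cast
      omega
  have hmono : StrictMono a := strictMono_int_of_lt_succ fun i => by
    have := hstep i
    omega
  have hex : ∀ p : ℤ, ∃ i, a i ≤ p ∧ p < a (i + 1) := by
    intro p
    obtain ⟨n, hn1, hn2⟩ : ∃ n : ℕ, p ≤ n ∧ -(n : ℤ) ≤ p := ⟨p.natAbs, by omega, by omega⟩
    obtain ⟨i, hi1, hi2⟩ := Int.exists_greatest_of_bdd (P := fun i => a i ≤ p)
      ⟨((n + 1 : ℕ) : ℤ), fun z hz => by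
        by_contra hcon
        push Not at hcon
        have h1 := hmono hcon
        have h2 := hpos (n + 1)
        have h4 : a z ≤ p := hz
        have h5 : ((n + 1 : ℕ) : ℤ) = (n : ℤ) + 1 := by push_cast; rfl
        omega⟩
      ⟨-(n : ℤ), by
        have := hneg n
        show a (-(n : ℤ)) ≤ p
        omega⟩
    refine ⟨i, hi1, ?_⟩
    by_contra hcon
    push Not at hcon
    have := hi2 (i + 1) hcon
    omega
  choose ι hι1 hι2 using hex
  have huniq : ∀ p i, a i ≤ p → p < a (i + 1) → ι p = i := by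
    intro p i h1 h2
    have h3 := hι1 p
    have h4 := hι2 p
    have h5 : a (ι p) < a (i + 1) := lt_of_le_of_lt h3 h2
    have h6 : a i < a (ι p + 1) := lt_of_le_of_lt h1 h4
    have h7 := hmono.lt_iff_lt.1 h5
    have h8 := hmono.lt_iff_lt.1 h6
    omega
  let s : ℤ → Syl := fun p =>
    if (p - a (ι p)).toNat < CC then syl β (blk (ι p)) (c0 + (p - a (ι p)).toNat)
    else (J (ι p)).getD ((p - a (ι p)).toNat - CC) (true, 0)
  have hcore : ∀ i (e : ℕ), e < CC → s (a i + e) = syl β (blk i) (c0 + e) := by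
    intro i e he
    have he' : (e : ℤ) < 322 := by have : CC = 322 := rfl; omega
    have hi : ι (a i + e) = i := huniq _ _ (by omega) (by have := hstep i; omega)
    have h1 : (a i + (e : ℤ) - a i).toNat = e := by
      rw [add_sub_cancel_left, Int.toNat_natCast]
    simp only [s, hi, h1]
    rw [if_pos he]
  have hjun : ∀ i (e : ℕ) (he : e < (J i).length), s (a i + CC + e) = (J i)[e] := by
    intro i e he
    have hi : ι (a i + CC + e) = i := huniq _ _ (by omega) (by rw [ha]; omega)
    have h1 : (a i + (CC : ℤ) + (e : ℤ) - a i).toNat = CC + e := by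
      have : a i + (CC : ℤ) + (e : ℤ) - a i = ((CC + e : ℕ) : ℤ) := by push_cast; ring
      rw [this, Int.toNat_natCast]
    simp only [s, hi, h1]
    rw [if_neg (by omega), Nat.add_sub_cancel_left, List.getD_eq_getElem _ _ he]
  have hcases : ∀ p : ℤ, ∃ i : ℤ, (∃ e : ℕ, e < CC ∧ p = a i + e) ∨
      (∃ e : ℕ, e < (J i).length ∧ p = a i + CC + e) := by
    intro p
    refine ⟨ι p, ?_⟩
    have h3 := hι1 p
    have h4 := hι2 p
    rw [ha] at h4
    by_cases h : p - a (ι p) < CC
    · left
      refine ⟨(p - a (ι p)).toNat, by omega, by omega⟩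
    · right
      refine ⟨(p - a (ι p) - CC).toNat, by omega, by omega⟩
  have hLb : Lb = 402 := rfl
  have hc0 : c0 = 40 := rfl
  have hCCn : CC = 322 := rfl
  refine ⟨⟨a, blk, gap, J, s, fun i => by rw [ha]; ring, hJ3, hJ1, hcore, hjun, hJ2, ?_, ?_⟩,
    rfl, rfl, ha0⟩
  · intro p
    obtain ⟨i, ⟨e, he, rfl⟩ | ⟨e, he, rfl⟩⟩ := hcases p
    · rw [hcore i e he]
      exact syl_ne_11191 β _ _ (by omega)
    · rw [hjun i e he]
      exact (hJ1 i).1 _ (List.getElem_mem _)
  · intro p
    obtain ⟨i, ⟨e, he, rfl⟩ | ⟨e, he, rfl⟩⟩ := hcases p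
    · rw [hcore i e he]
      by_cases h1 : e + 1 < CC
      · have e1 : a i + (e : ℤ) + 1 = a i + ((e + 1 : ℕ) : ℤ) := by push_cast; ring
        rw [e1, hcore i (e + 1) h1]
        exact syl_fst_ne β _ _ (by omega)
      · have he1 : e + 1 = CC := by omega
        have hlen : 0 < (J i).length := by
          rw [List.length_pos_iff]
          intro h0
          have := hJ4 i
          rw [h0] at this
          simp at this
        have e1 : a i + (e : ℤ) + 1 = a i + CC + ((0 : ℕ) : ℤ) := by
          rw [← he1]; push_cast; ring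
        rw [e1, hjun i 0 hlen]
        have h2 : (J i)[0] = syl β (blk i) (c0 + CC) := by
          have h3 := hJ4 i
          rw [List.head?_eq_getElem?, List.getElem?_eq_getElem hlen] at h3
          exact Option.some.inj h3
        rw [h2]
        have e2 : c0 + CC = (c0 + e) + 1 := by omega
        rw [e2]
        exact syl_fst_ne β _ _ (by omega)
    · rw [hjun i e he]
      by_cases h1 : e + 1 < (J i).length
      · have e1 : a i + (CC : ℤ) + (e : ℤ) + 1 = a i + CC + ((e + 1 : ℕ) : ℤ) := by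
          push_cast; ring
        rw [e1, hjun i (e + 1) h1]
        exact List.isChain_iff_getElem.1 (hJ1 i).2 e h1
      · have he1 : e + 1 = (J i).length := by omega
        have e1 : a i + (CC : ℤ) + (e : ℤ) + 1 = a (i + 1) + ((0 : ℕ) : ℤ) := by
          rw [ha, ← he1]; push_cast; ring
        rw [e1, hcore (i + 1) 0 (by omega)]
        have h2 : (J i)[e] = syl β (blk (i + 1)) (c0 - 1) := by
          have h3 := hJ5 i
          rw [List.getLast?_eq_getElem?, List.getElem?_eq_getElem (by omega)] at h3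
          have h4 := Option.some.inj h3
          rw [← h4]
          congr 1
          omega
        rw [h2]
        exact syl_fst_ne β _ _ (by omega)

/-- reversal -/
theorem BSeq.rev {β : Base} (S : BSeq β) :
    ∃ S' : BSeq β, (∀ i, S'.blk i = Blk.inv (S.blk (-i))) ∧
      (∀ i, S'.gap i = (S.gap (-i - 1))⁻¹) ∧
      (∀ p, S'.s p = ((S.s (-1 - p)).1, -(S.s (-1 - p)).2)) ∧ (∀ i, S'.a i = - S.a (-i) - CC) := by
  have hLb : Lb = 402 := rfl
  have hc0 : c0 = 40 := rfl
  have hCCn : CC = 322 := rfl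
  refine ⟨{
    a := fun i => - S.a (-i) - CC
    blk := fun i => Blk.inv (S.blk (-i))
    gap := fun i => (S.gap (-i - 1))⁻¹
    J := fun i => linv (S.J (-i - 1))
    s := fun p => ((S.s (-1 - p)).1, -(S.s (-1 - p)).2)
    ha := ?_
    hJ := ?_
    hJred := ?_
    hcore := ?_
    hjun := ?_
    hpr := ?_
    hne := ?_
    halt := ?_ }, fun _ => rfl, fun _ => rfl, fun _ => rfl, fun _ => rfl⟩
  · intro i
    have h := S.ha (-i - 1)
    rw [sub_add_cancel] at h
    have e : -(i + 1) = -i - 1 := by ring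
    simp only [linv_length_11191]
    rw [e, h]
    ring
  · intro i
    rw [linv_length_11191]
    exact S.hJ _
  · intro i
    exact red_linv (S.hJred _)
  · intro i e he
    have h := S.hcore (-i) (CC - 1 - e) (by omega)
    have e1 : -1 - (-S.a (-i) - (CC : ℤ) + (e : ℤ)) = S.a (-i) + ((CC - 1 - e : ℕ) : ℤ) := by
      rw [Nat.cast_sub (by omega), Nat.cast_sub (by omega)]
      push_cast
      ring
    simp only [e1]
    rw [h, syl_inv β _ _ (by omega)]
    have e2 : Lb - 1 - (c0 + e) = c0 + (CC - 1 - e) := by omega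
    rw [e2]
  · intro i e he
    have hlen := linv_length_11191 (S.J (-i - 1))
    have he' : e < (S.J (-i - 1)).length := by rw [← hlen]; exact he
    have hlt : (S.J (-i - 1)).length - 1 - e < (S.J (-i - 1)).length := by omega
    have h := S.hjun (-i - 1) ((S.J (-i - 1)).length - 1 - e) hlt
    have ha := S.ha (-i - 1)
    rw [sub_add_cancel] at ha
    have e1 : -1 - (-S.a (-i) - (CC : ℤ) + (CC : ℤ) + (e : ℤ)) =
        S.a (-i - 1) + CC + (((S.J (-i - 1)).length - 1 - e : ℕ) : ℤ) := by
      rw [Nat.cast_sub (by omega), Nat.cast_sub (by omega), ha]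
      push_cast
      ring
    rw [linv_getElem_11191 _ _ _ hlt, ← h]
    simp only [e1]
  · intro i
    have h := S.hpr (-i - 1)
    rw [sub_add_cancel] at h
    have e : -(i + 1) = -i - 1 := by ring
    simp only [e]
    rw [pr_linv, h, tl_inv_11191, hd_inv_11191, pr_linv, pr_linv]
    group
  · intro p
    exact neg_ne_zero.2 (S.hne _)
  · intro p
    have h := S.halt (-1 - (p + 1))
    have e : -1 - (p + 1) + 1 = -1 - p := by ring
    rw [e] at h
    exact fun h' => h h'.symm



theorem cCC : (CC : ℤ) = 322 := by simp [CC]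

theorem cjm : (jm : ℤ) = 92 := by simp [jm]

theorem BSeq.a_nat {β : Base} (S : BSeq β) (i : ℤ) (n : ℕ) :
    S.a i + CC * n ≤ S.a (i + n) := by
  induction n with
  | zero => simp
  | succ n ih =>
    have h := S.ha (i + n)
    have e : i + ((n + 1 : ℕ) : ℤ) = i + n + 1 := by push_cast; ring
    rw [e, h]
    push_cast
    have : (0 : ℤ) ≤ ((S.J (i + n)).length : ℤ) := Int.natCast_nonneg _
    linarith

theorem BSeq.a_nat_up {β : Base} (S : BSeq β) (i : ℤ) (n : ℕ) :
    S.a (i + n) ≤ S.a i + (CC + jm) * n := by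
  induction n with
  | zero => simp
  | succ n ih =>
    have h := S.ha (i + n)
    have e : i + ((n + 1 : ℕ) : ℤ) = i + n + 1 := by push_cast; ring
    rw [e, h]
    push_cast
    have : ((S.J (i + n)).length : ℤ) ≤ jm := by exact_mod_cast S.hJ (i + n)
    linarith

theorem BSeq.a_mono {β : Base} (S : BSeq β) {i j : ℤ} (h : i < j) :
    S.a i + CC * (j - i) ≤ S.a j := by
  obtain ⟨n, hn⟩ := Int.eq_ofNat_of_zero_le (by omega : 0 ≤ j - i)
  have h1 := S.a_nat i n
  have e : i + (n : ℤ) = j := by omega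
  rw [e] at h1
  rw [hn]
  exact h1

theorem BSeq.cover {β : Base} (S : BSeq β) (p : ℤ) : ∃ i, S.a i ≤ p ∧ p < S.a (i + 1) := by
  obtain ⟨i, h1, h2⟩ := Int.exists_greatest_of_bdd (P := fun i => S.a i ≤ p)
    (by
      refine ⟨max 0 (p - S.a 0), fun i hi => ?_⟩
      by_contra hcon
      push Not at hcon
      have h3 : 0 < i := lt_of_le_of_lt (le_max_left _ _) hcon
      have h4 : p - S.a 0 < i := lt_of_le_of_lt (le_max_right _ _) hcon
      have h5 := S.a_mono h3
      rw [cCC] at h5
      omega)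
    (by
      by_cases h0 : S.a 0 ≤ p
      · exact ⟨0, h0⟩
      · refine ⟨p - S.a 0, ?_⟩
        have h5 := S.a_mono (i := p - S.a 0) (j := 0) (by omega)
        rw [cCC] at h5
        omega)
  refine ⟨i, h1, ?_⟩
  by_contra hcon
  have := h2 (i + 1) (not_lt.1 hcon)
  omega

theorem BSeq.s_core {β : Base} (S : BSeq β) (i p : ℤ) (h1 : S.a i ≤ p) (h2 : p < S.a i + CC) :
    S.s p = syl β (S.blk i) (c0 + (p - S.a i).toNat) := by
  have h := S.hcore i (p - S.a i).toNat (by rw [cCC] at h2; unfold CC; omega)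
  have e : S.a i + (((p - S.a i).toNat : ℕ) : ℤ) = p := by omega
  rw [e] at h
  exact h

/-- equal block and gap sequences (up to a shift of the index) give equal syllable sequences -/
theorem BSeq.shift {β : Base} (S S' : BSeq β) (i0 : ℤ) (hb : ∀ i, S.blk i = S'.blk (i + i0))
    (hg : ∀ i, S.gap i = S'.gap (i + i0)) :
    (∀ i, S'.a (i + i0) = S.a i + (S'.a i0 - S.a 0)) ∧
      ∀ p, S'.s (p + (S'.a i0 - S.a 0)) = S.s p := by
  have hJ : ∀ i, S.J i = S'.J (i + i0) := by
    intro i
    refine red_unique (S.hJred i) (S'.hJred _) ?_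
    rw [S.hpr, S'.hpr, hb i, hg i, hb (i + 1)]
    rw [show i + 1 + i0 = i + i0 + 1 by ring]
  have hstep : ∀ i, S'.a (i + 1 + i0) - S.a (i + 1) = S'.a (i + i0) - S.a i := by
    intro i
    have h1 := S.ha i
    have h2 := S'.ha (i + i0)
    rw [show i + 1 + i0 = i + i0 + 1 by ring, h1, h2, hJ i]
    ring
  have ha : ∀ i, S'.a (i + i0) = S.a i + (S'.a i0 - S.a 0) := by
    intro i
    induction i using Int.induction_on with
    | zero => rw [zero_add]; ring
    | succ n ih =>
      have := hstep n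
      omega
    | pred n ih =>
      have := hstep (-(n : ℤ) - 1)
      rw [show -(n : ℤ) - 1 + 1 = -(n : ℤ) by ring] at this
      omega
  refine ⟨ha, fun p => ?_⟩
  obtain ⟨i, h1, h2⟩ := S.cover p
  have hai := ha i
  by_cases h3 : p < S.a i + CC
  · rw [S.s_core i p h1 h3, S'.s_core (i + i0) _ (by omega) (by omega), hb i]
    congr 3
    omega
  · rw [S.ha i] at h2
    have hlt : (p - S.a i - CC).toNat < (S.J i).length := by omega
    have h4 := S.hjun i (p - S.a i - CC).toNat hlt
    have h5 := S'.hjun (i + i0) (p - S.a i - CC).toNat (by rw [← hJ]; exact hlt)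
    have e1 : S.a i + CC + (((p - S.a i - CC).toNat : ℕ) : ℤ) = p := by omega
    have e2 : S'.a (i + i0) + CC + (((p - S.a i - CC).toNat : ℕ) : ℤ) =
      p + (S'.a i0 - S.a 0) := by omega
    rw [e1] at h4
    rw [e2] at h5
    rw [h4, h5]
    simp only [hJ i]

/-- one alignment step -/
theorem BSeq.align_step {β β' : Base} (S : BSeq β) (S' : BSeq β') (o i : ℤ)
    (h : ∀ p, S.a i ≤ p → p < S.a i + 110 → S.s p = S'.s (p + o)) :
    ∃ i', S'.a i' = S.a i + o ∧ S.blk i = S'.blk i' ∧ β = β' := by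
  obtain ⟨i', h1, h2⟩ := S'.cover (S.a i + o)
  have ha' := S'.ha i'
  have hJ' : ((S'.J i').length : ℤ) ≤ jm := by exact_mod_cast S'.hJ i'
  rw [cjm] at hJ'
  have hCC := cCC
  by_cases hr : S.a i + o - S'.a i' ≤ 318
  · obtain ⟨r, hr'⟩ := Int.eq_ofNat_of_zero_le (by omega : 0 ≤ S.a i + o - S'.a i')
    have hbr := br β β' (S.blk i) (S'.blk i') c0 (c0 + r) (by unfold c0; omega)
      (by unfold c0; omega) (by unfold c0; omega) (by unfold c0; omega) (by
        intro e he
        have g1 := S.hcore i e (by unfold CC; omega)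
        have g2 := S'.hcore i' (r + e) (by unfold CC; omega)
        rw [← g1, Nat.add_assoc, ← g2, h _ (by omega) (by omega)]
        congr 1
        push_cast
        omega)
    obtain ⟨b1, b2, b3⟩ := hbr
    refine ⟨i', ?_, b2, b1⟩
    omega
  · exfalso
    obtain ⟨q, hq'⟩ := Int.eq_ofNat_of_zero_le (by omega : 0 ≤ S'.a (i' + 1) - (S.a i + o))
    have hbr := br β β' (S.blk i) (S'.blk (i' + 1)) (c0 + q) c0 (by unfold c0; omega)
      (by unfold c0; omega) (by unfold c0; omega) (by unfold c0; omega) (by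
        intro e he
        have g1 := S.hcore i (q + e) (by unfold CC; omega)
        have g2 := S'.hcore (i' + 1) e (by unfold CC; omega)
        rw [Nat.add_assoc, ← g1, ← g2, h _ (by omega) (by push_cast; omega)]
        congr 1
        push_cast
        omega)
    obtain ⟨-, -, b3⟩ := hbr
    omega

/-- alignment: a long common window forces common blocks and gaps -/
theorem BSeq.align {β β' : Base} (S : BSeq β) (S' : BSeq β') (o p0 : ℤ) (R : ℕ) (hR : 1 ≤ R)
    (h : ∀ p, p0 ≤ p → p < p0 + (R + 2) * (CC + jm) → S.s p = S'.s (p + o)) :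
    β = β' ∧ ∃ i i' : ℤ, S'.a i' = S.a i + o ∧ ∀ e : ℕ, e < R →
      S.blk (i + e) = S'.blk (i' + e) ∧ (e + 1 < R → S.gap (i + e) = S'.gap (i' + e)) := by
  have hCC := cCC
  have hjm := cjm
  obtain ⟨i, h1, h2⟩ := S.cover p0
  have hai := S.ha i
  have hJi : ((S.J i).length : ℤ) ≤ jm := by exact_mod_cast S.hJ i
  have hup : ∀ e : ℕ, S.a (i + 1 + e) ≤ p0 + (e + 1) * 414 := by
    intro e
    have h3 := S.a_nat_up (i + 1) e
    rw [hCC, hjm] at h3
    have : (322 + 92 : ℤ) * e = 414 * e := by norm_num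
    rw [this] at h3
    linarith
  have hlow : ∀ e : ℕ, p0 ≤ S.a (i + 1 + e) := by
    intro e
    have h3 := S.a_nat (i + 1) e
    rw [hCC] at h3
    have : (0 : ℤ) ≤ e := Int.natCast_nonneg e
    linarith
  have hwin : ∀ p, p0 ≤ p → p < p0 + (R + 2) * 414 → S.s p = S'.s (p + o) := by
    intro p hp1 hp2
    refine h p hp1 ?_
    rw [hCC, hjm]
    norm_num
    exact hp2
  have hstep : ∀ e : ℕ, e < R → ∃ i', S'.a i' = S.a (i + 1 + e) + o ∧
      S.blk (i + 1 + e) = S'.blk i' ∧ β = β' := by
    intro e he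
    refine S.align_step S' o (i + 1 + e) fun p hp1 hp2 => hwin p ((hlow e).trans hp1) ?_
    have h3 := hup e
    have h4 : ((e : ℤ) + 1) ≤ R := by exact_mod_cast he
    linarith
  obtain ⟨i', hi'1, hi'2, hββ⟩ := hstep 0 (by omega)
  subst hββ
  have hal : ∀ e : ℕ, e < R → S'.a (i' + e) = S.a (i + 1 + e) + o ∧
      S.blk (i + 1 + e) = S'.blk (i' + e) := by
    intro e
    induction e with
    | zero =>
      intro _
      exact ⟨by simpa using hi'1, by simpa using hi'2⟩
    | succ e ih =>
      intro he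
      obtain ⟨g1, g2⟩ := ih (by omega)
      obtain ⟨k, hk1, hk2, -⟩ := hstep (e + 1) he
      have e1 : i + 1 + ((e + 1 : ℕ) : ℤ) = (i + 1 + e) + 1 := by push_cast; ring
      have e2 : i' + ((e + 1 : ℕ) : ℤ) = (i' + e) + 1 := by push_cast; ring
      rw [e1] at hk1 hk2 ⊢
      rw [e2]
      have g3 := S.ha (i + 1 + e)
      have g4 : ((S.J (i + 1 + e)).length : ℤ) ≤ jm := by exact_mod_cast S.hJ (i + 1 + e)
      have hk : k = i' + e + 1 := by
        by_contra hne
        rcases lt_or_gt_of_ne hne with hlt | hgt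
        · rcases (by omega : k = i' + e ∨ k < i' + e) with hke | hke
          · rw [hke] at hk1
            omega
          · have g5 := S'.a_mono hke
            rw [hCC] at g5
            have : 322 * (i' + e - k) ≥ 322 := by nlinarith
            omega
        · have g5 := S'.a_mono (i := i' + e) (j := k) (by omega)
          rw [hCC] at g5
          have : 322 * (k - (i' + e)) ≥ 644 := by nlinarith
          omega
      subst hk
      exact ⟨hk1, hk2⟩
  refine ⟨rfl, i + 1, i', hi'1.trans (by rw [Nat.cast_zero, add_zero]), fun e he => ⟨(hal e he).2, fun he1 => ?_⟩⟩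
  obtain ⟨g1, g2⟩ := hal e he
  obtain ⟨g1', g2'⟩ := hal (e + 1) he1
  have e1 : i + 1 + ((e + 1 : ℕ) : ℤ) = (i + 1 + e) + 1 := by push_cast; ring
  have e2 : i' + ((e + 1 : ℕ) : ℤ) = (i' + e) + 1 := by push_cast; ring
  rw [e1, e2] at g1' g2'
  have g3 := S.ha (i + 1 + e)
  have g3' := S'.ha (i' + e)
  have hlen : (S.J (i + 1 + e)).length = (S'.J (i' + e)).length := by omega
  have hJJ : S.J (i + 1 + e) = S'.J (i' + e) := by
    refine List.ext_getElem hlen fun t ht ht' => ?_
    rw [← S.hjun (i + 1 + e) t ht, ← S'.hjun (i' + e) t ht']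
    rw [hwin]
    · congr 1
      omega
    · have := hlow e
      omega
    · have g5 := hup (e + 1)
      rw [e1] at g5
      have h4 : (((e + 1 : ℕ) : ℤ) + 1) ≤ R := by exact_mod_cast he1
      have h5 : ((t : ℕ) : ℤ) < ((S.J (i + 1 + e)).length : ℤ) := by exact_mod_cast ht
      linarith
  have g6 := S.hpr (i + 1 + e)
  have g6' := S'.hpr (i' + e)
  rw [hJJ, g6', g2, g2'] at g6
  exact (mul_left_cancel (mul_right_cancel g6)).symm


end Pool.Agent.Helper844.FC
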