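import Mathlib
import Pool.Agent.Helper844.FC.Block
set_option autoImplicit false
namespace Pool.Agent.Helper844.FC


theorem exists_line (s : ℤ → Syl) :
    ∃ y : ℤ → W, y 0 = 1 ∧ ∀ p, y (p + 1) = y p * letter (s p).1 (s p).2 := by
  let P : ℕ → W := fun n => Nat.rec (1 : W) (fun n q => q * letter (s n).1 (s n).2) n
  let Q : ℕ → W := fun n => Nat.rec (1 : W)
    (fun n q => q * (letter (s (Int.negSucc n)).1 (s (Int.negSucc n)).2)⁻¹) n
  have hP : ∀ n : ℕ, P (n + 1) = P n * letter (s n).1 (s n).2 := fun n => rfl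
  have hQ : ∀ n : ℕ, Q (n + 1) =
    Q n * (letter (s (Int.negSucc n)).1 (s (Int.negSucc n)).2)⁻¹ := fun n => rfl
  refine ⟨fun p => match p with
    | Int.ofNat n => P n
    | Int.negSucc n => Q (n + 1), rfl, ?_⟩
  intro p
  match p with
  | Int.ofNat n =>
    exact hP n
  | Int.negSucc 0 =>
    have h1 : (Int.negSucc 0 + 1 : ℤ) = Int.ofNat 0 := rfl
    rw [h1]
    show P 0 = Q (0 + 1) * _
    rw [hQ]
    simp only [inv_mul_cancel_right]
    rfl
  | Int.negSucc (n + 1) =>
    have h1 : (Int.negSucc (n + 1) + 1 : ℤ) = Int.negSucc n := rfl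
    rw [h1]
    show Q (n + 1) = Q (n + 1 + 1) * _
    rw [hQ (n + 1)]
    simp only [inv_mul_cancel_right]

theorem j7_pr_single (a : Syl) : pr [a] = letter a.1 a.2 := by
  simp [pr]

theorem j7_lift (s : ℤ → Syl) (p : ℤ) (l : List ℕ) :
    (List.map (fun i : ℤ => s (p + i)) (do
      let a ← l
      pure (a : ℤ))) = l.map (fun i : ℕ => s (p + i)) := by
  induction l with
  | nil => rfl
  | cons a l ih =>
    rw [List.map_cons, ← ih]
    rfl

/-- product over a window -/
theorem line_window (s : ℤ → Syl) (y : ℤ → W) (hy : ∀ p, y (p + 1) = y p * letter (s p).1 (s p).2)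
    (p : ℤ) (n : ℕ) : (y p)⁻¹ * y (p + n) = pr ((List.range n).map (fun i => s (p + i))) := by
  rw [j7_lift]
  induction n with
  | zero => simp [pr]
  | succ n ih =>
    rw [List.range_succ, List.map_append, pr_append, ← ih]
    have h1 : p + ((n + 1 : ℕ) : ℤ) = p + n + 1 := by push_cast; ring
    rw [h1, hy, List.map_singleton, j7_pr_single, mul_assoc]

theorem j7_red_window (s : ℤ → Syl) (hne : ∀ p, (s p).2 ≠ 0)
    (halt : ∀ p, (s p).1 ≠ (s (p + 1)).1) (p : ℤ) (n : ℕ) :
    Red ((List.range n).map (fun i : ℕ => s (p + i))) := by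
  constructor
  · intro q hq
    rw [List.mem_map] at hq
    obtain ⟨i, _, rfl⟩ := hq
    exact hne _
  · rw [List.isChain_iff_getElem]
    intro i hi
    simp only [List.getElem_map, List.getElem_range]
    have := halt (p + i)
    push_cast
    rw [← add_assoc]
    exact this

/-- the line is geodesic -/
theorem line_geod (s : ℤ → Syl) (y : ℤ → W) (hy : ∀ p, y (p + 1) = y p * letter (s p).1 (s p).2)
    (hne : ∀ p, (s p).2 ≠ 0) (halt : ∀ p, (s p).1 ≠ (s (p + 1)).1) (a b : ℤ) :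
    WL.len ((y a)⁻¹ * y b) = (a - b).natAbs := by
  have key : ∀ (a : ℤ) (n : ℕ), WL.len ((y a)⁻¹ * y (a + n)) = n := by
    intro a n
    rw [WL_len, line_window s y hy, j7_lift, lst_pr (j7_red_window s hne halt a n)]
    simp
  rcases le_total a b with h | h
  · obtain ⟨n, rfl⟩ := Int.le.dest h
    rw [key]
    omega
  · obtain ⟨n, rfl⟩ := Int.le.dest h
    rw [← WL.len_inv]
    rw [show ((y (b + n))⁻¹ * y b)⁻¹ = (y b)⁻¹ * y (b + n) by group]
    rw [key]
    omega

/-- a periodic sequence gives a translation -/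
theorem line_period (s : ℤ → Syl) (y : ℤ → W) (hy : ∀ p, y (p + 1) = y p * letter (s p).1 (s p).2)
    (h0 : y 0 = 1) (ℓ : ℤ) (hs : ∀ p, s (p + ℓ) = s p) (p : ℤ) : y ℓ * y p = y (p + ℓ) := by
  induction p using Int.induction_on with
  | zero => rw [h0, mul_one, zero_add]
  | succ i ih =>
    rw [hy, ← mul_assoc, ih, show ((i : ℤ) + 1 + ℓ) = (i + ℓ) + 1 by ring, hy, hs]
  | pred i ih =>
    have h1 := hy (-(i : ℤ) - 1)
    have h2 := hy (-(i : ℤ) - 1 + ℓ)
    rw [show (-(i : ℤ) - 1 + 1) = -(i : ℤ) by ring] at h1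
    rw [show (-(i : ℤ) - 1 + ℓ + 1) = -(i : ℤ) + ℓ by ring, hs] at h2
    rw [h1, h2, ← mul_assoc] at ih
    exact mul_right_cancel ih

theorem j7_letter_inj {a b : Syl} (ha : a.2 ≠ 0) (hb : b.2 ≠ 0)
    (h : letter a.1 a.2 = letter b.1 b.2) : a = b := by
  have hr : ∀ c : Syl, c.2 ≠ 0 → Red [c] := by
    intro c hc
    refine ⟨?_, by simp⟩
    intro p hp
    rw [List.mem_singleton] at hp
    rw [hp]; exact hc
  have := red_unique (hr a ha) (hr b hb) (by rw [j7_pr_single, j7_pr_single, h])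
  simpa using this

/-- common windows of lines give common windows of sequences (same direction) -/
theorem window_same (s s' : ℤ → Syl) (y y' : ℤ → W)
    (hy : ∀ p, y (p + 1) = y p * letter (s p).1 (s p).2)
    (hy' : ∀ p, y' (p + 1) = y' p * letter (s' p).1 (s' p).2)
    (hne : ∀ p, (s p).2 ≠ 0) (hne' : ∀ p, (s' p).2 ≠ 0) (g : W) (k k' : ℤ) (n : ℕ)
    (h : ∀ e : ℕ, e ≤ n → y (k + e) = g * y' (k' + e)) (e : ℕ) (he : e < n) :
    s (k + e) = s' (k' + e) := by
  have h1 := h e he.le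
  have h2 := h (e + 1) he
  have e1 : k + ((e + 1 : ℕ) : ℤ) = (k + e) + 1 := by push_cast; ring
  have e2 : k' + ((e + 1 : ℕ) : ℤ) = (k' + e) + 1 := by push_cast; ring
  rw [e1, e2, hy, hy', h1, ← mul_assoc g] at h2
  exact j7_letter_inj (hne _) (hne' _) (mul_left_cancel h2)

/-- common windows of lines give common windows of sequences (opposite direction) -/
theorem window_opp (s s' : ℤ → Syl) (y y' : ℤ → W)
    (hy : ∀ p, y (p + 1) = y p * letter (s p).1 (s p).2)
    (hy' : ∀ p, y' (p + 1) = y' p * letter (s' p).1 (s' p).2)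
    (hne : ∀ p, (s p).2 ≠ 0) (hne' : ∀ p, (s' p).2 ≠ 0) (g : W) (k k' : ℤ) (n : ℕ)
    (h : ∀ e : ℕ, e ≤ n → y (k + e) = g * y' (k' - e)) (e : ℕ) (he : e < n) :
    s (k + e) = ((s' (k' - e - 1)).1, -(s' (k' - e - 1)).2) := by
  have h1 := h e he.le
  have h2 := h (e + 1) he
  have e1 : k + ((e + 1 : ℕ) : ℤ) = (k + e) + 1 := by push_cast; ring
  have e2 : k' - ((e + 1 : ℕ) : ℤ) = (k' - e - 1) := by push_cast; ring
  have e3 : k' - (e : ℤ) = (k' - e - 1) + 1 := by ring
  rw [e1, e2, hy, h1, e3, hy'] at h2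
  rw [show k' - (e : ℤ) - 1 + 1 - 1 = k' - e - 1 by ring] at h2
  refine j7_letter_inj (hne _) ?_ ?_
  · simpa using hne' (k' - e - 1)
  · show _ = letter (s' (k' - e - 1)).1 (-(s' (k' - e - 1)).2)
    rw [← letter_inv]
    have h3 : g * y' (k' - e - 1) *
        (letter (s' (k' - e - 1)).1 (s' (k' - e - 1)).2 * letter (s (k + e)).1 (s (k + e)).2) =
        g * y' (k' - e - 1) * 1 := by
      rw [mul_one]
      rw [← mul_assoc g] at h2
      rw [← mul_assoc (g * y' (k' - e - 1))]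
      exact h2
    have h4 := mul_left_cancel h3
    exact eq_inv_of_mul_eq_one_right h4


end Pool.Agent.Helper844.FC
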