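import Mathlib
import Pool.Agent.Helper844.FC.Free
set_option autoImplicit false
namespace Pool.Agent.Helper844.FC


/-! ### patterns -/

/-- cyclic pattern: blocks followed by gaps -/
abbrev Pat := List (Blk × W)

def pv (β : Base) (P : Pat) : W := (P.map (fun q => Dv q.1 β.x β.y * q.2)).prod

/-- bi-infinite periodic sequence of a pattern -/
def cyc (P : Pat) (a : ℤ) : Blk × W := (P[(a % (P.length : ℤ)).toNat]?).getD ((0, true), 1)

/-- reversed sequence -/
def rcyc (P : Pat) (a : ℤ) : Blk × W := (Blk.inv (cyc P (-a)).1, (cyc P (-a - 1)).2⁻¹)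


/-! ### the relators -/

/-- `ρ(c)` in any group -/
def rho {G : Type*} [Group G] (c : List G) (x y : G) : G :=
  D 0 x y * (c.map (fun u => u * D 1 x y * u⁻¹)).prod

def brk {G : Type*} [Group G] (δ B : G) : G := δ * B * δ⁻¹ * B⁻¹

/-- main exponent -/
def n0 : ℕ := 1001

/-- exponent of the final words: 1001 for `B = 2`, 1000 otherwise -/
def mF (B : ℕ) : ℕ := if B = 2 then 1001 else 1000

/-- number of blocks in `h` -/
def r0 : ℕ := 1000

def hval {G : Type*} [Group G] (x y : G) : G :=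
  x * y * ((List.range r0).map (fun j => D (4 + j) x y)).prod

def tailP : List W → Pat
  | [] => []
  | [c] => [((1, true), c⁻¹)]
  | c :: d :: r => ((1, true), c⁻¹ * d) :: tailP (d :: r)

def rhoP (c : List W) : Pat := ((0, true), c.headD 1) :: tailP c

def addLast : Pat → W → Pat
  | [], _ => []
  | [q], g => [(q.1, q.2 * g)]
  | q :: q' :: r, g => q :: addLast (q' :: r) g

/-- formal inverse of `u * pv P` -/
def revP : W → Pat → W × Pat
  | u, [] => (u⁻¹, [])
  | u, q :: P => ((revP q.2 P).1, (revP q.2 P).2 ++ [(Blk.inv q.1, u⁻¹)])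

/-- the powers `ρ(c)^n0` as a pattern -/
def powP (c : List W) : Pat := (List.replicate n0 (rhoP c)).flatten

/-- pattern of `(ρ(c) [δ, D_2])` with `δ = z⁻¹ * pv PP` -/
def patRule (c : List W) (z : W) (PP : Pat) : Pat :=
  ((2, true), (revP z⁻¹ PP).1) :: ((revP z⁻¹ PP).2 ++ ((2, false), 1) :: (addLast (rhoP c) z⁻¹ ++ PP))

/-- pattern of `(g [δ, D_B])` with `δ = z⁻¹ * pv PP` and a short `g` -/
def patF (B : ℕ) (g z : W) (PP : Pat) : Pat :=
  ((B, true), (revP z⁻¹ PP).1) :: ((revP z⁻¹ PP).2 ++ ((B, false), g * z⁻¹) :: PP)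

def patH (g : W) : Pat :=
  (List.range r0).map (fun j => ((4 + j, true), if j = r0 - 1 then g else 1))

/-- indices of relators (for a fixed base) -/
inductive RI where
  | T (c : List W)
  | R (c : List W) (z : W) (c' : List W)
  | R' (c : List W) (z : W)
  | F (B : ℕ) (z : W) (c' : List W)
  | F' (B : ℕ) (z : W)
  | H

def patOf (β : Base) : RI → Pat
  | .T c => rhoP c
  | .R c z c' => patRule c z (powP c')
  | .R' c z => patRule c z []
  | .F B z c' => patF B (β.x * β.y) z (powP c')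
  | .F' B z => patF B (β.x * β.y) z []
  | .H => patH (β.x * β.y)

def mOf : RI → ℕ
  | .T _ => n0
  | .R _ _ _ => n0
  | .R' _ _ => n0
  | .F B _ _ => mF B
  | .F' B _ => mF B
  | .H => 1

def ROf (β : Base) : RI → ℕ
  | .H => 3
  | r => 3 * (patOf β r).length

def relOf (β : Base) : RI → W
  | .T c => rho c β.x β.y ^ n0
  | .R c z c' => (rho c β.x β.y * brk (z⁻¹ * rho c' β.x β.y ^ n0) (D 2 β.x β.y)) ^ n0
  | .R' c z => (rho c β.x β.y * brk z⁻¹ (D 2 β.x β.y)) ^ n0
  | .F B z c' => (β.x * β.y * brk (z⁻¹ * rho c' β.x β.y ^ n0) (D B β.x β.y)) ^ mF B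
  | .F' B z => (β.x * β.y * brk z⁻¹ (D B β.x β.y)) ^ mF B
  | .H => hval β.x β.y

/-- admissible tuples: `κ` components of syllable length at most 5 -/
def Adm (κ : ℕ) (c : List W) : Prop := c.length = κ ∧ ∀ u ∈ c, WL.len u ≤ 5

/-- valid relators, for a set `Tr β` of true tuples -/
def Valid (κ : ℕ) (Tr : Base → List W → Prop) (β : Base) : RI → Prop
  | .T c => Adm κ c ∧ Tr β c
  | .R c z c' => Adm κ c ∧ Adm κ c' ∧ z ∈ Fac ∧ ¬ Tr β c'
  | .R' c z => Adm κ c ∧ z ∈ Fac ∧ z ≠ 1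
  | .F B z c' => (B = 2 ∨ B = 3) ∧ Adm κ c' ∧ z ∈ Fac ∧ ¬ Tr β c'
  | .F' B z => (B = 2 ∨ B = 3) ∧ z ∈ Fac ∧ z ≠ 1
  | .H => True

end Pool.Agent.Helper844.FC
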