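import Mathlib
import Pool.Agent.Helper844.FC.Defs
import Pool.Agent.Helper844.SCV.SCMain

set_option autoImplicit false
namespace Pool.Agent.Helper844.FC

/-- small cancellation for lines in a group with an integer valued Lyndon length (helper430) -/
theorem sc_main {G : Type*} [Group G] (Λ : LenGroup G) {ι : Type*}
    (y : ι → ℤ → G) (t : ι → G) (τ : ι → ℕ)
    (hline : ∀ i a b, Λ.len ((y i a)⁻¹ * y i b) = (a - b).natAbs)
    (htr : ∀ i k, t i * y i k = y i (k + τ i))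
    (hτ : ∀ i, 1000 ≤ τ i)
    (hsc : ∀ i j (g : G) (k k' : ℤ) (ε : ℤ), (ε = 1 ∨ ε = -1) →
       (∀ e : ℕ, e ≤ τ i / 50 → y i (k + e) = g * y j (k' + ε * e)) →
       (Set.range (y i) = (fun w => g * w) '' Set.range (y j)) ∧ τ i = τ j) :
    ∀ n ∈ Subgroup.normalClosure (Set.range t), n ≠ 1 → 3 ≤ Λ.len n :=
  Pool.Agent.Helper844.SCV.SC.sc_main
    (⟨Λ.len, Λ.len_one, Λ.eq_one, Λ.len_inv, Λ.fp, Λ.step⟩ :
      Pool.Agent.Helper844.SCV.SC.LenGroup G) y t τ hline htr hτ hsc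

end Pool.Agent.Helper844.FC
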