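import Mathlib
import Pool.Agent.Helper844.FC.BSeq
import Pool.Agent.Helper844.FC.Line
import Pool.Agent.Helper844.FC.SC
import Pool.Agent.Helper844.FC.Pat
set_option autoImplicit false
namespace Pool.Agent.Helper844.FC


theorem cyc_add_length (P : Pat) (hP : P ≠ []) (a : ℤ) : cyc P (a + P.length) = cyc P a := by
  unfold cyc
  simp


theorem cyc_mem833 (P : Pat) (hP : P ≠ []) (a : ℤ) : cyc P a ∈ P := by
  have hpos : 0 < P.length := List.length_pos_iff.2 hP
  have hpos' : (0 : ℤ) < (P.length : ℤ) := by exact_mod_cast hpos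
  have h1 := Int.emod_nonneg a hpos'.ne'
  have h2 := Int.emod_lt_of_pos a hpos'
  have h3 : (a % (P.length : ℤ)).toNat < P.length := by omega
  unfold cyc
  rw [List.getElem?_eq_getElem h3]
  exact List.getElem_mem h3

theorem cyc_nat833 (P : Pat) (i : ℕ) (hi : i < P.length) : cyc P (i : ℤ) = P[i] := by
  unfold cyc
  have : ((i : ℤ) % (P.length : ℤ)).toNat = i := by
    rw [Int.emod_eq_of_lt (by omega) (by omega)]
    simp
  rw [this, List.getElem?_eq_getElem hi]
  rfl

theorem lw833 (s : ℤ → Syl) (y : ℤ → W) (hy : ∀ p, y (p + 1) = y p * letter (s p).1 (s p).2)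
    (p : ℤ) (n : ℕ) : (y p)⁻¹ * y (p + n) = pr ((List.range n).map (fun i : ℕ => s (p + i))) := by
  have h := line_window s y hy p n
  have e : (do let a ← List.range n; pure (a : ℤ)) = (List.range n).map (fun a : ℕ => (a : ℤ)) := by
    rw [List.map_eq_flatMap]; rfl
  rw [e, List.map_map] at h
  exact h

theorem window833 {β : Base} (S : BSeq β) (y : ℤ → W)
    (hy : ∀ p, y (p + 1) = y p * letter (S.s p).1 (S.s p).2) (i : ℤ) :
    y (S.a (i + 1)) = y (S.a i) * (pr (hd β (S.blk i)))⁻¹ * (Dv (S.blk i) β.x β.y * S.gap i) *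
      pr (hd β (S.blk (i + 1))) := by
  have h1 := lw833 S.s y hy (S.a i) (CC + (S.J i).length)
  have e1 : (List.range (CC + (S.J i).length)).map (fun e : ℕ => S.s (S.a i + e)) =
      core β (S.blk i) ++ S.J i := by
    rw [List.range_add, List.map_append, List.map_map]
    congr 1
    · unfold core
      apply List.map_congr_left
      intro e he
      exact S.hcore i e (List.mem_range.1 he)
    · apply List.ext_getElem
      · simp
      · intro e h1 h2
        simp only [List.getElem_map, List.getElem_range, Function.comp]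
        rw [← S.hjun i e h2]
        push_cast
        rw [add_assoc]
  rw [e1, pr_append] at h1
  have e2 : S.a i + ((CC + (S.J i).length : ℕ) : ℤ) = S.a (i + 1) := by
    rw [S.ha i]; push_cast; ring
  rw [e2, S.hpr i] at h1
  have h2 := Dv_eq β (S.blk i)
  rw [blist_split, pr_append, pr_append] at h2
  have h3 : y (S.a (i + 1)) = y (S.a i) * ((y (S.a i))⁻¹ * y (S.a (i + 1))) := by group
  rw [h3, h1, h2]
  group

theorem prod833 {β : Base} (S : BSeq β) (y : ℤ → W)
    (hy0 : y (S.a 0) = 1)
    (hy : ∀ p, y (p + 1) = y p * letter (S.s p).1 (S.s p).2) (n : ℕ) :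
    y (S.a n) = (pr (hd β (S.blk 0)))⁻¹ *
      ((List.range n).map (fun i : ℕ => Dv (S.blk i) β.x β.y * S.gap i)).prod *
      pr (hd β (S.blk n)) := by
  induction n with
  | zero =>
    simp only [Nat.cast_zero, List.range_zero, List.map_nil, List.prod_nil, mul_one]
    rw [hy0]; group
  | succ n ih =>
    have h := window833 S y hy n
    rw [Nat.cast_succ, h, ih, List.range_succ, List.map_append, List.prod_append]
    simp only [List.map_cons, List.map_nil, List.prod_cons, List.prod_nil, mul_one]
    group

/-- the line of a pattern: translation element is conjugate to the value of the pattern -/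
theorem pattern_value (β : Base) (P : Pat) (hP : P ≠ []) (S : BSeq β)
    (hb : ∀ a, S.blk a = (cyc P a).1) (hg : ∀ a, S.gap a = (cyc P a).2) (h0 : S.a 0 = 0)
    (y : ℤ → W) (hy0 : y 0 = 1) (hy : ∀ p, y (p + 1) = y p * letter (S.s p).1 (S.s p).2) :
    y (S.a P.length) = (pr (hd β (S.blk 0)))⁻¹ * pv β P * pr (hd β (S.blk 0)) := by
  have h := prod833 S y (by rw [h0, hy0]) hy P.length
  have e1 : S.blk (P.length : ℤ) = S.blk 0 := by
    rw [hb, hb, ← cyc_add_length P hP 0, zero_add]
  have e2 : (List.range P.length).map (fun i : ℕ => Dv (S.blk i) β.x β.y * S.gap i) =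
      P.map (fun q => Dv q.1 β.x β.y * q.2) := by
    apply List.ext_getElem
    · simp
    · intro e h1 h2
      simp only [List.getElem_map, List.getElem_range]
      have h3 : e < P.length := by simpa using h2
      rw [hb, hg, cyc_nat833 P e h3]
  rw [e1, e2] at h
  exact h


theorem shift833 {β β' : Base} (hβ : β = β') (S : BSeq β) (S' : BSeq β') (i0 : ℤ)
    (hb : ∀ i, S.blk i = S'.blk (i + i0))
    (hg : ∀ i, S.gap i = S'.gap (i + i0)) :
    (∀ i, S'.a (i + i0) = S.a i + (S'.a i0 - S.a 0)) ∧
      ∀ p, S'.s (p + (S'.a i0 - S.a 0)) = S.s p := by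
  subst hβ
  exact BSeq.shift S S' i0 hb hg

theorem follow833 (u v : ℤ → W) (f : ℤ → W) (g : W) (hu : ∀ p, u (p + 1) = u p * f p)
    (hv : ∀ p, v (p + 1) = v p * f p) (h0 : u 0 = g * v 0) (p : ℤ) : u p = g * v p := by
  induction p using Int.induction_on with
  | zero => exact h0
  | succ n ih => rw [hu, hv, ih, mul_assoc]
  | pred n ih =>
    have h1 := hu (-(n : ℤ) - 1)
    have h2 := hv (-(n : ℤ) - 1)
    rw [sub_add_cancel] at h1 h2
    rw [ih, h2, ← mul_assoc] at h1
    exact (mul_right_cancel h1).symm

theorem pow_line833 (y : ℤ → W) (g : W) (l : ℤ) (h : ∀ p, g * y p = y (p + l)) (m : ℕ) (p : ℤ) :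
    g ^ m * y p = y (p + m * l) := by
  induction m generalizing p with
  | zero => simp
  | succ m ih =>
    rw [pow_succ, mul_assoc, h, ih]
    congr 1
    push_cast; ring

theorem pat_sc {ι : Type*} (β : ι → Base) (P : ι → Pat) (m R : ι → ℕ)
    (hP : ∀ i, P i ≠ []) (hgap : ∀ i, ∀ q ∈ P i, WL.len q.2 ≤ KK)
    (hnb : ∀ i (a : ℤ), ¬ ((cyc (P i) (a + 1)).1 = Blk.inv (cyc (P i) a).1 ∧ (cyc (P i) a).2 = 1))
    (hR : ∀ i, 1 ≤ R i) (hm : ∀ i, 50 * ((R i + 4) * (CC + jm)) ≤ m i * ((P i).length * CC))
    (hPL1 : ∀ i j, β i = β j → ∀ a b : ℤ,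
      (∀ e : ℕ, e < R i → (cyc (P i) (a + e)).1 = (cyc (P j) (b + e)).1 ∧
        (e + 1 < R i → (cyc (P i) (a + e)).2 = (cyc (P j) (b + e)).2)) →
      (∀ e : ℤ, cyc (P i) (a + e) = cyc (P j) (b + e)) ∧ (P i).length = (P j).length ∧ m i = m j)
    (hPL2 : ∀ i j, β i = β j → ∀ a b : ℤ,
      (∀ e : ℕ, e < R i → (cyc (P i) (a + e)).1 = (rcyc (P j) (b + e)).1 ∧
        (e + 1 < R i → (cyc (P i) (a + e)).2 = (rcyc (P j) (b + e)).2)) →
      (∀ e : ℤ, cyc (P i) (a + e) = rcyc (P j) (b + e)) ∧ (P i).length = (P j).length ∧ m i = m j) :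
    ∀ n ∈ Subgroup.normalClosure {g | ∃ i, g = pv (β i) (P i) ^ m i}, n ≠ 1 → 3 ≤ WL.len n := by
  classical
  have ex : ∀ i, ∃ S : BSeq (β i), S.blk = (fun a => (cyc (P i) a).1) ∧
      S.gap = (fun a => (cyc (P i) a).2) ∧ S.a 0 = 0 := fun i =>
    exists_bseq (β i) _ _ (fun a => hgap i _ (cyc_mem833 (P i) (hP i) a)) (hnb i)
  choose S hSb' hSg' hSa using ex
  have hSb : ∀ i a, (S i).blk a = (cyc (P i) a).1 := fun i a => by rw [hSb' i]
  have hSg : ∀ i a, (S i).gap a = (cyc (P i) a).2 := fun i a => by rw [hSg' i]
  have ey : ∀ i, ∃ y : ℤ → W, y 0 = 1 ∧ ∀ p, y (p + 1) = y p * letter ((S i).s p).1 ((S i).s p).2 :=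
    fun i => exists_line (S i).s
  choose y hy0 hy using ey
  -- the period
  have hlen : ∀ i, 0 < (P i).length := fun i => List.length_pos_iff.2 (hP i)
  have hper : ∀ i, (∀ k, (S i).a (k + (P i).length) = (S i).a k + (S i).a (P i).length) ∧
      ∀ p, (S i).s (p + (S i).a (P i).length) = (S i).s p := by
    intro i
    have h := BSeq.shift (S i) (S i) (P i).length
      (fun k => by rw [hSb, hSb, cyc_add_length (P i) (hP i)])
      (fun k => by rw [hSg, hSg, cyc_add_length (P i) (hP i)])
    rw [hSa i, sub_zero] at h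
    exact h
  have hl : ∀ i, (CC : ℤ) * (P i).length ≤ (S i).a (P i).length := by
    intro i
    have h := BSeq.a_mono (S i) (i := 0) (j := (P i).length) (by exact_mod_cast hlen i)
    rw [hSa i] at h
    simpa using h
  obtain ⟨l, hldef⟩ : ∃ l : ι → ℕ, ∀ i, (l i : ℤ) = (S i).a (P i).length := by
    refine ⟨fun i => ((S i).a (P i).length).toNat, fun i => ?_⟩
    apply Int.toNat_of_nonneg
    refine le_trans ?_ (hl i)
    positivity
  have hl' : ∀ i, CC * (P i).length ≤ l i := by
    intro i
    have := hl i
    rw [← hldef i] at this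
    exact_mod_cast this
  have hline : ∀ i a b, WL.len ((y i a)⁻¹ * y i b) = (a - b).natAbs := fun i a b =>
    line_geod (S i).s (y i) (hy i) (S i).hne (S i).halt a b
  have htr0 : ∀ i p, y i (l i) * y i p = y i (p + l i) := by
    intro i p
    apply line_period (S i).s (y i) (hy i) (hy0 i)
    intro q
    rw [hldef]
    exact (hper i).2 q
  have htr : ∀ i k, (y i (l i)) ^ (m i) * y i k = y i (k + ((m i * l i : ℕ) : ℤ)) := by
    intro i k
    rw [pow_line833 (y i) (y i (l i)) (l i) (htr0 i)]
    push_cast
    rfl
  have hbig : ∀ i, 50 * ((R i + 4) * (CC + jm)) ≤ m i * l i := by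
    intro i
    refine (hm i).trans (Nat.mul_le_mul_left _ ?_)
    rw [mul_comm]
    exact hl' i
  have hτ : ∀ i, 1000 ≤ m i * l i := by
    intro i
    refine le_trans ?_ (hbig i)
    have h1 : CC + jm = 414 := rfl
    rw [h1]
    omega
  have hτ50 : ∀ i, (R i + 2) * (CC + jm) ≤ m i * l i / 50 := by
    intro i
    rw [Nat.le_div_iff_mul_le (by norm_num)]
    refine le_trans ?_ (hbig i)
    have h1 : CC + jm = 414 := rfl
    rw [h1]
    omega
  have hsc : ∀ i j (g : W) (k k' : ℤ) (ε : ℤ), (ε = 1 ∨ ε = -1) →
       (∀ e : ℕ, e ≤ (m i * l i) / 50 → y i (k + e) = g * y j (k' + ε * e)) →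
       (Set.range (y i) = (fun w => g * w) '' Set.range (y j)) ∧ m i * l i = m j * l j := by
    intro i j g k k' ε hε h
    rcases hε with rfl | rfl
    · -- same orientation
      have hw : ∀ e : ℕ, e < m i * l i / 50 → (S i).s (k + e) = (S j).s (k' + e) := by
        intro e he
        exact window_same (S i).s (S j).s (y i) (y j) (hy i) (hy j) (S i).hne (S j).hne g k k'
          (m i * l i / 50) (fun e he => by rw [h e he, one_mul]) e he
      obtain ⟨hβ, a, b, hab, hR1⟩ := BSeq.align (S i) (S j) (k' - k) k (R i) (hR i) (by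
        intro p hp1 hp2
        have e1 : ((p - k).toNat : ℤ) = p - k := Int.toNat_of_nonneg (by omega)
        have h2 : (p - k).toNat < m i * l i / 50 := by
          refine lt_of_lt_of_le ?_ (hτ50 i)
          zify
          rw [e1]
          linarith
        have h3 := hw _ h2
        rw [e1] at h3
        have e2 : k + (p - k) = p := by ring
        have e3 : k' + (p - k) = p + (k' - k) := by ring
        rw [e2, e3] at h3
        exact h3)
      obtain ⟨hcyc, hlen', hmm⟩ := hPL1 i j hβ a b (by
        intro e he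
        have h1 := hR1 e he
        rw [hSb, hSb, hSg, hSg] at h1
        exact h1)
      have hcyc' : ∀ p, cyc (P i) p = cyc (P j) (p + (b - a)) := by
        intro p
        have h1 := hcyc (p - a)
        rw [show a + (p - a) = p by ring, show b + (p - a) = p + (b - a) by ring] at h1
        exact h1
      obtain ⟨hs1, hs2⟩ := shift833 hβ (S i) (S j) (b - a)
        (fun p => by rw [hSb, hSb, hcyc' p]) (fun p => by rw [hSg, hSg, hcyc' p])
      have ho : (S j).a (b - a) - (S i).a 0 = k' - k := by
        have h1 := hs1 a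
        rw [show a + (b - a) = b by ring, hab] at h1
        linarith
      rw [ho] at hs1 hs2
      have hfol : ∀ p, y i (k + p) = g * y j (k' + p) := by
        apply follow833 (fun p => y i (k + p)) (fun p => y j (k' + p))
          (fun p => letter ((S i).s (k + p)).1 ((S i).s (k + p)).2)
        · intro p
          show y i (k + (p + 1)) = _
          rw [← add_assoc, hy i]
        · intro p
          show y j (k' + (p + 1)) = _
          rw [← add_assoc, hy j]
          have h1 := hs2 (k + p)
          rw [show k + p + (k' - k) = k' + p by ring] at h1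
          rw [h1]
        · have h1 := h 0 (Nat.zero_le _)
          simpa using h1
      refine ⟨?_, ?_⟩
      · ext w
        constructor
        · rintro ⟨q, rfl⟩
          refine ⟨y j (k' + (q - k)), ⟨_, rfl⟩, ?_⟩
          show g * y j (k' + (q - k)) = y i q
          rw [← hfol (q - k)]
          congr 1
          ring
        · rintro ⟨_, ⟨q, rfl⟩, rfl⟩
          refine ⟨k + (q - k'), ?_⟩
          show y i (k + (q - k')) = g * y j q
          rw [hfol (q - k')]
          congr 2
          ring
      · have h1 := hs1 0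
        have h2 := hs1 (P i).length
        have h3 := (hper j).1 (b - a)
        rw [zero_add, hSa i] at h1
        rw [hlen', add_comm ((P j).length : ℤ) (b - a), h3, h1, ← hldef j, ← hlen', ← hldef i] at h2
        have h4 : (l i : ℤ) = l j := by linarith
        have h5 : l i = l j := by exact_mod_cast h4
        rw [h5, hmm]
    · -- opposite orientation
      obtain ⟨S', hrb, hrg, hrs, hra⟩ := BSeq.rev (S j)
      have hw : ∀ e : ℕ, e < m i * l i / 50 → (S i).s (k + e) = S'.s (e - k') := by
        intro e he
        have h1 := window_opp (S i).s (S j).s (y i) (y j) (hy i) (hy j) (S i).hne (S j).hne g k k'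
          (m i * l i / 50) (fun e he => by
            rw [h e he]
            congr 2
            ring) e he
        rw [h1, hrs]
        rw [show -1 - ((e : ℤ) - k') = k' - e - 1 by ring]
      obtain ⟨hβ, a, b, hab, hR1⟩ := BSeq.align (S i) S' (-k' - k) k (R i) (hR i) (by
        intro p hp1 hp2
        have e1 : ((p - k).toNat : ℤ) = p - k := Int.toNat_of_nonneg (by omega)
        have h2 : (p - k).toNat < m i * l i / 50 := by
          refine lt_of_lt_of_le ?_ (hτ50 i)
          zify
          rw [e1]
          linarith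
        have h3 := hw _ h2
        rw [e1] at h3
        have e2 : k + (p - k) = p := by ring
        have e3 : (p - k) - k' = p + (-k' - k) := by ring
        rw [e2, e3] at h3
        exact h3)
      have hSb2 : ∀ p, S'.blk p = (rcyc (P j) p).1 := by
        intro p
        rw [hrb, hSb]
        rfl
      have hSg2 : ∀ p, S'.gap p = (rcyc (P j) p).2 := by
        intro p
        rw [hrg, hSg]
        rfl
      obtain ⟨hcyc, hlen', hmm⟩ := hPL2 i j hβ a b (by
        intro e he
        have h1 := hR1 e he
        rw [hSb, hSb2, hSg, hSg2] at h1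
        exact h1)
      have hcyc' : ∀ p, cyc (P i) p = rcyc (P j) (p + (b - a)) := by
        intro p
        have h1 := hcyc (p - a)
        rw [show a + (p - a) = p by ring, show b + (p - a) = p + (b - a) by ring] at h1
        exact h1
      obtain ⟨hs1, hs2⟩ := shift833 hβ (S i) S' (b - a)
        (fun p => by rw [hSb, hSb2, hcyc' p]) (fun p => by rw [hSg, hSg2, hcyc' p])
      have ho : S'.a (b - a) - (S i).a 0 = -k' - k := by
        have h1 := hs1 a
        rw [show a + (b - a) = b by ring, hab] at h1
        linarith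
      rw [ho] at hs1 hs2
      have hfol : ∀ p, y i (k + p) = g * y j (k' - p) := by
        apply follow833 (fun p => y i (k + p)) (fun p => y j (k' - p))
          (fun p => letter ((S i).s (k + p)).1 ((S i).s (k + p)).2)
        · intro p
          show y i (k + (p + 1)) = _
          rw [← add_assoc, hy i]
        · intro p
          show y j (k' - (p + 1)) = y j (k' - p) * _
          have h1 := hs2 (k + p)
          rw [show k + p + (-k' - k) = p - k' by ring, hrs,
            show -1 - (p - k') = k' - (p + 1) by ring] at h1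
          rw [← h1]
          have h2 := hy j (k' - (p + 1))
          rw [show k' - (p + 1) + 1 = k' - p by ring] at h2
          rw [h2, ← letter_inv]
          group
        · have h1 := h 0 (Nat.zero_le _)
          simpa using h1
      refine ⟨?_, ?_⟩
      · ext w
        constructor
        · rintro ⟨q, rfl⟩
          refine ⟨y j (k' - (q - k)), ⟨_, rfl⟩, ?_⟩
          show g * y j (k' - (q - k)) = y i q
          rw [← hfol (q - k)]
          congr 1
          ring
        · rintro ⟨_, ⟨q, rfl⟩, rfl⟩
          refine ⟨k + (k' - q), ?_⟩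
          show y i (k + (k' - q)) = g * y j q
          rw [hfol (k' - q)]
          congr 2
          ring
      · have h1 := hs1 0
        have h2 := hs1 (P i).length
        rw [zero_add, hSa i, hra] at h1
        rw [hra] at h2
        have h3 := (hper j).1 (-(((P i).length : ℤ) + (b - a)))
        rw [← hlen', show -(((P i).length : ℤ) + (b - a)) + (P i).length = -(b - a) by ring] at h3
        rw [hlen'] at h3
        rw [← hldef j] at h3
        rw [← hldef i] at h2
        rw [hlen'] at h2
        have h4 : (l i : ℤ) = l j := by linarith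
        have h5 : l i = l j := by exact_mod_cast h4
        rw [h5, hmm]
  have hmain := sc_main WL y (fun i => (y i (l i)) ^ (m i)) (fun i => m i * l i) hline htr hτ hsc
  have hle : Subgroup.normalClosure {g | ∃ i, g = pv (β i) (P i) ^ m i} ≤
      Subgroup.normalClosure (Set.range (fun i => (y i (l i)) ^ (m i))) := by
    apply Subgroup.normalClosure_le_normal
    rintro _ ⟨i, rfl⟩
    have h1 := pattern_value (β i) (P i) (hP i) (S i) (hSb i) (hSg i) (hSa i) (y i) (hy0 i) (hy i)
    rw [← hldef i] at h1
    have h2 : pv (β i) (P i) = pr (hd (β i) ((S i).blk 0)) * y i (l i) *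
        (pr (hd (β i) ((S i).blk 0)))⁻¹ := by
      rw [h1]; group
    have h3 : pv (β i) (P i) ^ m i = pr (hd (β i) ((S i).blk 0)) * (y i (l i)) ^ m i *
        (pr (hd (β i) ((S i).blk 0)))⁻¹ := by
      rw [h2, conj_pow]
    rw [h3]
    apply Subgroup.Normal.conj_mem Subgroup.normalClosure_normal
    exact Subgroup.subset_normalClosure ⟨i, rfl⟩
  intro n hn hn1
  exact hmain n (hle hn) hn1


end Pool.Agent.Helper844.FC
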