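import Mathlib
import Pool.Agent.Helper844.FC.Pat
import Pool.Agent.Helper844.FC.Block
set_option autoImplicit false
namespace Pool.Agent.Helper844.FC


theorem pv_nil (β : Base) : pv β [] = 1 := by simp [pv]

theorem pv_append (β : Base) (P Q : Pat) : pv β (P ++ Q) = pv β P * pv β Q := by
  simp [pv]

theorem pv_cons (β : Base) (q : Blk × W) (P : Pat) :
    pv β (q :: P) = Dv q.1 β.x β.y * q.2 * pv β P := by
  simp [pv]

theorem Dv_inv {G : Type*} [Group G] (k : Blk) (x y : G) : Dv (Blk.inv k) x y = (Dv k x y)⁻¹ := by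
  rcases k with ⟨j, b⟩
  cases b <;> simp [Dv, Blk.inv]

theorem pv_tailP (β : Base) (a : W) (r : List W) :
    a * pv β (tailP (a :: r)) = ((a :: r).map (fun u => u * D 1 β.x β.y * u⁻¹)).prod := by
  induction r generalizing a with
  | nil =>
    rw [tailP, pv_cons, pv_nil]
    simp [Dv, mul_assoc]
  | cons d r ih =>
    rw [tailP, pv_cons, List.map_cons, List.prod_cons, ← ih d]
    simp [Dv, mul_assoc]

theorem pv_rhoP (β : Base) (c : List W) (hc : c ≠ []) : pv β (rhoP c) = rho c β.x β.y := by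
  cases c with
  | nil => exact absurd rfl hc
  | cons a r =>
    rw [rhoP, pv_cons, rho, ← pv_tailP]
    simp [Dv, mul_assoc]

theorem pv_rep (β : Base) (P : Pat) (n : ℕ) :
    pv β (List.replicate n P).flatten = pv β P ^ n := by
  induction n with
  | zero => simp [pv_nil]
  | succ n ih => rw [List.replicate_succ, List.flatten_cons, pv_append, ih, pow_succ']

theorem pv_powP (β : Base) (c : List W) (hc : c ≠ []) : pv β (powP c) = rho c β.x β.y ^ n0 := by
  rw [powP, pv_rep, pv_rhoP β c hc]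

theorem pv_addLast (β : Base) (P : Pat) (hP : P ≠ []) (g : W) :
    pv β (addLast P g) = pv β P * g := by
  induction P with
  | nil => exact absurd rfl hP
  | cons q r ih =>
    cases r with
    | nil => rw [addLast, pv_cons, pv_cons, pv_nil]; simp [mul_assoc]
    | cons q' r =>
      rw [addLast, pv_cons, ih (by simp), pv_cons (q := q)]
      simp only [mul_assoc]

theorem pv_revP (β : Base) (u : W) (P : Pat) :
    (revP u P).1 * pv β (revP u P).2 = (u * pv β P)⁻¹ := by
  induction P generalizing u with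
  | nil => rw [revP, pv_nil]; simp
  | cons q P ih =>
    rw [revP, pv_append, pv_cons, pv_nil, pv_cons]
    simp only [Dv_inv, mul_one]
    rw [← mul_assoc, ih]
    simp only [mul_inv_rev, mul_assoc]

theorem pv_patRule_val (β : Base) (c : List W) (hc : c ≠ []) (z : W) (PP : Pat) :
    pv β (patRule c z PP) = D 2 β.x β.y * (z⁻¹ * pv β PP)⁻¹ * (D 2 β.x β.y)⁻¹ *
      (rho c β.x β.y * (z⁻¹ * pv β PP)) := by
  rw [patRule, pv_cons, pv_append, pv_cons, pv_append, pv_addLast β (rhoP c) (List.cons_ne_nil _ _),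
    pv_rhoP β c hc, ← pv_revP β z⁻¹ PP]
  simp [Dv, mul_assoc]

theorem pv_patF_val (β : Base) (B : ℕ) (q z : W) (PP : Pat) :
    pv β (patF B q z PP) = D B β.x β.y * (z⁻¹ * pv β PP)⁻¹ * (D B β.x β.y)⁻¹ *
      (q * (z⁻¹ * pv β PP)) := by
  rw [patF, pv_cons, pv_append, pv_cons, ← pv_revP β z⁻¹ PP]
  simp [Dv, mul_assoc]

theorem brk_conj {G : Type*} [Group G] (ρ δ B : G) :
    ρ * brk δ B = (ρ * δ) * (B * δ⁻¹ * B⁻¹ * (ρ * δ)) * (ρ * δ)⁻¹ := by
  unfold brk
  group

theorem pv_patRule (β : Base) (c : List W) (hc : c ≠ []) (z : W) (PP : Pat) :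
    ∃ g : W, rho c β.x β.y * brk (z⁻¹ * pv β PP) (D 2 β.x β.y) = g * pv β (patRule c z PP) * g⁻¹ := by
  refine ⟨rho c β.x β.y * (z⁻¹ * pv β PP), ?_⟩
  rw [pv_patRule_val β c hc z PP]
  exact brk_conj _ _ _

theorem pv_patF (β : Base) (B : ℕ) (q z : W) (PP : Pat) :
    ∃ g : W, q * brk (z⁻¹ * pv β PP) (D B β.x β.y) = g * pv β (patF B q z PP) * g⁻¹ := by
  refine ⟨q * (z⁻¹ * pv β PP), ?_⟩
  rw [pv_patF_val β B q z PP]
  exact brk_conj _ _ _

theorem pv_H_aux (β : Base) (g : W) (n : ℕ) :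
    pv β ((List.range (n + 1)).map (fun j => ((4 + j, true), if j = n then g else 1))) =
      ((List.range (n + 1)).map (fun j => D (4 + j) β.x β.y)).prod * g := by
  have h1 : ∀ m : ℕ, m ≤ n →
      pv β ((List.range m).map (fun j => ((4 + j, true), if j = n then g else 1))) =
      ((List.range m).map (fun j => D (4 + j) β.x β.y)).prod := by
    intro m
    induction m with
    | zero => intro _; simp [pv_nil]
    | succ m ih =>
      intro hm
      rw [List.range_succ, List.map_append, List.map_append, pv_append, ih (by omega),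
        List.prod_append, List.map_singleton, List.map_singleton, List.prod_singleton, pv_cons,
        pv_nil, if_neg (by omega)]
      simp [Dv]
  rw [List.range_succ, List.map_append, List.map_append, pv_append, h1 n le_rfl,
    List.prod_append, List.map_singleton, List.map_singleton, List.prod_singleton, pv_cons,
    pv_nil, if_pos rfl]
  simp [Dv, mul_assoc]

/-- every relator is conjugate to the power of the value of its pattern -/
theorem relOf_conj (κ : ℕ) (hκ : 1 ≤ κ) (Tr : Base → List W → Prop) (β : Base) (r : RI)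
    (h : Valid κ Tr β r) : ∃ g : W, relOf β r = g * pv β (patOf β r) ^ mOf r * g⁻¹ := by
  have hne : ∀ c : List W, Adm κ c → c ≠ [] := by
    rintro c hc rfl
    have := hc.1
    simp at this
    omega
  have key : ∀ (a b g : W) (n : ℕ), a = g * b * g⁻¹ → ∃ g : W, a ^ n = g * b ^ n * g⁻¹ := by
    rintro a b g n rfl
    exact ⟨g, conj_pow⟩
  cases r with
  | T c =>
    have h' : Adm κ c ∧ Tr β c := h
    refine ⟨1, ?_⟩
    change rho c β.x β.y ^ n0 = 1 * pv β (rhoP c) ^ n0 * 1⁻¹
    rw [pv_rhoP β c (hne c h'.1), one_mul, inv_one, mul_one]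
  | R c z c' =>
    have h' : Adm κ c ∧ Adm κ c' ∧ z ∈ Fac ∧ ¬ Tr β c' := h
    obtain ⟨g, hg⟩ := pv_patRule β c (hne c h'.1) z (powP c')
    rw [pv_powP β c' (hne c' h'.2.1)] at hg
    exact key _ _ g n0 hg
  | R' c z =>
    have h' : Adm κ c ∧ z ∈ Fac ∧ z ≠ 1 := h
    obtain ⟨g, hg⟩ := pv_patRule β c (hne c h'.1) z []
    rw [pv_nil, mul_one] at hg
    exact key _ _ g n0 hg
  | F B z c' =>
    have h' : (B = 2 ∨ B = 3) ∧ Adm κ c' ∧ z ∈ Fac ∧ ¬ Tr β c' := h
    obtain ⟨g, hg⟩ := pv_patF β B (β.x * β.y) z (powP c')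
    rw [pv_powP β c' (hne c' h'.2.1)] at hg
    exact key _ _ g (mF B) hg
  | F' B z =>
    obtain ⟨g, hg⟩ := pv_patF β B (β.x * β.y) z []
    rw [pv_nil, mul_one] at hg
    exact key _ _ g (mF B) hg
  | H =>
    refine ⟨β.x * β.y, ?_⟩
    change hval β.x β.y = β.x * β.y * pv β (patH (β.x * β.y)) ^ 1 * (β.x * β.y)⁻¹
    have e : r0 = (r0 - 1) + 1 := rfl
    have h1 := pv_H_aux β (β.x * β.y) (r0 - 1)
    rw [← e] at h1
    rw [pow_one, patH, h1, hval]
    group


end Pool.Agent.Helper844.FC
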