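import Mathlib
import Pool.Agent.Helper844.FC.Pat
import Pool.Agent.Helper844.FC.Block
set_option autoImplicit false
namespace Pool.Agent.Helper844.FC


theorem patOf_ne (β : Base) (r : RI) : patOf β r ≠ [] := by
  cases r with
  | T c => simp [patOf, rhoP]
  | R c z c' => simp [patOf, patRule]
  | R' c z => simp [patOf, patRule]
  | F B z c' => simp [patOf, patF]
  | F' B z => simp [patOf, patF]
  | H =>
    intro h
    have := congrArg List.length h
    simp [patOf, patH, r0] at this

/-- the triangle inequality of the length -/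
theorem WL_mul_le (g h : W) : WL.len (g * h) ≤ WL.len g + WL.len h := by
  have := WL.fp 1 (g * h) g g
  have h1 : (g * h)⁻¹ * g = h⁻¹ := by group
  simp only [inv_one, one_mul, inv_mul_cancel, h1, WL.len_one, WL.len_inv, max_self,
    add_zero] at this
  exact this

theorem WL_letter (b : Bool) (k : ℤ) : WL.len (letter b k) ≤ 1 := by
  by_cases hk : k = 0
  · subst hk
    rw [letter_zero, WL.len_one]; omega
  · have hr : Red [(b, k)] := by
      refine ⟨?_, ?_⟩
      · intro p hp
        simp only [List.mem_singleton] at hp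
        subst hp; exact hk
      · simp
    have hp : pr [(b, k)] = letter b k := by simp [pr]
    rw [WL_len, ← hp, lst_pr hr]
    simp

theorem WL_fac {z : W} (hz : z ∈ Fac) : WL.len z ≤ 1 := by
  obtain ⟨b, k, rfl⟩ := hz
  exact WL_letter b k

theorem tailP_gap (c : List W) (hc : ∀ u ∈ c, WL.len u ≤ 5) : ∀ q ∈ tailP c, WL.len q.2 ≤ 10 := by
  induction c with
  | nil => intro q hq; simp [tailP] at hq
  | cons a c ih =>
    cases c with
    | nil =>
      intro q hq
      simp only [tailP, List.mem_singleton] at hq
      subst hq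
      have := hc a (by simp)
      simp only [WL.len_inv]; omega
    | cons d r =>
      intro q hq
      simp only [tailP, List.mem_cons] at hq
      rcases hq with rfl | hq
      · have h1 := hc a (by simp)
        have h2 := hc d (by simp)
        have h3 := WL_mul_le a⁻¹ d
        rw [WL.len_inv] at h3
        show WL.len (a⁻¹ * d) ≤ 10
        omega
      · exact ih (fun u hu => hc u (List.mem_cons_of_mem _ hu)) q (by simpa [tailP] using hq)

theorem rhoP_gap (c : List W) (hc : ∀ u ∈ c, WL.len u ≤ 5) : ∀ q ∈ rhoP c, WL.len q.2 ≤ 10 := by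
  intro q hq
  simp only [rhoP, List.mem_cons] at hq
  rcases hq with rfl | hq
  · cases c with
    | nil => simp [WL.len_one]
    | cons a c =>
      have := hc a (by simp)
      show WL.len ((a :: c).headD 1) ≤ 10
      simp only [List.headD_cons]; omega
  · exact tailP_gap c hc q hq

theorem mem_powP {c : List W} {q : Blk × W} (h : q ∈ powP c) : q ∈ rhoP c := by
  unfold powP at h
  rw [List.mem_flatten] at h
  obtain ⟨l, hl, hq⟩ := h
  rw [List.mem_replicate] at hl
  rw [hl.2] at hq
  exact hq

theorem powP_gap (c : List W) (hc : ∀ u ∈ c, WL.len u ≤ 5) : ∀ q ∈ powP c, WL.len q.2 ≤ 10 :=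
  fun q hq => rhoP_gap c hc q (mem_powP hq)

theorem revP_gap (N : ℕ) (P : Pat) : ∀ u : W, WL.len u ≤ N → (∀ q ∈ P, WL.len q.2 ≤ N) →
    WL.len (revP u P).1 ≤ N ∧ ∀ q ∈ (revP u P).2, WL.len q.2 ≤ N := by
  induction P with
  | nil =>
    intro u hu _
    refine ⟨by simpa [revP, WL.len_inv] using hu, ?_⟩
    intro q hq; simp [revP] at hq
  | cons p P ih =>
    intro u hu hP
    have := ih p.2 (hP p (by simp)) (fun q hq => hP q (List.mem_cons_of_mem _ hq))
    refine ⟨this.1, ?_⟩
    intro q hq
    simp only [revP, List.mem_append, List.mem_singleton] at hq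
    rcases hq with hq | rfl
    · exact this.2 q hq
    · simpa [WL.len_inv] using hu

theorem addLast_gap (N : ℕ) (g : W) (P : Pat) (hP : ∀ q ∈ P, WL.len q.2 ≤ N) :
    ∀ q ∈ addLast P g, WL.len q.2 ≤ N + WL.len g := by
  induction P with
  | nil => intro q hq; simp [addLast] at hq
  | cons p P ih =>
    cases P with
    | nil =>
      intro q hq
      simp only [addLast, List.mem_singleton] at hq
      subst hq
      have := hP p (by simp)
      have := WL_mul_le p.2 g
      show WL.len (p.2 * g) ≤ _
      omega
    | cons p' r =>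
      intro q hq
      simp only [addLast, List.mem_cons] at hq
      rcases hq with rfl | hq
      · have := hP q (by simp)
        omega
      · exact ih (fun u hu => hP u (List.mem_cons_of_mem _ hu)) q (by simpa [addLast] using hq)

theorem patRule_gap (c : List W) (z : W) (PP : Pat) (hz : WL.len z ≤ 1)
    (hc : ∀ u ∈ c, WL.len u ≤ 5) (hPP : ∀ q ∈ PP, WL.len q.2 ≤ 10) :
    ∀ q ∈ patRule c z PP, WL.len q.2 ≤ 12 := by
  intro q hq
  have hz' : WL.len z⁻¹ ≤ 1 := by rw [WL.len_inv]; exact hz
  have hrev := revP_gap 10 PP z⁻¹ (by omega) hPP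
  have hadd := addLast_gap 10 z⁻¹ (rhoP c) (rhoP_gap c hc)
  simp only [patRule, List.mem_cons, List.mem_append] at hq
  rcases hq with rfl | hq | rfl | hq | hq
  · show WL.len (revP z⁻¹ PP).1 ≤ 12
    omega
  · have := hrev.2 q hq; omega
  · show WL.len (1 : W) ≤ 12
    rw [WL.len_one]; omega
  · have := hadd q hq; omega
  · have := hPP q hq; omega

theorem patF_gap (B : ℕ) (g z : W) (PP : Pat) (hz : WL.len z ≤ 1) (hg : WL.len g ≤ 2)
    (hPP : ∀ q ∈ PP, WL.len q.2 ≤ 10) :
    ∀ q ∈ patF B g z PP, WL.len q.2 ≤ 12 := by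
  intro q hq
  have hz' : WL.len z⁻¹ ≤ 1 := by rw [WL.len_inv]; exact hz
  have hrev := revP_gap 10 PP z⁻¹ (by omega) hPP
  simp only [patF, List.mem_cons, List.mem_append] at hq
  rcases hq with rfl | hq | rfl | hq
  · show WL.len (revP z⁻¹ PP).1 ≤ 12
    omega
  · have := hrev.2 q hq; omega
  · have := WL_mul_le g z⁻¹
    show WL.len (g * z⁻¹) ≤ 12
    omega
  · have := hPP q hq; omega

theorem WL_xy (β : Base) : WL.len (β.x * β.y) ≤ 2 := by
  have h := WL_mul_le β.x β.y
  have h1 : WL.len β.x ≤ 1 := WL_letter _ _
  have h2 : WL.len β.y ≤ 1 := WL_letter _ _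
  omega

theorem patOf_gap (κ : ℕ) (hκ : 1 ≤ κ) (Tr : Base → List W → Prop) (β : Base) (r : RI)
    (h : Valid κ Tr β r) : ∀ q ∈ patOf β r, WL.len q.2 ≤ KK := by
  unfold KK
  cases r with
  | T c =>
    intro q hq
    have := rhoP_gap c h.1.2 q hq
    omega
  | R c z c' =>
    exact patRule_gap c z (powP c') (WL_fac h.2.2.1) h.1.2 (powP_gap c' h.2.1.2)
  | R' c z =>
    exact patRule_gap c z [] (WL_fac h.2.1) h.1.2 (by simp)
  | F B z c' =>
    exact patF_gap B _ z (powP c') (WL_fac h.2.2.1) (WL_xy β) (powP_gap c' h.2.1.2)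
  | F' B z =>
    exact patF_gap B _ z [] (WL_fac h.2.1) (WL_xy β) (by simp)
  | H =>
    intro q hq
    simp only [patOf, patH, List.mem_map] at hq
    obtain ⟨j, _, rfl⟩ := hq
    dsimp only
    split_ifs
    · have := WL_xy β; omega
    · rw [WL.len_one]; omega

/-- the product `x * y * z⁻¹` is nontrivial for `z` in a factor -/
theorem xyz_ne (β : Base) {z : W} (hz : z ∈ Fac) : β.x * β.y * z⁻¹ ≠ 1 := by
  intro h
  have h1 : β.x * β.y = z := by
    have := congrArg (· * z) h
    simpa using this
  have hr : Red [(β.b, β.s), (!β.b, β.t)] := by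
    refine ⟨?_, ?_⟩
    · intro p hp
      simp only [List.mem_cons, List.not_mem_nil, or_false] at hp
      rcases hp with rfl | rfl
      · exact β.hs
      · exact β.ht
    · simp
  have hp : pr [(β.b, β.s), (!β.b, β.t)] = β.x * β.y := by
    simp [pr, Base.x, Base.y]
  have h2 : WL.len (β.x * β.y) = 2 := by
    rw [WL_len, ← hp, lst_pr hr]; simp
  have h3 := WL_fac hz
  rw [← h1, h2] at h3
  omega


/-- good consecutive pairs -/
def Good (q q2 : Blk × W) : Prop := ¬ (q2.1 = Blk.inv q.1 ∧ q.2 = 1)

theorem good_of_same {q q2 : Blk × W} (h : q.1.2 = q2.1.2) : Good q q2 := by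
  rintro ⟨h1, _⟩
  rw [h1] at h
  simp [Blk.inv] at h

theorem good_of_fst {q q2 : Blk × W} (h : q.1.1 ≠ q2.1.1) : Good q q2 := by
  rintro ⟨h1, _⟩
  rw [h1] at h
  simp [Blk.inv] at h

theorem good_of_gap {q q2 : Blk × W} (h : q.2 ≠ 1) : Good q q2 := fun h1 => h h1.2

theorem chain_same (s : Bool) (l : Pat) (h : ∀ q ∈ l, q.1.2 = s) : l.IsChain Good := by
  induction l with
  | nil => simp
  | cons a l ih =>
    cases l with
    | nil => simp
    | cons b l =>
      rw [List.isChain_cons_cons]
      refine ⟨good_of_same ?_, ih (fun q hq => h q (List.mem_cons_of_mem _ hq))⟩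
      rw [h a (by simp), h b (by simp)]

theorem cyc_good (P : Pat) (hP : P ≠ []) (h : (P ++ [P.head hP]).IsChain Good) (a : ℤ) :
    Good (cyc P a) (cyc P (a + 1)) := by
  rw [List.isChain_iff_getElem] at h
  have hL : 0 < P.length := List.length_pos_iff.2 hP
  have hL' : (0 : ℤ) < (P.length : ℤ) := by exact_mod_cast hL
  obtain ⟨i, hi⟩ : ∃ i : ℕ, (a % (P.length : ℤ)) = (i : ℤ) :=
    ⟨(a % (P.length : ℤ)).toNat, by rw [Int.toNat_of_nonneg (Int.emod_nonneg _ hL'.ne')]⟩
  have hiL : i < P.length := by
    have := Int.emod_lt_of_pos a hL'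
    rw [hi] at this
    exact_mod_cast this
  have h1 : cyc P a = P[i] := by
    unfold cyc
    rw [hi]
    simp [hiL]
  have hmod : (a + 1) % (P.length : ℤ) = ((i : ℤ) + 1) % (P.length : ℤ) := by
    rw [Int.add_emod, hi]
    conv_rhs => rw [Int.add_emod]
    rw [show ((i : ℤ) % (P.length : ℤ)) = (i : ℤ) from
      Int.emod_eq_of_lt (by positivity) (by exact_mod_cast hiL)]
  have hh := h i (by simp; omega)
  by_cases hi1 : i + 1 < P.length
  · have h2 : cyc P (a + 1) = P[i + 1] := by
      unfold cyc
      rw [hmod, Int.emod_eq_of_lt (by positivity) (by exact_mod_cast hi1)]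
      have : ((i : ℤ) + 1).toNat = i + 1 := by omega
      rw [this]
      simp [hi1]
    rw [h1, h2]
    rw [List.getElem_append_left hiL, List.getElem_append_left hi1] at hh
    exact hh
  · have hi2 : i + 1 = P.length := by omega
    have h2 : cyc P (a + 1) = P.head hP := by
      unfold cyc
      rw [hmod]
      have : ((i : ℤ) + 1) % (P.length : ℤ) = 0 := by
        rw [← hi2]; push_cast; simp
      rw [this]
      simp only [Int.toNat_zero]
      rw [List.head_eq_getElem]
      simp [hL]
    rw [h1, h2]
    rw [List.getElem_append_left hiL, List.getElem_append_right (by omega)] at hh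
    simpa using hh

theorem tailP_pos (c : List W) : ∀ q ∈ tailP c, q.1 = (1, true) := by
  induction c with
  | nil => intro q hq; simp [tailP] at hq
  | cons a c ih =>
    cases c with
    | nil =>
      intro q hq
      simp only [tailP, List.mem_singleton] at hq
      subst hq; rfl
    | cons d r =>
      intro q hq
      simp only [tailP, List.mem_cons] at hq
      rcases hq with rfl | hq
      · rfl
      · exact ih q (by simpa [tailP] using hq)

theorem rhoP_pos (c : List W) : ∀ q ∈ rhoP c, q.1.2 = true ∧ q.1.1 ≤ 1 := by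
  intro q hq
  simp only [rhoP, List.mem_cons] at hq
  rcases hq with rfl | hq
  · simp
  · rw [tailP_pos c q hq]; simp

theorem powP_pos (c : List W) : ∀ q ∈ powP c, q.1.2 = true ∧ q.1.1 ≤ 1 :=
  fun q hq => rhoP_pos c q (mem_powP hq)

theorem addLast_blk (g : W) (P : Pat) : (addLast P g).map Prod.fst = P.map Prod.fst := by
  induction P with
  | nil => rfl
  | cons p P ih =>
    cases P with
    | nil => rfl
    | cons p' r =>
      simp only [addLast, List.map_cons] at ih ⊢
      rw [ih]

theorem addLast_pos (g : W) (c : List W) : ∀ q ∈ addLast (rhoP c) g, q.1.2 = true ∧ q.1.1 ≤ 1 := by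
  intro q hq
  have h1 : q.1 ∈ (addLast (rhoP c) g).map Prod.fst := List.mem_map_of_mem hq
  rw [addLast_blk, List.mem_map] at h1
  obtain ⟨q', h2, h3⟩ := h1
  rw [← h3]
  exact rhoP_pos c q' h2

theorem revP_blk (P : Pat) : ∀ u : W, ∀ q ∈ (revP u P).2, ∃ p ∈ P, q.1 = Blk.inv p.1 := by
  induction P with
  | nil => intro u q hq; simp [revP] at hq
  | cons p P ih =>
    intro u q hq
    simp only [revP, List.mem_append, List.mem_singleton] at hq
    rcases hq with hq | rfl
    · obtain ⟨p', h1, h2⟩ := ih _ q hq
      exact ⟨p', List.mem_cons_of_mem _ h1, h2⟩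
    · exact ⟨p, by simp, rfl⟩

theorem revP_length_b (P : Pat) : ∀ u : W, (revP u P).2.length = P.length := by
  induction P with
  | nil => intro u; simp [revP]
  | cons p P ih => intro u; simp [revP, ih]

theorem revP_powP (u : W) (c : List W) : ∀ q ∈ (revP u (powP c)).2, q.1.2 = false ∧ q.1.1 ≤ 1 := by
  intro q hq
  obtain ⟨p, h1, h2⟩ := revP_blk _ u q hq
  have := powP_pos c p h1
  rw [h2]
  simp [Blk.inv, this.1, this.2]

theorem powP_ne (c : List W) : powP c ≠ [] := by
  intro h
  have := congrArg List.length h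
  simp only [powP, List.length_flatten, List.map_replicate, List.sum_replicate, List.length_nil,
    n0, rhoP, List.length_cons, smul_eq_mul] at this
  omega

/-- chain: first block, negative part, a negative block, positive part -/
theorem chain_mix (p s : Blk × W) (R Q : Pat) (hp : p.1.2 = true) (hs : s.1.2 = false)
    (hR : ∀ q ∈ R, q.1.2 = false ∧ q.1.1 ≤ 1) (hQ : ∀ q ∈ Q, q.1.2 = true)
    (hpB : 2 ≤ p.1.1) (hne : R ≠ [] ∨ p.2 ≠ 1)
    (hsQ : ∀ q ∈ Q.head?, Good s q) : (p :: (R ++ s :: Q)).IsChain Good := by
  have hQc : Q.IsChain Good := chain_same true Q hQ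
  have hsQc : (s :: Q).IsChain Good := by
    rw [List.isChain_cons]
    exact ⟨hsQ, hQc⟩
  have hRc : R.IsChain Good := chain_same false R (fun q hq => (hR q hq).1)
  have hRs : (R ++ s :: Q).IsChain Good := by
    rw [List.isChain_append]
    refine ⟨hRc, hsQc, ?_⟩
    intro x hx y hy
    have hxR : x ∈ R := List.mem_of_mem_getLast? hx
    simp only [List.head?_cons, Option.mem_def, Option.some.injEq] at hy
    subst hy
    exact good_of_same (by rw [(hR x hxR).1, hs])
  rw [List.isChain_cons]
  refine ⟨?_, hRs⟩
  intro y hy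
  cases R with
  | nil =>
    rcases hne with hne | hne
    · exact absurd rfl hne
    · exact good_of_gap hne
  | cons r R =>
    simp only [List.cons_append, List.head?_cons, Option.mem_def, Option.some.injEq] at hy
    subst hy
    apply good_of_fst
    have := (hR r (by simp)).2
    omega

theorem chain_pos (P : Pat) (hP : P ≠ []) (h : ∀ q ∈ P, q.1.2 = true) :
    (P ++ [P.head hP]).IsChain Good := by
  apply chain_same true
  intro q hq
  rw [List.mem_append, List.mem_singleton] at hq
  rcases hq with hq | hq
  · exact h q hq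
  · rw [hq]; exact h _ (List.head_mem _)

/-- no backtracking in the cyclic patterns -/
theorem patOf_nb (κ : ℕ) (hκ : 1 ≤ κ) (Tr : Base → List W → Prop) (β : Base) (r : RI)
    (h : Valid κ Tr β r) (a : ℤ) :
    ¬ ((cyc (patOf β r) (a + 1)).1 = Blk.inv (cyc (patOf β r) a).1 ∧ (cyc (patOf β r) a).2 = 1) := by
  apply cyc_good (patOf β r) (patOf_ne β r)
  cases r with
  | T c =>
    apply chain_same true
    intro q hq
    rw [List.mem_append, List.mem_singleton] at hq
    rcases hq with hq | rfl
    · exact (rhoP_pos c q hq).1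
    · exact (rhoP_pos c _ (List.head_mem _)).1
  | R c z c' =>
    have e : patOf β (.R c z c') ++ [(patOf β (.R c z c')).head (patOf_ne _ _)] =
      ((2, true), (revP z⁻¹ (powP c')).1) :: ((revP z⁻¹ (powP c')).2 ++ ((2, false), 1) ::
        ((addLast (rhoP c) z⁻¹ ++ powP c') ++ [((2, true), (revP z⁻¹ (powP c')).1)])) := by
      simp [patOf, patRule]
    rw [e]
    apply chain_mix
    · rfl
    · rfl
    · exact revP_powP _ _
    · intro q hq
      simp only [List.mem_append, List.mem_singleton] at hq
      rcases hq with (hq | hq) | rfl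
      · exact (addLast_pos _ _ q hq).1
      · exact (powP_pos _ q hq).1
      · rfl
    · exact le_refl _
    · left
      intro h0
      have := congrArg List.length h0
      rw [revP_length_b] at this
      exact powP_ne c' (List.length_eq_zero_iff.1 (by simpa using this))
    · intro q hq
      have hq' : q ∈ addLast (rhoP c) z⁻¹ := by
        have : addLast (rhoP c) z⁻¹ ≠ [] := by
          intro h0
          have := congrArg (List.map Prod.fst) h0
          rw [addLast_blk] at this
          simp [rhoP] at this
        cases hA : addLast (rhoP c) z⁻¹ with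
        | nil => exact absurd hA this
        | cons x l =>
          rw [hA] at hq
          simp only [List.cons_append, List.head?_cons, Option.mem_def, Option.some.injEq] at hq
          subst hq; simp
      apply good_of_fst
      have := (addLast_pos _ _ q hq').2
      show 2 ≠ q.1.1
      omega
  | R' c z =>
    have e : patOf β (.R' c z) ++ [(patOf β (.R' c z)).head (patOf_ne _ _)] =
      ((2, true), (revP z⁻¹ []).1) :: ([] ++ ((2, false), 1) ::
        (addLast (rhoP c) z⁻¹ ++ [((2, true), (revP z⁻¹ []).1)])) := by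
      simp [patOf, patRule, revP]
    rw [e]
    apply chain_mix
    · rfl
    · rfl
    · simp
    · intro q hq
      simp only [List.mem_append, List.mem_singleton] at hq
      rcases hq with hq | rfl
      · exact (addLast_pos _ _ q hq).1
      · rfl
    · exact le_refl _
    · right
      show z⁻¹⁻¹ ≠ 1
      rw [inv_inv]
      exact h.2.2
    · intro q hq
      have hq' : q ∈ addLast (rhoP c) z⁻¹ := by
        have : addLast (rhoP c) z⁻¹ ≠ [] := by
          intro h0
          have := congrArg (List.map Prod.fst) h0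
          rw [addLast_blk] at this
          simp [rhoP] at this
        cases hA : addLast (rhoP c) z⁻¹ with
        | nil => exact absurd hA this
        | cons x l =>
          rw [hA] at hq
          simp only [List.cons_append, List.head?_cons, Option.mem_def, Option.some.injEq] at hq
          subst hq; simp
      apply good_of_fst
      have := (addLast_pos _ _ q hq').2
      show 2 ≠ q.1.1
      omega
  | F B z c' =>
    have hB : 2 ≤ B := by rcases h.1 with h | h <;> omega
    have e : patOf β (.F B z c') ++ [(patOf β (.F B z c')).head (patOf_ne _ _)] =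
      ((B, true), (revP z⁻¹ (powP c')).1) :: ((revP z⁻¹ (powP c')).2 ++
        ((B, false), β.x * β.y * z⁻¹) ::
        (powP c' ++ [((B, true), (revP z⁻¹ (powP c')).1)])) := by
      simp [patOf, patF]
    rw [e]
    apply chain_mix
    · rfl
    · rfl
    · exact revP_powP _ _
    · intro q hq
      simp only [List.mem_append, List.mem_singleton] at hq
      rcases hq with hq | rfl
      · exact (powP_pos _ q hq).1
      · rfl
    · exact hB
    · left
      intro h0
      have := congrArg List.length h0
      rw [revP_length_b] at this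
      exact powP_ne c' (List.length_eq_zero_iff.1 (by simpa using this))
    · intro q hq
      exact good_of_gap (xyz_ne β h.2.2.1)
  | F' B z =>
    have hB : 2 ≤ B := by rcases h.1 with h | h <;> omega
    have e : patOf β (.F' B z) ++ [(patOf β (.F' B z)).head (patOf_ne _ _)] =
      ((B, true), (revP z⁻¹ []).1) :: ([] ++ ((B, false), β.x * β.y * z⁻¹) ::
        ([((B, true), (revP z⁻¹ []).1)])) := by
      simp [patOf, patF, revP]
    rw [e]
    apply chain_mix
    · rfl
    · rfl
    · simp
    · intro q hq
      simp only [List.mem_singleton] at hq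
      subst hq
      rfl
    · exact hB
    · right
      show z⁻¹⁻¹ ≠ 1
      rw [inv_inv]
      exact h.2.2
    · intro q hq
      exact good_of_gap (xyz_ne β h.2.1)
  | H =>
    apply chain_pos
    intro q hq
    rw [show patOf β .H = patH (β.x * β.y) from rfl] at hq
    unfold patH at hq
    rw [List.mem_map] at hq
    obtain ⟨j, _, rfl⟩ := hq
    rfl

theorem mF_ge (B : ℕ) : 1000 ≤ mF B := by
  unfold mF; split_ifs <;> omega

theorem patOf_m (κ : ℕ) (hκ : 1 ≤ κ) (Tr : Base → List W → Prop) (β : Base) (r : RI)
    (h : Valid κ Tr β r) :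
    1 ≤ ROf β r ∧ 50 * ((ROf β r + 4) * (CC + jm)) ≤ mOf r * ((patOf β r).length * CC) := by
  have hL : 1 ≤ (patOf β r).length := List.length_pos_iff.2 (patOf_ne β r)
  have key : ∀ m L : ℕ, 1000 ≤ m → 1 ≤ L → 1 ≤ 3 * L ∧ 50 * ((3 * L + 4) * (CC + jm)) ≤ m * (L * CC) := by
    intro m L hm hL
    refine ⟨by omega, ?_⟩
    unfold CC jm
    have : 1000 * (L * 322) ≤ m * (L * 322) := Nat.mul_le_mul_right _ hm
    omega
  cases r with
  | T c => exact key _ _ (by simp [mOf, n0]) hL
  | R c z c' => exact key _ _ (by simp [mOf, n0]) hL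
  | R' c z => exact key _ _ (by simp [mOf, n0]) hL
  | F B z c' => exact key _ _ (mF_ge B) hL
  | F' B z => exact key _ _ (mF_ge B) hL
  | H =>
    have : (patOf β .H).length = 1000 := by simp [patOf, patH, r0]
    refine ⟨by simp [ROf], ?_⟩
    rw [this]
    simp [ROf, CC, jm, mOf]


end Pool.Agent.Helper844.FC
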