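import Mathlib
import Pool.Agent.Helper844.FC.Pat
import Pool.Agent.Helper844.FC.Block
set_option autoImplicit false
namespace Pool.Agent.Helper844.FC


/-! auxiliary lemmas -/

theorem j9_flat {α : Type*} (l : List α) (n i : ℕ) (hi : i < n * l.length) :
    ((List.replicate n l).flatten)[i]? = l[i % l.length]? := by
  induction n generalizing i with
  | zero => simp at hi
  | succ n ih =>
    rw [List.replicate_succ, List.flatten_cons, List.getElem?_append]
    split_ifs with h
    · rw [Nat.mod_eq_of_lt h]
    · push Not at h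
      have h1 : i - l.length < n * l.length := by
        have : (n + 1) * l.length = n * l.length + l.length := by ring
        omega
      rw [ih _ h1, ← Nat.mod_eq_sub_mod h]

theorem j9_powP_length (c : List W) : (powP c).length = n0 * (rhoP c).length := by
  unfold powP
  generalize n0 = n
  simp

theorem j9_tailP_length (c : List W) : (tailP c).length = c.length := by
  induction c with
  | nil => rfl
  | cons a c ih =>
    cases c with
    | nil => rfl
    | cons b c => simp only [tailP, List.length_cons] at ih ⊢; omega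

theorem j9_tailP_get (c : List W) (i : ℕ) (h0 : i < c.length) (h : i + 1 < c.length) :
    (tailP c)[i]? = some ((1, true), (c)[i]⁻¹ * (c)[i+1]) := by
  induction c generalizing i with
  | nil => simp at h
  | cons a c ih =>
    cases c with
    | nil => simp at h
    | cons b c =>
      cases i with
      | zero => simp [tailP]
      | succ i =>
        have h' : i + 1 < (b :: c).length := by simpa using h
        have := ih i (by omega) h'
        simp only [tailP, List.getElem?_cons_succ, this, List.getElem_cons_succ]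

theorem j9_tailP_blk (c : List W) : ∀ q ∈ tailP c, q.1 = (1, true) := by
  induction c with
  | nil => intro q hq; simp [tailP] at hq
  | cons a c ih =>
    cases c with
    | nil => intro q hq; simp [tailP] at hq; rw [hq]
    | cons b c =>
      intro q hq
      simp only [tailP, List.mem_cons] at hq
      rcases hq with rfl | hq
      · rfl
      · exact ih q (by simpa using hq)

theorem j9_rhoP_blk (c : List W) : ∀ q ∈ rhoP c, q.1 = (0, true) ∨ q.1 = (1, true) := by
  intro q hq
  simp only [rhoP, List.mem_cons] at hq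
  rcases hq with rfl | hq
  · exact Or.inl rfl
  · exact Or.inr (j9_tailP_blk c q hq)

theorem j9_powP_blk (c : List W) : ∀ q ∈ powP c, q.1 = (0, true) ∨ q.1 = (1, true) := by
  intro q hq
  unfold powP at hq
  rw [List.mem_flatten] at hq
  obtain ⟨l, hl, hq⟩ := hq
  have := List.eq_of_mem_replicate hl
  subst this
  exact j9_rhoP_blk c q hq

theorem j9_addLast_blk (P : Pat) (g : W) : ∀ q ∈ addLast P g, ∃ q' ∈ P, q.1 = q'.1 := by
  induction P with
  | nil => intro q hq; simp [addLast] at hq
  | cons a P ih =>
    cases P with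
    | nil =>
      intro q hq
      simp only [addLast, List.mem_singleton] at hq
      exact ⟨a, by simp, by rw [hq]⟩
    | cons b P =>
      intro q hq
      simp only [addLast, List.mem_cons] at hq
      rcases hq with rfl | hq
      · exact ⟨q, by simp, rfl⟩
      · obtain ⟨q', h1, h2⟩ := ih q (by simpa using hq)
        exact ⟨q', List.mem_cons_of_mem _ h1, h2⟩

theorem j9_revP_blk (u : W) (P : Pat) : ∀ q ∈ (revP u P).2, ∃ q' ∈ P, q.1 = Blk.inv q'.1 := by
  induction P generalizing u with
  | nil => intro q hq; simp [revP] at hq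
  | cons a P ih =>
    intro q hq
    simp only [revP, List.mem_append, List.mem_singleton] at hq
    rcases hq with hq | rfl
    · obtain ⟨q', h1, h2⟩ := ih _ q hq
      exact ⟨q', List.mem_cons_of_mem _ h1, h2⟩
    · exact ⟨a, by simp, rfl⟩

theorem j9_rev_cons (u : W) (q : Blk × W) (P : Pat) :
    (revP u (q :: P)).2.reverse = (Blk.inv q.1, u⁻¹) :: (revP q.2 P).2.reverse := by
  simp [revP]

theorem j9_revP_length (u : W) (P : Pat) : (revP u P).2.length = P.length := by
  induction P generalizing u with
  | nil => rfl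
  | cons a P ih => simp [revP, ih]

theorem j9_A (u : W) (P : Pat) (i : ℕ) :
    ((revP u P).2.reverse[i]?).map (fun q => q.1) = (P[i]?).map (fun q => Blk.inv q.1) := by
  induction P generalizing u i with
  | nil => simp [revP]
  | cons a P ih =>
    rw [j9_rev_cons]
    cases i with
    | zero => simp
    | succ i => simpa using ih a.2 i

theorem j9_C (u : W) (P : Pat) (i : ℕ) (hi : i + 1 < P.length) :
    ((revP u P).2.reverse[i+1]?).map (fun q => q.2) = (P[i]?).map (fun q => q.2⁻¹) := by
  induction P generalizing u i with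
  | nil => simp at hi
  | cons a P ih =>
    rw [j9_rev_cons]
    cases i with
    | zero =>
      cases P with
      | nil => simp at hi
      | cons b P =>
        rw [List.getElem?_cons_succ, j9_rev_cons]
        simp
    | succ i =>
      rw [List.getElem?_cons_succ, List.getElem?_cons_succ]
      exact ih a.2 i (by simpa using hi)

theorem j9_D (u : W) (P : Pat) (i : ℕ) (hi : i + 1 = P.length) :
    (revP u P).1 = ((P[i]?).map (fun q => q.2⁻¹)).getD 1 := by
  induction P generalizing u i with
  | nil => simp at hi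
  | cons a P ih =>
    cases P with
    | nil =>
      have : i = 0 := by simpa using hi
      subst this
      simp [revP]
    | cons b P =>
      cases i with
      | zero => simp at hi
      | succ i =>
        rw [List.getElem?_cons_succ, ← ih a.2 i (by simpa using hi)]
        simp only [revP]

theorem j9_mk (A B : Pat) (q : Blk × W) (μ : Blk) (hq : q.1 = μ) (hA : ∀ r ∈ A, r.1 ≠ μ)
    (hB : ∀ r ∈ B, r.1 ≠ μ) (j : ℤ) :
    (cyc (A ++ q :: B) j).1 = μ ↔ ((A ++ q :: B).length : ℤ) ∣ j - A.length := by
  set P := A ++ q :: B with hP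
  have hlen : P.length = A.length + B.length + 1 := by
    rw [hP]; simp; omega
  have hL : (0 : ℤ) < P.length := by rw [hlen]; push_cast; positivity
  have h1 : 0 ≤ j % (P.length : ℤ) := Int.emod_nonneg _ hL.ne'
  have h2 : j % (P.length : ℤ) < P.length := Int.emod_lt_of_pos _ hL
  obtain ⟨n, hn⟩ : ∃ n : ℕ, j % (P.length : ℤ) = n := ⟨_, (Int.toNat_of_nonneg h1).symm⟩
  have hnL : n < P.length := by rw [hn] at h2; exact_mod_cast h2
  have hcyc : cyc P j = P[n] := by
    unfold cyc
    rw [hn, Int.toNat_natCast, List.getElem?_eq_getElem hnL]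
    rfl
  have hdiv : ((P.length : ℤ) ∣ j - A.length) ↔ n = A.length := by
    have hj : j = P.length * (j / P.length) + n := by
      rw [← hn]; exact (Int.mul_ediv_add_emod j P.length).symm
    have e1 : j - A.length = P.length * (j / P.length) + ((n : ℤ) - A.length) := by
      conv_lhs => rw [hj]
      ring
    rw [e1]
    rw [Int.dvd_add_right (Dvd.intro _ rfl)]
    constructor
    · intro hd
      have habs : |(n : ℤ) - A.length| < P.length := by
        rw [abs_lt]
        have : A.length < P.length := by omega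
        constructor <;> omega
      have := Int.eq_zero_of_abs_lt_dvd hd habs
      omega
    · intro h
      rw [h]; simp
  rw [hdiv, hcyc]
  constructor
  · intro h
    by_contra hne
    rcases lt_or_gt_of_ne hne with hlt | hgt
    · have : P[n] = A[n] := by simp [hP, List.getElem_append, hlt]
      rw [this] at h
      exact hA _ (List.getElem_mem _) h
    · have : P[n] ∈ B := by
        have e : P[n] = B[n - A.length - 1]'(by omega) := by
          have h0 : ¬ n < A.length := by omega
          have h3 : n - A.length = (n - A.length - 1) + 1 := by omega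
          simp only [hP, List.getElem_append, h0, dite_false]
          rw [List.getElem_cons]
          have h4 : n - A.length ≠ 0 := by omega
          simp [h4]
        rw [e]; exact List.getElem_mem _
      exact hB _ this h
  · intro h
    subst h
    simp [hP, hq]

theorem j9_mk0 (B : Pat) (q : Blk × W) (μ : Blk) (hq : q.1 = μ)
    (hB : ∀ r ∈ B, r.1 ≠ μ) (j : ℤ) :
    (cyc (q :: B) j).1 = μ ↔ ((q :: B).length : ℤ) ∣ j := by
  have := j9_mk [] B q μ hq (by simp) hB j
  simpa using this

theorem j9_PP (c' : List W) (PP : Pat) (hPP : PP = [] ∨ PP = powP c') :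
    ∀ q ∈ PP, q.1 = (0, true) ∨ q.1 = (1, true) := by
  rcases hPP with rfl | rfl
  · intro q hq; simp at hq
  · exact j9_powP_blk c'

theorem j9_inv_iff (k μ : Blk) : Blk.inv k = μ ↔ k = Blk.inv μ := by
  unfold Blk.inv
  constructor
  · rintro rfl; simp
  · rintro rfl; simp


/-- marker lemma: two periodic sequences, in each of which the marker block occurs exactly once
per period, that agree on three periods of the first one, agree everywhere. -/
theorem marker (Γ Γ' : ℤ → Blk × W) (k k' : ℕ) (hk : 1 ≤ k) (hk' : 1 ≤ k') (μ : Blk) (α α' : ℤ)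
    (hΓ : ∀ j, Γ (j + k) = Γ j) (hΓ' : ∀ j, Γ' (j + k') = Γ' j)
    (hm : ∀ j, (Γ j).1 = μ ↔ (k : ℤ) ∣ j - α) (hm' : ∀ j, (Γ' j).1 = μ ↔ (k' : ℤ) ∣ j - α')
    (a b : ℤ) (h : ∀ e : ℕ, e < 3 * k → (Γ (a + e)).1 = (Γ' (b + e)).1 ∧
      (e + 1 < 3 * k → (Γ (a + e)).2 = (Γ' (b + e)).2)) :
    (∀ e : ℤ, Γ (a + e) = Γ' (b + e)) ∧ k = k' := by
  have pΓ : ∀ (j m : ℤ), Γ (j + m * k) = Γ j := fun j m =>
    (show Function.Periodic Γ ((k : ℤ)) from fun x => hΓ x).int_mul m j
  have pΓ' : ∀ (j m : ℤ), Γ' (j + m * k') = Γ' j := fun j m =>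
    (show Function.Periodic Γ' ((k' : ℤ)) from fun x => hΓ' x).int_mul m j
  have hk0 : (0 : ℤ) < k := by exact_mod_cast hk
  obtain ⟨p, hp, hpk⟩ : ∃ p : ℕ, (k : ℤ) ∣ a + p - α ∧ p < k := by
    have h1 : 0 ≤ (α - a) % (k : ℤ) := Int.emod_nonneg _ hk0.ne'
    have h2 : (α - a) % (k : ℤ) < k := Int.emod_lt_of_pos _ hk0
    obtain ⟨n, hn⟩ : ∃ n : ℕ, (α - a) % (k : ℤ) = n := ⟨_, (Int.toNat_of_nonneg h1).symm⟩
    refine ⟨n, ?_, by rw [hn] at h2; exact_mod_cast h2⟩
    rw [← hn]
    have := Int.mul_ediv_add_emod (α - a) k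
    refine ⟨-((α - a) / k), ?_⟩
    linarith
  have m1 : (k' : ℤ) ∣ b + p - α' := by
    rw [← hm', ← (h p (by omega)).1, hm]; exact hp
  have m2 : (k' : ℤ) ∣ b + ((p + k : ℕ) : ℤ) - α' := by
    rw [← hm', ← (h (p + k) (by omega)).1, hm]
    have : a + ((p + k : ℕ) : ℤ) - α = (a + p - α) + k := by push_cast; ring
    rw [this]; exact dvd_add hp dvd_rfl
  have d1 : (k' : ℤ) ∣ k := by
    have := dvd_sub m2 m1
    have e : b + ((p + k : ℕ) : ℤ) - α' - (b + p - α') = k := by push_cast; ring
    rwa [e] at this
  have hkk : k' ≤ k := Nat.le_of_dvd hk (by exact_mod_cast d1)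
  have hkk' : k = k' := by
    by_contra hne
    have hlt : k' < k := by omega
    have m3 : (k : ℤ) ∣ a + ((p + k' : ℕ) : ℤ) - α := by
      rw [← hm, (h (p + k') (by omega)).1, hm']
      have : b + ((p + k' : ℕ) : ℤ) - α' = (b + p - α') + k' := by push_cast; ring
      rw [this]; exact dvd_add m1 dvd_rfl
    have d2 : (k : ℤ) ∣ k' := by
      have := dvd_sub m3 hp
      have e : a + ((p + k' : ℕ) : ℤ) - α - (a + p - α) = k' := by push_cast; ring
      rwa [e] at this
    have := Nat.le_of_dvd hk' (by exact_mod_cast d2)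
    omega
  refine ⟨fun e => ?_, hkk'⟩
  have h1 : 0 ≤ e % (k : ℤ) := Int.emod_nonneg _ hk0.ne'
  have h2 : e % (k : ℤ) < k := Int.emod_lt_of_pos _ hk0
  obtain ⟨n, hn⟩ : ∃ n : ℕ, e % (k : ℤ) = n := ⟨_, (Int.toNat_of_nonneg h1).symm⟩
  have hnk : n < k := by rw [hn] at h2; exact_mod_cast h2
  have he : e = n + (e / k) * k := by
    rw [← hn]; have := Int.mul_ediv_add_emod e k; linarith
  have e1 : Γ (a + e) = Γ (a + n) := by
    conv_lhs => rw [he]
    rw [← add_assoc]; exact pΓ _ _
  have e2 : Γ' (b + e) = Γ' (b + n) := by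
    conv_lhs => rw [he]
    rw [← add_assoc]
    have := pΓ' (b + n) (e / k)
    rw [← hkk'] at this
    exact this
  rw [e1, e2]
  have h3 := h n (by omega)
  exact Prod.ext h3.1 (h3.2 (by omega))

/-- getElem of the power pattern -/
theorem powP_get (c : List W) (i : ℕ) (hi : i < (powP c).length) :
    (powP c)[i]? = (rhoP c)[i % (rhoP c).length]? := by
  rw [j9_powP_length] at hi
  exact j9_flat _ _ _ hi

theorem rhoP_length (c : List W) : (rhoP c).length = c.length + 1 := by
  simp [rhoP, j9_tailP_length]

/-- the tuple can be read off the first `c.length` entries of its pattern -/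
theorem rhoP_inj {c c' : List W} (hc : c.length = c'.length)
    (h : ∀ i < c.length, (rhoP c)[i]? = (rhoP c')[i]?) : c = c' := by
  refine List.ext_getElem hc ?_
  intro i
  induction i with
  | zero =>
    intro h1 h2
    have h0 := h 0 h1
    cases c with
    | nil => simp at h1
    | cons a c =>
      cases c' with
      | nil => simp at h2
      | cons a' c' =>
        simp [rhoP] at h0
        simpa using h0
  | succ i ih =>
    intro h1 h2
    have h0 := h (i + 1) h1
    have e := ih (by omega) (by omega)
    simp only [rhoP, List.getElem?_cons_succ] at h0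
    rw [j9_tailP_get c i (by omega) h1, j9_tailP_get c' i (by omega) h2, e] at h0
    simpa using h0

theorem revP_length (u : W) (P : Pat) : (revP u P).2.length = P.length := by
  exact j9_revP_length u P

/-- reading the reversed pattern backwards -/
theorem revP_get (u : W) (P : Pat) (i : ℕ) (hi : i < P.length) :
    ((revP u P).2[P.length - 1 - i]?).map (fun q => q.1) = (P[i]?).map (fun q => Blk.inv q.1) ∧
    (i = 0 → ((revP u P).2[P.length - 1]?).map (fun q => q.2) = some u⁻¹) ∧
    (i + 1 = P.length → (revP u P).1 = ((P[i]?).map (fun q => q.2⁻¹)).getD 1) ∧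
    (i + 1 < P.length → ((revP u P).2[P.length - 2 - i]?).map (fun q => q.2) =
      (P[i]?).map (fun q => q.2⁻¹)) := by
  have hr : ∀ k, k < P.length → (revP u P).2[P.length - 1 - k]? = (revP u P).2.reverse[k]? := by
    intro k hk
    rw [List.getElem?_reverse (by rw [j9_revP_length]; exact hk), j9_revP_length]
  refine ⟨?_, ?_, ?_, ?_⟩
  · rw [hr i hi]; exact j9_A u P i
  · intro h0
    have := hr 0 (by omega)
    rw [Nat.sub_zero] at this
    rw [this]
    cases P with
    | nil => simp at hi
    | cons q P => rw [j9_rev_cons]; simp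
  · intro h0; exact j9_D u P i h0
  · intro h0
    have := hr (i + 1) h0
    have e : P.length - 2 - i = P.length - 1 - (i + 1) := by omega
    rw [e, this]; exact j9_C u P i h0

theorem cyc_period (P : Pat) (hP : P ≠ []) (a : ℤ) : cyc P (a + P.length) = cyc P a := by
  unfold cyc
  rw [Int.add_emod_right]

theorem rcyc_period (P : Pat) (hP : P ≠ []) (a : ℤ) : rcyc P (a + P.length) = rcyc P a := by
  have h1 : ∀ x : ℤ, cyc P (x - P.length) = cyc P x := by
    intro x
    have := cyc_period P hP (x - P.length)
    rw [sub_add_cancel] at this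
    exact this.symm
  unfold rcyc
  have e1 : -(a + (P.length : ℤ)) = -a - P.length := by ring
  have e2 : -(a + (P.length : ℤ)) - 1 = (-a - 1) - P.length := by ring
  rw [e2, e1, h1, h1]

/-- markers of the patterns -/
theorem marker_rhoP (c : List W) (j : ℤ) :
    (cyc (rhoP c) j).1 = (0, true) ↔ ((rhoP c).length : ℤ) ∣ j := by
  exact j9_mk0 (tailP c) ((0, true), c.headD 1) (0, true) rfl (fun r hr => by
    rw [j9_tailP_blk c r hr]; simp) j

theorem marker_patRule (c c' : List W) (z : W) (PP : Pat) (hPP : PP = [] ∨ PP = powP c') (j : ℤ) :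
    (cyc (patRule c z PP) j).1 = (2, true) ↔ ((patRule c z PP).length : ℤ) ∣ j := by
  refine j9_mk0 _ _ (2, true) rfl ?_ j
  intro r hr
  have hP := j9_PP c' PP hPP
  simp only [List.mem_append, List.mem_cons] at hr
  rcases hr with hr | rfl | hr | hr
  · obtain ⟨q', h1, h2⟩ := j9_revP_blk _ _ r hr
    rw [h2]; rcases hP q' h1 with h | h <;> rw [h] <;> simp [Blk.inv]
  · simp
  · obtain ⟨q', h1, h2⟩ := j9_addLast_blk _ _ r hr
    rw [h2]; rcases j9_rhoP_blk c q' h1 with h | h <;> rw [h] <;> simp
  · rcases hP r hr with h | h <;> rw [h] <;> simp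

theorem marker_patF (B : ℕ) (hB : B = 2 ∨ B = 3) (g z : W) (c' : List W) (PP : Pat)
    (hPP : PP = [] ∨ PP = powP c') (j : ℤ) :
    (cyc (patF B g z PP) j).1 = (B, true) ↔ ((patF B g z PP).length : ℤ) ∣ j := by
  refine j9_mk0 _ _ (B, true) rfl ?_ j
  intro r hr
  have hP := j9_PP c' PP hPP
  simp only [List.mem_append, List.mem_cons] at hr
  rcases hr with hr | rfl | hr
  · obtain ⟨q', h1, h2⟩ := j9_revP_blk _ _ r hr
    rw [h2]; rcases hP q' h1 with h | h <;> rw [h] <;> simp [Blk.inv]
  · simp
  · rcases hP r hr with h | h <;> rw [h] <;> rcases hB with rfl | rfl <;> simp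

theorem rmarker_patRule (c c' : List W) (z : W) (PP : Pat) (hPP : PP = [] ∨ PP = powP c') (j : ℤ) :
    (rcyc (patRule c z PP) j).1 = (2, true) ↔
      ((patRule c z PP).length : ℤ) ∣ j + (PP.length + 1) := by
  have hP := j9_PP c' PP hPP
  have key := j9_mk (((2, true), (revP z⁻¹ PP).1) :: (revP z⁻¹ PP).2)
    (addLast (rhoP c) z⁻¹ ++ PP) ((2, false), 1) (2, false) rfl (by
      intro r hr
      simp only [List.mem_cons] at hr
      rcases hr with rfl | hr
      · simp
      · obtain ⟨q', h1, h2⟩ := j9_revP_blk _ _ r hr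
        rw [h2]; rcases hP q' h1 with h | h <;> rw [h] <;> simp [Blk.inv]) (by
      intro r hr
      simp only [List.mem_append] at hr
      rcases hr with hr | hr
      · obtain ⟨q', h1, h2⟩ := j9_addLast_blk _ _ r hr
        rw [h2]; rcases j9_rhoP_blk c q' h1 with h | h <;> rw [h] <;> simp
      · rcases hP r hr with h | h <;> rw [h] <;> simp) (-j)
  have e : (((2, true), (revP z⁻¹ PP).1) :: (revP z⁻¹ PP).2) ++
      ((2, false), 1) :: (addLast (rhoP c) z⁻¹ ++ PP) = patRule c z PP := rfl
  rw [e] at key
  have e2 : (rcyc (patRule c z PP) j).1 = (2, true) ↔ (cyc (patRule c z PP) (-j)).1 = (2, false) := by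
    exact j9_inv_iff _ _
  rw [e2, key]
  have e3 : (-j - (((2, true), (revP z⁻¹ PP).1) :: (revP z⁻¹ PP).2 : Pat).length : ℤ) =
      -(j + (PP.length + 1)) := by
    rw [List.length_cons, j9_revP_length]; push_cast; ring
  rw [e3, dvd_neg]

theorem rmarker_patF (B : ℕ) (hB : B = 2 ∨ B = 3) (g z : W) (c' : List W) (PP : Pat)
    (hPP : PP = [] ∨ PP = powP c') (j : ℤ) :
    (rcyc (patF B g z PP) j).1 = (B, true) ↔
      ((patF B g z PP).length : ℤ) ∣ j + (PP.length + 1) := by
  have hP := j9_PP c' PP hPP
  have key := j9_mk (((B, true), (revP z⁻¹ PP).1) :: (revP z⁻¹ PP).2)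
    PP ((B, false), g * z⁻¹) (B, false) rfl (by
      intro r hr
      simp only [List.mem_cons] at hr
      rcases hr with rfl | hr
      · simp
      · obtain ⟨q', h1, h2⟩ := j9_revP_blk _ _ r hr
        rw [h2]; rcases hP q' h1 with h | h <;> rw [h] <;> rcases hB with rfl | rfl <;>
          simp [Blk.inv]) (by
      intro r hr
      rcases hP r hr with h | h <;> rw [h] <;> simp) (-j)
  have e : (((B, true), (revP z⁻¹ PP).1) :: (revP z⁻¹ PP).2) ++
      ((B, false), g * z⁻¹) :: PP = patF B g z PP := rfl
  rw [e] at key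
  have e2 : (rcyc (patF B g z PP) j).1 = (B, true) ↔ (cyc (patF B g z PP) (-j)).1 = (B, false) := by
    exact j9_inv_iff _ _
  rw [e2, key]
  have e3 : (-j - (((B, true), (revP z⁻¹ PP).1) :: (revP z⁻¹ PP).2 : Pat).length : ℤ) =
      -(j + (PP.length + 1)) := by
    rw [List.length_cons, j9_revP_length]; push_cast; ring
  rw [e3, dvd_neg]


end Pool.Agent.Helper844.FC
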