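import Mathlib
import Pool.Agent.Helper844.FC.RelC
set_option autoImplicit false
namespace Pool.Agent.Helper844.FC

theorem j9d_cyc_of (P : Pat) (a : ℤ) (i : ℕ) (h : a % (P.length : ℤ) = (i : ℤ)) :
    cyc P a = (P[i]?).getD ((0, true), 1) := by
  unfold cyc
  rw [h, Int.toNat_natCast]

theorem j9d_cyc_mem (P : Pat) (a : ℤ) : cyc P a ∈ P ∨ cyc P a = ((0, true), 1) := by
  unfold cyc
  rcases h : P[(a % (P.length : ℤ)).toNat]? with _ | q
  · right; rfl
  · left
    rw [Option.getD_some]
    exact List.mem_of_getElem? h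

theorem j9d_mem_tailP (c : List W) : ∀ q ∈ tailP c, q.1 = (1, true) := by
  induction c with
  | nil => intro q hq; simp [tailP] at hq
  | cons a l ih =>
    cases l with
    | nil => intro q hq; simp [tailP] at hq; rw [hq]
    | cons d r =>
      intro q hq
      rw [tailP, List.mem_cons] at hq
      rcases hq with rfl | hq
      · rfl
      · exact ih q hq

theorem j9d_mem_rhoP (c : List W) : ∀ q ∈ rhoP c, q.1 = (0, true) ∨ q.1 = (1, true) := by
  intro q hq
  rw [rhoP, List.mem_cons] at hq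
  rcases hq with rfl | hq
  · left; rfl
  · right; exact j9d_mem_tailP c q hq

theorem j9d_mem_powP (c : List W) : ∀ q ∈ powP c, q ∈ rhoP c := by
  intro q hq
  rw [powP, List.mem_flatten] at hq
  obtain ⟨l, hl, hq⟩ := hq
  rw [List.eq_of_mem_replicate hl] at hq
  exact hq

theorem j9d_mem_revP (P : Pat) : ∀ u : W, ∀ q ∈ (revP u P).2, ∃ q' ∈ P, q.1 = Blk.inv q'.1 := by
  induction P with
  | nil => intro u q hq; simp [revP] at hq
  | cons a l ih =>
    intro u q hq
    rw [revP, List.mem_append] at hq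
    rcases hq with hq | hq
    · obtain ⟨q', h1, h2⟩ := ih _ q hq
      exact ⟨q', List.mem_cons_of_mem _ h1, h2⟩
    · rw [List.mem_singleton] at hq
      exact ⟨a, List.mem_cons_self, by rw [hq]⟩

theorem j9d_mem_addLast (P : Pat) (g : W) : ∀ q ∈ addLast P g, ∃ q' ∈ P, q.1 = q'.1 := by
  induction P with
  | nil => intro q hq; simp [addLast] at hq
  | cons a l ih =>
    cases l with
    | nil => intro q hq; rw [addLast, List.mem_singleton] at hq; exact ⟨a, List.mem_cons_self, by rw [hq]⟩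
    | cons d r =>
      intro q hq
      rw [addLast, List.mem_cons] at hq
      rcases hq with rfl | hq
      · exact ⟨q, List.mem_cons_self, rfl⟩
      · obtain ⟨q', h1, h2⟩ := ih q hq
        exact ⟨q', List.mem_cons_of_mem _ h1, h2⟩

theorem j9d_mem_PP (c' : List W) (PP : Pat) (hPP : PP = [] ∨ PP = powP c') :
    ∀ q ∈ PP, q.1 = (0, true) ∨ q.1 = (1, true) := by
  intro q hq
  rcases hPP with h | h
  · rw [h] at hq; simp at hq
  · rw [h] at hq; exact j9d_mem_rhoP c' q (j9d_mem_powP c' q hq)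

theorem j9d_mod_succ (b : ℤ) (L p : ℕ) (h : b % (L : ℤ) = p) (hp : p + 1 < L) :
    (b + 1) % (L : ℤ) = ((p + 1 : ℕ) : ℤ) := by
  rw [← Int.emod_add_emod, h]
  rw [Int.emod_eq_of_lt (by positivity) (by exact_mod_cast hp)]
  push_cast; ring

theorem j9d_mod_last (b : ℤ) (L p : ℕ) (h : b % (L : ℤ) = p) (hp : p + 1 = L) :
    (b + 1) % (L : ℤ) = ((0 : ℕ) : ℤ) := by
  rw [← Int.emod_add_emod, h]
  have : ((p : ℤ) + 1) = L := by exact_mod_cast hp
  rw [this]; simp

theorem j9d_mod_pred (b : ℤ) (L p : ℕ) (h : b % (L : ℤ) = ((p + 1 : ℕ) : ℤ)) (hp : p + 1 < L) :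
    (b - 1) % (L : ℤ) = (p : ℤ) := by
  rw [← Int.emod_sub_emod, h]
  push_cast
  rw [add_sub_cancel_right]
  exact Int.emod_eq_of_lt (by positivity) (by omega)

theorem j9d_pow (c' : List W) (k : ℕ) (hk : k = c'.length + 1) (i : ℕ) (hi : i < (powP c').length)
    (x : ℤ) (hx : x = i) : ((powP c')[i]?).getD ((0, true), 1) = cyc (rhoP c') x := by
  have hl : (rhoP c').length = k := by rw [rhoP_length, hk]
  rw [powP_get c' i hi]
  rw [j9d_cyc_of (rhoP c') x (i % (rhoP c').length)]
  rw [hx]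
  push_cast
  rfl


/-- a window of `3k` positive blocks `0,1` in a pattern of the rule form lies in the run `Q ++ PP`
and its last two thirds lie in `PP` -/
theorem run_cyc (k : ℕ) (c' : List W) (hk : k = c'.length + 1) (A Bq : Blk × W) (Rl Q PP : Pat)
    (hA : 2 ≤ A.1.1) (hB : 2 ≤ Bq.1.1) (hR : ∀ q ∈ Rl, q.1.2 = false) (hQ : Q.length ≤ k)
    (hPP : PP = [] ∨ PP = powP c') (b : ℤ)
    (hw : ∀ e : ℕ, e < 3 * k → (cyc (A :: (Rl ++ Bq :: (Q ++ PP))) (b + e)).1.1 ≤ 1 ∧
      (cyc (A :: (Rl ++ Bq :: (Q ++ PP))) (b + e)).1.2 = true) :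
    PP = powP c' ∧ ∃ s : ℤ, ∀ e : ℕ, k ≤ e → e < 3 * k →
      cyc (A :: (Rl ++ Bq :: (Q ++ PP))) (b + e) = cyc (rhoP c') (s + e) := by
  set P2 : Pat := A :: (Rl ++ Bq :: (Q ++ PP)) with hP2
  have hL : P2.length = Rl.length + Q.length + PP.length + 2 := by
    rw [hP2]; simp; omega
  have h0 : P2[0]? = some A := by rw [hP2]; rfl
  have hRl : ∀ i, (hi : i < Rl.length) → P2[i + 1]? = some Rl[i] := by
    intro i hi
    rw [hP2, List.getElem?_cons_succ, List.getElem?_append_left hi, List.getElem?_eq_getElem hi]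
  have hBq : P2[Rl.length + 1]? = some Bq := by
    rw [hP2, List.getElem?_cons_succ, List.getElem?_append_right le_rfl]
    simp
  have hQPP : ∀ i, P2[Rl.length + 2 + i]? = (Q ++ PP)[i]? := by
    intro i
    have h1 : Rl.length + 2 + i = (Rl.length + (i + 1)) + 1 := by omega
    rw [h1, hP2, List.getElem?_cons_succ, List.getElem?_append_right (by omega)]
    rw [Nat.add_sub_cancel_left, List.getElem?_cons_succ]
  have low : ∀ e : ℕ, e < 3 * k → ∀ p : ℕ, (b + e) % (P2.length : ℤ) = p → Rl.length + 2 ≤ p := by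
    intro e he p hp
    obtain ⟨w1, w2⟩ := hw e he
    rw [j9d_cyc_of P2 (b + e) p hp] at w1 w2
    by_contra hlt
    push Not at hlt
    rcases Nat.eq_zero_or_pos p with rfl | hpos
    · rw [h0, Option.getD_some] at w1
      omega
    · rcases Nat.lt_or_ge (p - 1) Rl.length with h2 | h2
      · have h3 := hRl (p - 1) h2
        rw [Nat.sub_add_cancel hpos] at h3
        rw [h3, Option.getD_some, hR _ (List.getElem_mem h2)] at w2
        exact absurd w2 (by decide)
      · have h3 : p = Rl.length + 1 := by omega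
        rw [h3, hBq, Option.getD_some] at w1
        omega
  have hLpos : (0 : ℤ) < (P2.length : ℤ) := by rw [hL]; positivity
  obtain ⟨p0, hp0⟩ : ∃ p0 : ℕ, b % (P2.length : ℤ) = p0 :=
    ⟨(b % (P2.length : ℤ)).toNat, (Int.toNat_of_nonneg (Int.emod_nonneg _ hLpos.ne')).symm⟩
  have hp0L : p0 < P2.length := by
    have := Int.emod_lt_of_pos b hLpos
    rw [hp0] at this
    exact_mod_cast this
  have hk1 : 1 ≤ k := by omega
  have main : ∀ e : ℕ, e < 3 * k → (b + e) % (P2.length : ℤ) = ((p0 + e : ℕ) : ℤ) ∧ p0 + e < P2.length := by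
    intro e
    induction e with
    | zero => intro _; simpa using ⟨hp0, hp0L⟩
    | succ e ih =>
      intro he
      obtain ⟨h1, h2⟩ := ih (by omega)
      rcases Nat.lt_or_ge (p0 + e + 1) P2.length with h3 | h3
      · have h4 := j9d_mod_succ (b + e) _ _ h1 h3
        refine ⟨?_, by omega⟩
        rw [← add_assoc p0, ← h4]
        push_cast
        ring_nf
      · exfalso
        have h4 := j9d_mod_last (b + e) _ _ h1 (by omega)
        have h5 := low (e + 1) he 0 (by rw [← h4]; push_cast; ring_nf)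
        omega
  have hlow0 : Rl.length + 2 ≤ p0 := low 0 (by omega) p0 (by simpa using hp0)
  have hlast := (main (3 * k - 1) (by omega)).2
  have hPPlen : 2 * k ≤ PP.length := by omega
  have hPP' : PP = powP c' := by
    rcases hPP with h | h
    · rw [h, List.length_nil] at hPPlen; omega
    · exact h
  refine ⟨hPP', (p0 : ℤ) - Rl.length - 2 - Q.length, ?_⟩
  intro e hke he
  obtain ⟨h1, h2⟩ := main e he
  rw [j9d_cyc_of P2 (b + e) _ h1]
  obtain ⟨i, hi⟩ : ∃ i, p0 + e = Rl.length + 2 + (Q.length + i) :=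
    ⟨p0 + e - Rl.length - 2 - Q.length, by omega⟩
  rw [hi, hQPP, List.getElem?_append_right (by omega), Nat.add_sub_cancel_left]
  have hiPP : i < PP.length := by omega
  rw [hPP'] at hiPP ⊢
  refine j9d_pow c' k hk i hiPP _ ?_
  have : (p0 : ℤ) + e = Rl.length + 2 + (Q.length + i) := by exact_mod_cast hi
  linarith

/-- the same for the reversed sequence: the window lies in the reversal of `revP u PP` -/
theorem run_rcyc (k : ℕ) (c' : List W) (hk : k = c'.length + 1) (u : W) (A Bq : Blk × W)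
    (QP PP : Pat) (hA : 2 ≤ A.1.1) (hA2 : A.2 = (revP u PP).1) (hB : 2 ≤ Bq.1.1)
    (hQP : ∀ q ∈ QP, q.1.2 = true) (hPP : PP = [] ∨ PP = powP c') (b : ℤ)
    (hw : ∀ e : ℕ, e < 3 * k → (rcyc (A :: ((revP u PP).2 ++ Bq :: QP)) (b + e)).1.1 ≤ 1 ∧
      (rcyc (A :: ((revP u PP).2 ++ Bq :: QP)) (b + e)).1.2 = true) :
    PP = powP c' ∧ ∃ s : ℤ, ∀ e : ℕ, e < 3 * k →
      rcyc (A :: ((revP u PP).2 ++ Bq :: QP)) (b + e) = cyc (rhoP c') (s + e) := by
  set R := (revP u PP).2 with hRdef
  have hRlen : R.length = PP.length := revP_length u PP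
  set P2 : Pat := A :: (R ++ Bq :: QP) with hP2
  have hL : P2.length = PP.length + QP.length + 2 := by
    rw [hP2]; simp [hRlen]; omega
  have h0 : P2[0]? = some A := by rw [hP2]; rfl
  have hRl : ∀ i, i < R.length → P2[i + 1]? = R[i]? := by
    intro i hi
    rw [hP2, List.getElem?_cons_succ, List.getElem?_append_left hi]
  have hBq : P2[R.length + 1]? = some Bq := by
    rw [hP2, List.getElem?_cons_succ, List.getElem?_append_right le_rfl]
    simp
  have hQPP : ∀ i, P2[R.length + 2 + i]? = QP[i]? := by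
    intro i
    have h1 : R.length + 2 + i = (R.length + (i + 1)) + 1 := by omega
    rw [h1, hP2, List.getElem?_cons_succ, List.getElem?_append_right (by omega)]
    rw [Nat.add_sub_cancel_left, List.getElem?_cons_succ]
  have hLpos : (0 : ℤ) < (P2.length : ℤ) := by rw [hL]; positivity
  have rng : ∀ e : ℕ, e < 3 * k → ∀ p : ℕ, (-(b + e)) % (P2.length : ℤ) = p →
      1 ≤ p ∧ p ≤ PP.length := by
    intro e he p hp
    obtain ⟨w1, w2⟩ := hw e he
    have hpL : p < P2.length := by
      have := Int.emod_lt_of_pos (-(b + e)) hLpos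
      rw [hp] at this
      exact_mod_cast this
    unfold rcyc at w1 w2
    simp only [Blk.inv] at w1 w2
    rw [j9d_cyc_of P2 (-(b + e)) p hp] at w1 w2
    constructor
    · by_contra hlt
      have hp0 : p = 0 := by omega
      rw [hp0, h0, Option.getD_some] at w1
      omega
    · by_contra hlt
      push Not at hlt
      rcases Nat.lt_or_ge (R.length + 1) p with h2 | h2
      · obtain ⟨i, hi⟩ : ∃ i, p = R.length + 2 + i := ⟨p - R.length - 2, by omega⟩
        have hi2 : i < QP.length := by omega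
        rw [hi, hQPP, List.getElem?_eq_getElem hi2, Option.getD_some,
          hQP _ (List.getElem_mem hi2)] at w2
        exact absurd w2 (by decide)
      · have h3 : p = R.length + 1 := by omega
        rw [h3, hBq, Option.getD_some] at w1
        omega
  obtain ⟨f0, hf0⟩ : ∃ f0 : ℕ, (-b) % (P2.length : ℤ) = f0 :=
    ⟨((-b) % (P2.length : ℤ)).toNat, (Int.toNat_of_nonneg (Int.emod_nonneg _ hLpos.ne')).symm⟩
  have hk1 : 1 ≤ k := by omega
  have hf0' := rng 0 (by omega) f0 (by simpa using hf0)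
  have main : ∀ e : ℕ, e < 3 * k → e < f0 ∧ (-(b + e)) % (P2.length : ℤ) = ((f0 - e : ℕ) : ℤ) := by
    intro e
    induction e with
    | zero => intro _; exact ⟨by omega, by simpa using hf0⟩
    | succ e ih =>
      intro he
      obtain ⟨h1, h2⟩ := ih (by omega)
      have h3 : f0 - e = (f0 - (e + 1)) + 1 := by omega
      rw [h3] at h2
      have h4 := j9d_mod_pred (-(b + e)) _ _ h2 (by omega)
      have h5 : -(b + ((e + 1 : ℕ) : ℤ)) = -(b + e) - 1 := by push_cast; ring
      rw [← h5] at h4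
      have h6 := rng (e + 1) he _ h4
      exact ⟨by omega, h4⟩
  have hlast := (main (3 * k - 1) (by omega)).1
  have hPP' : PP = powP c' := by
    rcases hPP with h | h
    · rw [h, List.length_nil] at hf0'; omega
    · exact h
  refine ⟨hPP', (PP.length : ℤ) - f0, ?_⟩
  intro e he
  obtain ⟨h1, h2⟩ := main e he
  -- index in `PP`
  obtain ⟨i, hi⟩ : ∃ i, i + (f0 - e) = PP.length := ⟨PP.length - (f0 - e), by omega⟩
  have hiPP : i < PP.length := by omega
  obtain ⟨r1, _, r3, r4⟩ := revP_get u PP i hiPP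
  have hPPi : PP[i]? = some PP[i] := List.getElem?_eq_getElem hiPP
  have hb1 : Blk.inv (cyc P2 (-(b + e))).1 = (PP[i]).1 := by
    rw [j9d_cyc_of P2 _ _ h2]
    have h3 : f0 - e = (PP.length - 1 - i) + 1 := by omega
    rw [h3, hRl _ (by omega)]
    rw [hPPi, Option.map_some, Option.map_eq_some_iff] at r1
    obtain ⟨q, hq1, hq2⟩ := r1
    rw [hq1, Option.getD_some, hq2]
    simp [Blk.inv]
  have hb2 : (cyc P2 (-(b + e) - 1)).2⁻¹ = (PP[i]).2 := by
    obtain ⟨f, hf⟩ : ∃ f, f0 - e = f + 1 := ⟨f0 - e - 1, by omega⟩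
    rw [hf] at h2
    have h4 := j9d_mod_pred (-(b + e)) _ _ h2 (by omega)
    rw [j9d_cyc_of P2 _ _ h4]
    rcases Nat.eq_zero_or_pos f with rfl | hfpos
    · rw [h0, Option.getD_some, hA2, r3 (by omega), hPPi]
      simp
    · have h5 : f = (PP.length - 2 - i) + 1 := by omega
      rw [h5, hRl _ (by omega)]
      have r5 := r4 (by omega)
      rw [hPPi, Option.map_some, Option.map_eq_some_iff] at r5
      obtain ⟨q, hq1, hq2⟩ := r5
      rw [hq1, Option.getD_some, hq2, inv_inv]
  have hr : rcyc P2 (b + e) = PP[i] := by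
    unfold rcyc
    rw [hb1, hb2]
  have hr2 : PP[i] = (PP[i]?).getD ((0, true), 1) := by rw [hPPi, Option.getD_some]
  rw [hr, hr2]
  rw [hPP'] at hiPP ⊢
  refine j9d_pow c' k hk i hiPP _ ?_
  rw [← hPP']
  have h7 : (f0 - e : ℕ) = (f0 : ℤ) - e := by omega
  have h8 : (i : ℤ) + ((f0 - e : ℕ) : ℤ) = PP.length := by exact_mod_cast hi
  rw [h7] at h8
  linarith

/-- two tuples whose periodic patterns agree on two periods are equal -/
theorem rhoP_window (c c' : List W) (hc : c'.length = c.length) (k : ℕ) (hk : k = c.length + 1)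
    (a s : ℤ) (h : ∀ e : ℕ, k ≤ e → e < 3 * k →
      (cyc (rhoP c) (a + e)).1 = (cyc (rhoP c') (s + e)).1 ∧
      (e + 1 < 3 * k → (cyc (rhoP c) (a + e)).2 = (cyc (rhoP c') (s + e)).2)) : c = c' := by
  have hl : (rhoP c).length = k := by rw [rhoP_length, hk]
  have hl' : (rhoP c').length = k := by rw [rhoP_length, hk, hc]
  have hk1 : 1 ≤ k := by omega
  have hkpos : (0 : ℤ) < k := by exact_mod_cast hk1
  obtain ⟨r, hr⟩ : ∃ r : ℕ, (-(s + k)) % (k : ℤ) = r :=
    ⟨((-(s + k)) % (k : ℤ)).toNat, (Int.toNat_of_nonneg (Int.emod_nonneg _ hkpos.ne')).symm⟩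
  have hrk : r < k := by
    have := Int.emod_lt_of_pos (-(s + k)) hkpos
    rw [hr] at this
    exact_mod_cast this
  have hdvd : (k : ℤ) ∣ s + ((k + r : ℕ) : ℤ) := by
    have h1 := Int.emod_add_mul_ediv (-(s + k)) (k : ℤ)
    rw [hr] at h1
    refine ⟨-((-(s + k)) / (k : ℤ)), ?_⟩
    push_cast
    linarith
  have hdvd2 : (k : ℤ) ∣ a + ((k + r : ℕ) : ℤ) := by
    have h1 : (cyc (rhoP c') (s + ((k + r : ℕ) : ℤ))).1 = (0, true) :=
      (marker_rhoP c' _).2 (by rw [hl']; exact hdvd)
    have h2 := (h (k + r) (by omega) (by omega)).1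
    rw [h1] at h2
    have h3 := (marker_rhoP c _).1 h2
    rwa [hl] at h3
  refine rhoP_inj hc.symm ?_
  intro i hi
  obtain ⟨h1, h2⟩ := h (k + r + i) (by omega) (by omega)
  have h3 := h2 (by omega)
  have e1 : (a + ((k + r + i : ℕ) : ℤ)) % ((rhoP c).length : ℤ) = i := by
    rw [hl]
    have : a + ((k + r + i : ℕ) : ℤ) = (a + ((k + r : ℕ) : ℤ)) + i := by push_cast; ring
    rw [this, ← Int.emod_add_emod, Int.emod_eq_zero_of_dvd hdvd2, zero_add]
    exact Int.emod_eq_of_lt (by positivity) (by omega)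
  have e2 : (s + ((k + r + i : ℕ) : ℤ)) % ((rhoP c').length : ℤ) = i := by
    rw [hl']
    have : s + ((k + r + i : ℕ) : ℤ) = (s + ((k + r : ℕ) : ℤ)) + i := by push_cast; ring
    rw [this, ← Int.emod_add_emod, Int.emod_eq_zero_of_dvd hdvd, zero_add]
    exact Int.emod_eq_of_lt (by positivity) (by omega)
  rw [j9d_cyc_of _ _ _ e1, j9d_cyc_of _ _ _ e2] at h1 h3
  have hi1 : i < (rhoP c).length := by omega
  have hi2 : i < (rhoP c').length := by omega
  rw [List.getElem?_eq_getElem hi1, List.getElem?_eq_getElem hi2] at h1 h3 ⊢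
  simp only [Option.getD_some] at h1 h3
  rw [Prod.ext h1 h3]

/-- blocks occurring in the patterns -/
theorem blk_rhoP (c : List W) (j : ℤ) :
    (cyc (rhoP c) j).1 = (0, true) ∨ (cyc (rhoP c) j).1 = (1, true) := by
  rcases j9d_cyc_mem (rhoP c) j with h | h
  · exact j9d_mem_rhoP c _ h
  · rw [h]; left; rfl

theorem blk_patRule (c c' : List W) (z : W) (PP : Pat) (hPP : PP = [] ∨ PP = powP c') (j : ℤ) :
    (cyc (patRule c z PP) j).1.1 ≤ 2 := by
  rcases j9d_cyc_mem (patRule c z PP) j with h | h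
  · generalize cyc (patRule c z PP) j = q at h
    rw [patRule, List.mem_cons, List.mem_append, List.mem_cons, List.mem_append] at h
    rcases h with rfl | h | rfl | h | h
    · exact le_rfl
    · obtain ⟨q', h1, h2⟩ := j9d_mem_revP PP _ q h
      rw [h2]
      rcases j9d_mem_PP c' PP hPP q' h1 with h3 | h3 <;> rw [h3] <;> simp [Blk.inv]
    · exact le_rfl
    · obtain ⟨q', h1, h2⟩ := j9d_mem_addLast _ _ q h
      rw [h2]
      rcases j9d_mem_rhoP c q' h1 with h3 | h3 <;> rw [h3] <;> simp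
    · rcases j9d_mem_PP c' PP hPP q h with h3 | h3 <;> rw [h3] <;> simp
  · rw [h]; simp

theorem blk_patF (B : ℕ) (g z : W) (c' : List W) (PP : Pat) (hPP : PP = [] ∨ PP = powP c')
    (j : ℤ) : (cyc (patF B g z PP) j).1.1 ≤ 1 ∨ (cyc (patF B g z PP) j).1.1 = B := by
  rcases j9d_cyc_mem (patF B g z PP) j with h | h
  · generalize cyc (patF B g z PP) j = q at h
    rw [patF, List.mem_cons, List.mem_append, List.mem_cons] at h
    rcases h with rfl | h | rfl | h
    · right; rfl
    · left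
      obtain ⟨q', h1, h2⟩ := j9d_mem_revP PP _ q h
      rw [h2]
      rcases j9d_mem_PP c' PP hPP q' h1 with h3 | h3 <;> rw [h3] <;> simp [Blk.inv]
    · right; rfl
    · left
      rcases j9d_mem_PP c' PP hPP q h with h3 | h3 <;> rw [h3] <;> simp
  · rw [h]; left; simp

theorem cyc_patH (g : W) (j : ℤ) :
    cyc (patH g) j = ((4 + (j % 1000).toNat, true), if j % 1000 = 999 then g else 1) := by
  have hl : (patH g).length = 1000 := by
    rw [patH, List.length_map, List.length_range]; rfl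
  obtain ⟨p, hp⟩ : ∃ p : ℕ, j % (1000 : ℤ) = p :=
    ⟨(j % (1000 : ℤ)).toNat, (Int.toNat_of_nonneg (Int.emod_nonneg _ (by norm_num))).symm⟩
  have hp1000 : p < 1000 := by
    have := Int.emod_lt_of_pos j (show (0 : ℤ) < 1000 by norm_num)
    rw [hp] at this
    exact_mod_cast this
  have h1 : j % (((patH g).length : ℕ) : ℤ) = p := by rw [hl]; exact_mod_cast hp
  rw [j9d_cyc_of _ _ _ h1, patH, List.getElem?_map, List.getElem?_range (by unfold r0; exact hp1000),
    Option.map_some, Option.getD_some, hp, Int.toNat_natCast]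
  have this : (p = r0 - 1) ↔ ((p : ℤ) = 999) := by
    unfold r0
    constructor
    · intro h; rw [h]; norm_num
    · intro h; have : p = 999 := by exact_mod_cast h
      rw [this]
  rw [if_congr this rfl rfl]


end Pool.Agent.Helper844.FC
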