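import Mathlib
import Pool.Agent.Helper844.FC.RelD
set_option autoImplicit false
namespace Pool.Agent.Helper844.FC


theorem j11961_tailP (c : List W) : ∀ q ∈ tailP c, q.1.2 = true := by
  induction c with
  | nil => intro q hq; simp [tailP] at hq
  | cons c r ih =>
    cases r with
    | nil =>
      intro q hq
      simp only [tailP, List.mem_singleton] at hq
      rw [hq]
    | cons d r =>
      intro q hq
      simp only [tailP, List.mem_cons] at hq
      rcases hq with rfl | hq
      · rfl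
      · exact ih q hq

theorem j11961_rhoP (c : List W) : ∀ q ∈ rhoP c, q.1.2 = true := by
  intro q hq
  simp only [rhoP, List.mem_cons] at hq
  rcases hq with rfl | hq
  · rfl
  · exact j11961_tailP c q hq

theorem j11961_powP (c : List W) : ∀ q ∈ powP c, q.1.2 = true := by
  intro q hq
  simp only [powP, List.mem_flatten, List.mem_replicate] at hq
  obtain ⟨l, ⟨_, rfl⟩, hq⟩ := hq
  exact j11961_rhoP c q hq

theorem j11961_powP_ne (c : List W) : powP c ≠ [] := by
  intro h
  have h1 : (((0, true), c.headD 1) : Blk × W) ∈ powP c := by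
    simp only [powP, List.mem_flatten, List.mem_replicate]
    exact ⟨rhoP c, ⟨by decide, rfl⟩, by simp [rhoP]⟩
  rw [h] at h1
  exact absurd h1 (by simp)

theorem j11961_addLast (g : W) (P : Pat) (hP : ∀ q ∈ P, q.1.2 = true) :
    ∀ q ∈ addLast P g, q.1.2 = true := by
  induction P with
  | nil => intro q hq; simp [addLast] at hq
  | cons p P ih =>
    cases P with
    | nil =>
      intro q hq
      simp only [addLast, List.mem_singleton] at hq
      rw [hq]
      exact hP p (by simp)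
    | cons p' P =>
      intro q hq
      simp only [addLast, List.mem_cons] at hq
      rcases hq with rfl | hq
      · exact hP q (by simp)
      · exact ih (fun x hx => hP x (List.mem_cons_of_mem _ hx)) q hq

theorem j11961_addLast_length (g : W) (P : Pat) : (addLast P g).length = P.length := by
  induction P with
  | nil => rfl
  | cons p P ih =>
    cases P with
    | nil => rfl
    | cons p' P =>
      simp only [addLast, List.length_cons] at ih ⊢
      rw [ih]

theorem j11961_revP (P : Pat) (hP : ∀ q ∈ P, q.1.2 = true) :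
    ∀ u : W, ∀ q ∈ (revP u P).2, q.1.2 = false := by
  induction P with
  | nil => intro u q hq; simp [revP] at hq
  | cons p P ih =>
    intro u q hq
    simp only [revP, List.mem_append, List.mem_singleton] at hq
    rcases hq with hq | rfl
    · exact ih (fun x hx => hP x (List.mem_cons_of_mem _ hx)) _ q hq
    · simp [Blk.inv, hP p (by simp)]

/-- what is needed of the relators of the forms `R, R', F, F'` -/
structure j11961_BT (κ : ℕ) (Tr : Base → List W → Prop) (β : Base) (r : RI) (B : ℕ) : Prop where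
  hB : B = 2 ∨ B = 3
  ne : patOf β r ≠ []
  mark : ∀ j : ℤ, (cyc (patOf β r) j).1 = (B, true) ↔ ((patOf β r).length : ℤ) ∣ j
  rmark : ∃ α : ℤ, ∀ j : ℤ, (rcyc (patOf β r) j).1 = (B, true) ↔
    ((patOf β r).length : ℤ) ∣ j - α
  blk : ∀ j : ℤ, (cyc (patOf β r) j).1.1 ≤ 1 ∨ (cyc (patOf β r) j).1.1 = B
  m : mOf r = mF B
  Rf : ROf β r = 3 * (patOf β r).length
  norun : ∀ c0, Adm κ c0 → Tr β c0 → ∀ a b : ℤ, (∀ e : ℕ, e < 3 * (κ + 1) →
    (cyc (rhoP c0) (a + e)).1 = (cyc (patOf β r) (b + e)).1 ∧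
    (e + 1 < 3 * (κ + 1) → (cyc (rhoP c0) (a + e)).2 = (cyc (patOf β r) (b + e)).2)) → False
  norrun : ∀ c0, Adm κ c0 → Tr β c0 → ∀ a b : ℤ, (∀ e : ℕ, e < 3 * (κ + 1) →
    (cyc (rhoP c0) (a + e)).1 = (rcyc (patOf β r) (b + e)).1 ∧
    (e + 1 < 3 * (κ + 1) → (cyc (rhoP c0) (a + e)).2 = (rcyc (patOf β r) (b + e)).2)) → False

theorem j11961_blk (c0 : List W) (j : ℤ) (b : Blk) (h : (cyc (rhoP c0) j).1 = b) :
    b.1 ≤ 1 ∧ b.2 = true := by
  rcases blk_rhoP c0 j with h1 | h1
  · rw [h1] at h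
    rw [← h]
    exact ⟨by decide, rfl⟩
  · rw [h1] at h
    rw [← h]
    exact ⟨by decide, rfl⟩

theorem j11961_run (κ : ℕ) (Tr : Base → List W → Prop) (β : Base) (B : ℕ) (hB : B = 2 ∨ B = 3)
    (u g : W) (Q PP : Pat) (hQ : Q.length ≤ κ + 1) (c' : List W) (hc' : c'.length = κ)
    (hPP : PP = [] ∨ (PP = powP c' ∧ ¬ Tr β c')) (P : Pat)
    (hP : P = ((B, true), (revP u PP).1) :: ((revP u PP).2 ++ ((B, false), g) :: (Q ++ PP)))
    (c0 : List W) (hc0 : Adm κ c0) (hT : Tr β c0) (a b : ℤ)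
    (hw : ∀ e : ℕ, e < 3 * (κ + 1) → (cyc (rhoP c0) (a + e)).1 = (cyc P (b + e)).1 ∧
      (e + 1 < 3 * (κ + 1) → (cyc (rhoP c0) (a + e)).2 = (cyc P (b + e)).2)) : False := by
  subst hP
  have hB2 : 2 ≤ B := by rcases hB with rfl | rfl <;> norm_num
  have hPP' : PP = [] ∨ PP = powP c' := hPP.imp id fun h => h.1
  have hPPt : ∀ q ∈ PP, q.1.2 = true := by
    rcases hPP' with rfl | rfl
    · simp
    · exact j11961_powP c'
  obtain ⟨h1, s, hs⟩ := run_cyc (κ + 1) c' (by rw [hc']) ((B, true), (revP u PP).1)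
    ((B, false), g) (revP u PP).2 Q PP hB2 hB2 (j11961_revP PP hPPt u) hQ hPP' b
    (fun e he => j11961_blk c0 _ _ (hw e he).1)
  rcases hPP with h2 | ⟨_, h2⟩
  · exact j11961_powP_ne c' (h1.symm.trans h2)
  · have h3 : c0 = c' := by
      refine rhoP_window c0 c' (by rw [hc', hc0.1]) (κ + 1) (by rw [hc0.1]) a s ?_
      intro e he he'
      rw [← hs e he he']
      exact hw e he'
    exact h2 (h3 ▸ hT)

theorem j11961_rrun (κ : ℕ) (Tr : Base → List W → Prop) (β : Base) (B : ℕ) (hB : B = 2 ∨ B = 3)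
    (u g : W) (Q PP : Pat) (hQ : ∀ q ∈ Q, q.1.2 = true) (c' : List W) (hc' : c'.length = κ)
    (hPP : PP = [] ∨ (PP = powP c' ∧ ¬ Tr β c')) (P : Pat)
    (hP : P = ((B, true), (revP u PP).1) :: ((revP u PP).2 ++ ((B, false), g) :: (Q ++ PP)))
    (c0 : List W) (hc0 : Adm κ c0) (hT : Tr β c0) (a b : ℤ)
    (hw : ∀ e : ℕ, e < 3 * (κ + 1) → (cyc (rhoP c0) (a + e)).1 = (rcyc P (b + e)).1 ∧
      (e + 1 < 3 * (κ + 1) → (cyc (rhoP c0) (a + e)).2 = (rcyc P (b + e)).2)) : False := by
  subst hP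
  have hB2 : 2 ≤ B := by rcases hB with rfl | rfl <;> norm_num
  have hPP' : PP = [] ∨ PP = powP c' := hPP.imp id fun h => h.1
  have hPPt : ∀ q ∈ PP, q.1.2 = true := by
    rcases hPP' with rfl | rfl
    · simp
    · exact j11961_powP c'
  obtain ⟨h1, s, hs⟩ := run_rcyc (κ + 1) c' (by rw [hc']) u ((B, true), (revP u PP).1)
    ((B, false), g) (Q ++ PP) PP hB2 rfl hB2 (by
      intro q hq
      rcases List.mem_append.1 hq with h | h
      · exact hQ q h
      · exact hPPt q h) hPP' b
    (fun e he => j11961_blk c0 _ _ (hw e he).1)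
  rcases hPP with h2 | ⟨_, h2⟩
  · exact j11961_powP_ne c' (h1.symm.trans h2)
  · have h3 : c0 = c' := by
      refine rhoP_window c0 c' (by rw [hc', hc0.1]) (κ + 1) (by rw [hc0.1]) a s ?_
      intro e he he'
      rw [← hs e he']
      exact hw e he'
    exact h2 (h3 ▸ hT)

theorem j11961_rule (κ : ℕ) (Tr : Base → List W → Prop) (β : Base) (c z) (PP : Pat) (c' : List W)
    (hc : Adm κ c) (hc' : c'.length = κ) (hPP : PP = [] ∨ (PP = powP c' ∧ ¬ Tr β c')) (r : RI)
    (hr : patOf β r = patRule c z PP) (hm : mOf r = n0)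
    (hR : ROf β r = 3 * (patOf β r).length) : j11961_BT κ Tr β r 2 := by
  have hPP' : PP = [] ∨ PP = powP c' := hPP.imp id fun h => h.1
  refine ⟨Or.inl rfl, ?_, ?_, ?_, ?_, ?_, hR, ?_, ?_⟩
  · rw [hr]
    simp [patRule]
  · rw [hr]
    exact marker_patRule c c' z PP hPP'
  · rw [hr]
    refine ⟨-(PP.length + 1), fun j => ?_⟩
    rw [sub_neg_eq_add]
    exact rmarker_patRule c c' z PP hPP' j
  · rw [hr]
    intro j
    have := blk_patRule c c' z PP hPP' j
    omega
  · rw [hm]
    rfl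
  · rw [hr]
    exact j11961_run κ Tr β 2 (Or.inl rfl) z⁻¹ 1 (addLast (rhoP c) z⁻¹) PP
      (by rw [j11961_addLast_length, rhoP_length, hc.1]) c' hc' hPP _ rfl
  · rw [hr]
    exact j11961_rrun κ Tr β 2 (Or.inl rfl) z⁻¹ 1 (addLast (rhoP c) z⁻¹) PP
      (j11961_addLast _ _ (j11961_rhoP c)) c' hc' hPP _ rfl

theorem j11961_F (κ : ℕ) (Tr : Base → List W → Prop) (β : Base) (B : ℕ) (hB : B = 2 ∨ B = 3) (g z)
    (PP : Pat) (c' : List W)
    (hc' : c'.length = κ) (hPP : PP = [] ∨ (PP = powP c' ∧ ¬ Tr β c')) (r : RI)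
    (hr : patOf β r = patF B g z PP) (hm : mOf r = mF B)
    (hR : ROf β r = 3 * (patOf β r).length) : j11961_BT κ Tr β r B := by
  have hPP' : PP = [] ∨ PP = powP c' := hPP.imp id fun h => h.1
  refine ⟨hB, ?_, ?_, ?_, ?_, hm, hR, ?_, ?_⟩
  · rw [hr]
    simp [patF]
  · rw [hr]
    exact marker_patF B hB g z c' PP hPP'
  · rw [hr]
    refine ⟨-(PP.length + 1), fun j => ?_⟩
    rw [sub_neg_eq_add]
    exact rmarker_patF B hB g z c' PP hPP' j
  · rw [hr]
    exact blk_patF B g z c' PP hPP'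
  · rw [hr]
    exact j11961_run κ Tr β B hB z⁻¹ (g * z⁻¹) [] PP (by simp) c' hc' hPP _ rfl
  · rw [hr]
    exact j11961_rrun κ Tr β B hB z⁻¹ (g * z⁻¹) [] PP (by simp) c' hc' hPP _ rfl

theorem j11961_cases (κ : ℕ) (Tr : Base → List W → Prop) (β : Base) (r : RI)
    (h : Valid κ Tr β r) :
    r = .H ∨ (∃ c, r = .T c ∧ Adm κ c ∧ Tr β c) ∨ ∃ B, j11961_BT κ Tr β r B := by
  cases r with
  | T c => exact Or.inr (Or.inl ⟨c, rfl, h.1, h.2⟩)
  | R c z c' =>
    exact Or.inr (Or.inr ⟨2, j11961_rule κ Tr β c z (powP c') c' h.1 h.2.1.1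
      (Or.inr ⟨rfl, h.2.2.2⟩) _ rfl rfl rfl⟩)
  | R' c z =>
    exact Or.inr (Or.inr ⟨2, j11961_rule κ Tr β c z [] c h.1 h.1.1
      (Or.inl rfl) _ rfl rfl rfl⟩)
  | F B z c' =>
    exact Or.inr (Or.inr ⟨B, j11961_F κ Tr β B h.1 (β.x * β.y) z (powP c') c' h.2.1.1
      (Or.inr ⟨rfl, h.2.2.2⟩) _ rfl rfl rfl⟩)
  | F' B z =>
    exact Or.inr (Or.inr ⟨B, j11961_F κ Tr β B h.1 (β.x * β.y) z [] (List.replicate κ 1)
      (List.length_replicate ..) (Or.inl rfl) _ rfl rfl rfl⟩)
  | H => exact Or.inl rfl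

theorem j11961_hit (a : ℤ) (k : ℕ) (hk : 0 < k) : ∃ e : ℕ, e < 3 * k ∧ (k : ℤ) ∣ a + e := by
  have hk' : (0 : ℤ) < k := by exact_mod_cast hk
  refine ⟨((-a) % (k : ℤ)).toNat, ?_, ?_⟩
  · have h1 := Int.emod_lt_of_pos (-a) hk'
    have h2 := Int.emod_nonneg (-a) hk'.ne'
    omega
  · have h2 := Int.emod_nonneg (-a) hk'.ne'
    rw [Int.toNat_of_nonneg h2]
    have h3 := Int.emod_add_mul_ediv (-a) (k : ℤ)
    exact ⟨-((-a) / (k : ℤ)), by linarith⟩

/-- agreement of the pattern of a valid relator with the pattern of another one on the window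
`ROf` forces agreement everywhere -/
theorem PL1 (κ : ℕ) (hκ : 1 ≤ κ) (Tr : Base → List W → Prop) (β : Base) (r r' : RI)
    (h : Valid κ Tr β r) (h' : Valid κ Tr β r') (a b : ℤ)
    (hw : ∀ e : ℕ, e < ROf β r → (cyc (patOf β r) (a + e)).1 = (cyc (patOf β r') (b + e)).1 ∧
      (e + 1 < ROf β r → (cyc (patOf β r) (a + e)).2 = (cyc (patOf β r') (b + e)).2)) :
    (∀ e : ℤ, cyc (patOf β r) (a + e) = cyc (patOf β r') (b + e)) ∧
      (patOf β r).length = (patOf β r').length ∧ mOf r = mOf r' := by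
  rcases j11961_cases κ Tr β r h with rfl | ⟨c, rfl, hc, hT⟩ | ⟨B, hr⟩
  · -- H
    have h0 := (hw 0 (by show 0 < 3; norm_num)).1
    rw [show patOf β .H = patH (β.x * β.y) from rfl, cyc_patH] at h0
    rcases j11961_cases κ Tr β r' h' with rfl | ⟨c', rfl, hc', hT'⟩ | ⟨B', hr'⟩
    · rw [show patOf β .H = patH (β.x * β.y) from rfl, cyc_patH] at h0
      refine ⟨fun e => ?_, rfl, rfl⟩
      rw [show patOf β .H = patH (β.x * β.y) from rfl, cyc_patH, cyc_patH]
      have h1 : 4 + ((a + ((0 : ℕ) : ℤ)) % 1000).toNat = 4 + ((b + ((0 : ℕ) : ℤ)) % 1000).toNat :=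
        congrArg Prod.fst h0
      have h2 : (a + e) % 1000 = (b + e) % 1000 := by omega
      rw [h2]
    · exfalso
      rcases blk_rhoP c' (b + ((0 : ℕ) : ℤ)) with h1 | h1
      · rw [show patOf β (.T c') = rhoP c' from rfl, h1] at h0
        have := congrArg Prod.fst h0
        simp only at this
        omega
      · rw [show patOf β (.T c') = rhoP c' from rfl, h1] at h0
        have := congrArg Prod.fst h0
        simp only at this
        omega
    · exfalso
      have h1 := hr'.blk (b + ((0 : ℕ) : ℤ))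
      rw [← h0] at h1
      have h2 := hr'.hB
      simp only at h1
      omega
  · -- T
    have hk : (rhoP c).length = κ + 1 := by rw [rhoP_length, hc.1]
    have hRO : ROf β (.T c) = 3 * (κ + 1) := by
      show 3 * (rhoP c).length = _
      rw [hk]
    rw [hRO] at hw
    rcases j11961_cases κ Tr β r' h' with rfl | ⟨c', rfl, hc', hT'⟩ | ⟨B', hr'⟩
    · exfalso
      have h0 := (hw 0 (by omega)).1
      rw [show patOf β .H = patH (β.x * β.y) from rfl, cyc_patH] at h0
      have h1 := (j11961_blk c _ _ h0).1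
      simp only at h1
      omega
    · have hk' : (rhoP c').length = κ + 1 := by rw [rhoP_length, hc'.1]
      have h1 := marker (cyc (rhoP c)) (cyc (rhoP c')) (κ + 1) (κ + 1) (by omega) (by omega)
        (0, true) 0 0 (fun j => by rw [← hk]; exact cyc_period _ (by simp [rhoP]) j)
        (fun j => by rw [← hk']; exact cyc_period _ (by simp [rhoP]) j)
        (fun j => by rw [sub_zero, ← hk]; exact marker_rhoP c j)
        (fun j => by rw [sub_zero, ← hk']; exact marker_rhoP c' j) a b hw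
      exact ⟨h1.1, hk.trans hk'.symm, rfl⟩
    · exact (hr'.norun c hc hT a b hw).elim
  · -- B
    have hkpos : 0 < (patOf β r).length := List.length_pos_iff.2 hr.ne
    obtain ⟨e, he, hde⟩ := j11961_hit a _ hkpos
    have hm := (hr.mark (a + e)).2 hde
    rw [hr.Rf] at hw
    have h0 := (hw e he).1
    rw [hm] at h0
    have hBv := hr.hB
    rcases j11961_cases κ Tr β r' h' with rfl | ⟨c', rfl, hc', hT'⟩ | ⟨B', hr'⟩
    · exfalso
      rw [show patOf β .H = patH (β.x * β.y) from rfl, cyc_patH] at h0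
      have := congrArg Prod.fst h0
      simp only at this
      omega
    · exfalso
      have := (j11961_blk c' _ _ h0.symm).1
      simp only at this
      omega
    · have hBB : B = B' := by
        have h1 := hr'.blk (b + e)
        rw [← h0] at h1
        simp only at h1
        omega
      subst hBB
      have hkpos' : 0 < (patOf β r').length := List.length_pos_iff.2 hr'.ne
      have h1 := marker (cyc (patOf β r)) (cyc (patOf β r')) _ _ hkpos hkpos'
        (B, true) 0 0 (cyc_period _ hr.ne) (cyc_period _ hr'.ne)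
        (fun j => by rw [sub_zero]; exact hr.mark j)
        (fun j => by rw [sub_zero]; exact hr'.mark j) a b hw
      exact ⟨h1.1, h1.2, hr.m.trans hr'.m.symm⟩

/-- the same for the reversed pattern -/
theorem PL2 (κ : ℕ) (hκ : 1 ≤ κ) (Tr : Base → List W → Prop) (β : Base) (r r' : RI)
    (h : Valid κ Tr β r) (h' : Valid κ Tr β r') (a b : ℤ)
    (hw : ∀ e : ℕ, e < ROf β r → (cyc (patOf β r) (a + e)).1 = (rcyc (patOf β r') (b + e)).1 ∧
      (e + 1 < ROf β r → (cyc (patOf β r) (a + e)).2 = (rcyc (patOf β r') (b + e)).2)) :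
    (∀ e : ℤ, cyc (patOf β r) (a + e) = rcyc (patOf β r') (b + e)) ∧
      (patOf β r).length = (patOf β r').length ∧ mOf r = mOf r' := by
  have hrH : ∀ j : ℤ, (rcyc (patOf β .H) j).1 = (4 + ((-j) % 1000).toNat, false) := by
    intro j
    rw [show patOf β .H = patH (β.x * β.y) from rfl, rcyc, cyc_patH]
    rfl
  have hrT : ∀ (c : List W) (j : ℤ), (rcyc (patOf β (.T c)) j).1 = (0, false) ∨
      (rcyc (patOf β (.T c)) j).1 = (1, false) := by
    intro c j
    rw [show patOf β (.T c) = rhoP c from rfl, rcyc]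
    rcases blk_rhoP c (-j) with h1 | h1
    · left
      show Blk.inv (cyc (rhoP c) (-j)).1 = _
      rw [h1]
      rfl
    · right
      show Blk.inv (cyc (rhoP c) (-j)).1 = _
      rw [h1]
      rfl
  have hrB : ∀ (r : RI) (B : ℕ), j11961_BT κ Tr β r B → ∀ j : ℤ,
      (rcyc (patOf β r) j).1.1 ≤ 1 ∨ (rcyc (patOf β r) j).1.1 = B := by
    intro r B hr j
    exact hr.blk (-j)
  rcases j11961_cases κ Tr β r h with rfl | ⟨c, rfl, hc, hT⟩ | ⟨B, hr⟩
  · -- H
    have h0 := (hw 0 (by show 0 < 3; norm_num)).1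
    rw [show patOf β .H = patH (β.x * β.y) from rfl, cyc_patH] at h0
    rcases j11961_cases κ Tr β r' h' with rfl | ⟨c', rfl, hc', hT'⟩ | ⟨B', hr'⟩
    · exfalso
      rw [hrH] at h0
      exact absurd (congrArg Prod.snd h0) (by simp)
    · exfalso
      rcases hrT c' (b + ((0 : ℕ) : ℤ)) with h1 | h1
      · rw [h1] at h0
        exact absurd (congrArg Prod.snd h0) (by simp)
      · rw [h1] at h0
        exact absurd (congrArg Prod.snd h0) (by simp)
    · exfalso
      have h1 := hrB r' B' hr' (b + ((0 : ℕ) : ℤ))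
      rw [← h0] at h1
      have h2 := hr'.hB
      simp only at h1
      omega
  · -- T
    have hk : (rhoP c).length = κ + 1 := by rw [rhoP_length, hc.1]
    have hRO : ROf β (.T c) = 3 * (κ + 1) := by
      show 3 * (rhoP c).length = _
      rw [hk]
    rw [hRO] at hw
    rcases j11961_cases κ Tr β r' h' with rfl | ⟨c', rfl, hc', hT'⟩ | ⟨B', hr'⟩
    · exfalso
      have h0 := (hw 0 (by omega)).1
      rw [hrH] at h0
      have h1 := (j11961_blk c _ _ h0).1
      simp only at h1
      omega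
    · exfalso
      have h0 := (hw 0 (by omega)).1
      have h1 := (j11961_blk c _ _ h0).2
      rcases hrT c' (b + ((0 : ℕ) : ℤ)) with h2 | h2
      · rw [h2] at h1
        exact absurd h1 (by simp)
      · rw [h2] at h1
        exact absurd h1 (by simp)
    · exact (hr'.norrun c hc hT a b hw).elim
  · -- B
    have hkpos : 0 < (patOf β r).length := List.length_pos_iff.2 hr.ne
    obtain ⟨e, he, hde⟩ := j11961_hit a _ hkpos
    have hm := (hr.mark (a + e)).2 hde
    rw [hr.Rf] at hw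
    have h0 := (hw e he).1
    rw [hm] at h0
    have hBv := hr.hB
    rcases j11961_cases κ Tr β r' h' with rfl | ⟨c', rfl, hc', hT'⟩ | ⟨B', hr'⟩
    · exfalso
      rw [hrH] at h0
      exact absurd (congrArg Prod.snd h0) (by simp)
    · exfalso
      rcases hrT c' (b + e) with h2 | h2
      · rw [h2] at h0
        exact absurd (congrArg Prod.snd h0) (by simp)
      · rw [h2] at h0
        exact absurd (congrArg Prod.snd h0) (by simp)
    · have hBB : B = B' := by
        have h1 := hrB r' B' hr' (b + e)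
        rw [← h0] at h1
        simp only at h1
        omega
      subst hBB
      have hkpos' : 0 < (patOf β r').length := List.length_pos_iff.2 hr'.ne
      obtain ⟨α, hα⟩ := hr'.rmark
      have h1 := marker (cyc (patOf β r)) (rcyc (patOf β r')) _ _ hkpos hkpos'
        (B, true) 0 α (cyc_period _ hr.ne) (rcyc_period _ hr'.ne)
        (fun j => by rw [sub_zero]; exact hr.mark j) hα a b hw
      exact ⟨h1.1, h1.2, hr.m.trans hr'.m.symm⟩


end Pool.Agent.Helper844.FC
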