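import Mathlib
import Pool.Agent.Helper844.FC.PatSC
import Pool.Agent.Helper844.FC.RelA
import Pool.Agent.Helper844.FC.RelB
import Pool.Agent.Helper844.FC.RelE
set_option autoImplicit false
namespace Pool.Agent.Helper844.FC


/-- nontrivial elements of the normal closure of the valid relators have length at least 3 -/
theorem rel_len (κ : ℕ) (hκ : 1 ≤ κ) (Tr : Base → List W → Prop) :
    ∀ n ∈ Subgroup.normalClosure {g : W | ∃ β r, Valid κ Tr β r ∧ g = relOf β r}, n ≠ 1 →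
      3 ≤ WL.len n := by
  intro n hn hne
  have key := pat_sc (ι := {p : Base × RI // Valid κ Tr p.1 p.2}) (fun i => i.1.1)
    (fun i => patOf i.1.1 i.1.2) (fun i => mOf i.1.2) (fun i => ROf i.1.1 i.1.2)
    (fun i => patOf_ne _ _) (fun i => patOf_gap κ hκ Tr _ _ i.2)
    (fun i a => patOf_nb κ hκ Tr _ _ i.2 a)
    (fun i => (patOf_m κ hκ Tr _ _ i.2).1) (fun i => (patOf_m κ hκ Tr _ _ i.2).2)
    (by
      rintro ⟨⟨β, r⟩, h⟩ ⟨⟨β', r'⟩, h'⟩ e a b hw
      dsimp only at e h h' hw ⊢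
      subst e
      exact PL1 κ hκ Tr β r r' h h' a b hw)
    (by
      rintro ⟨⟨β, r⟩, h⟩ ⟨⟨β', r'⟩, h'⟩ e a b hw
      dsimp only at e h h' hw ⊢
      subst e
      exact PL2 κ hκ Tr β r r' h h' a b hw)
  refine key n ?_ hne
  refine (Subgroup.normalClosure_le_normal ?_) hn
  rintro _ ⟨β, r, hv, rfl⟩
  obtain ⟨g, hg⟩ := relOf_conj κ hκ Tr β r hv
  rw [hg]
  have hmem : pv β (patOf β r) ^ mOf r ∈ {g : W | ∃ i : {p : Base × RI // Valid κ Tr p.1 p.2},
      g = pv i.1.1 (patOf i.1.1 i.1.2) ^ mOf i.1.2} := ⟨⟨(β, r), hv⟩, rfl⟩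
  exact Subgroup.normalClosure_normal.conj_mem _ (Subgroup.subset_normalClosure hmem) g


end Pool.Agent.Helper844.FC
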