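import Mathlib
set_option autoImplicit false
namespace Pool.Agent.Helper844.FC


/-! ### words -/

/-- A word: a finite string over the alphabet `x_0, x_0⁻¹, x_1, x_1⁻¹, …`; the letter `(i, true)` is
the variable `x_i`, the letter `(i, false)` its formal inverse. -/
abbrev Word := List (ℕ × Bool)

/-- value of a word in a group under an assignment of the variables -/
def wEval {G : Type*} [Group G] (v : ℕ → G) (w : Word) : G :=
  (w.map (fun a => if a.2 then v a.1 else (v a.1)⁻¹)).prod

/-- formal inverse of a word -/
def wInv (w : Word) : Word := (w.map (fun a => (a.1, !a.2))).reverse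

/-- substitution of the words `σ i` for the variables `x_i` -/
def wSubst (σ : ℕ → Word) (w : Word) : Word :=
  w.flatMap (fun a => if a.2 then σ a.1 else wInv (σ a.1))

/-- two words are identically equal on `G` -/
def IdenticallyEqual (G : Type*) [Group G] (u w : Word) : Prop :=
  ∀ v : ℕ → G, wEval v u = wEval v w

/-- the words produced from the list `B` on `G` -/
inductive Produced (G : Type*) [Group G] (B : List Word) : Word → Prop
  | base {w : Word} (h : w ∈ B) : Produced G B w
  | var (i : ℕ) : Produced G B [(i, true)]
  | subst {w : Word} (σ : ℕ → Word) (hw : Produced G B w) (hσ : ∀ i, Produced G B (σ i)) :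
      Produced G B (wSubst σ w)
  | congr {u w : Word} (hu : Produced G B u) (h : IdenticallyEqual G u w) : Produced G B w

/-- every word is expressible on `G` in words of the list `B` -/
def FunctionallyComplete (G : Type*) [Group G] (B : List Word) : Prop :=
  ∀ w : Word, Produced G B w


end Pool.Agent.Helper844.FC
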