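import Mathlib
import Pool.Agent.Helper844.Sys
import Pool.Agent.Helper844.FC.Defs
import Pool.Agent.Helper844.FC.WordDefs
set_option autoImplicit false
namespace Pool.Agent.Helper844.FC

/-- a function given by a produced word -/
def Expr (G : Type*) [Group G] (B : List Word) (f : (ℕ → G) → G) : Prop :=
  ∃ w, Produced G B w ∧ ∀ v, wEval v w = f v



theorem wEval_nil {G : Type*} [Group G] (v : ℕ → G) : wEval v [] = 1 := rfl

theorem wEval_cons {G : Type*} [Group G] (v : ℕ → G) (a : ℕ × Bool) (w : Word) :
    wEval v (a :: w) = (if a.2 then v a.1 else (v a.1)⁻¹) * wEval v w := by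
  simp [wEval]

theorem wEval_append {G : Type*} [Group G] (v : ℕ → G) (u w : Word) :
    wEval v (u ++ w) = wEval v u * wEval v w := by
  simp [wEval]

theorem wEval_inv {G : Type*} [Group G] (v : ℕ → G) (w : Word) :
    wEval v (wInv w) = (wEval v w)⁻¹ := by
  induction w with
  | nil => simp [wInv, wEval]
  | cons a w ih =>
    have : wInv (a :: w) = wInv w ++ [(a.1, !a.2)] := by simp [wInv]
    rw [this, wEval_append, ih, wEval_cons, wEval_cons, wEval_nil]
    rcases a with ⟨i, b⟩
    cases b <;> simp

theorem wEval_subst {G : Type*} [Group G] (v : ℕ → G) (σ : ℕ → Word) (w : Word) :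
    wEval v (wSubst σ w) = wEval (fun i => wEval v (σ i)) w := by
  induction w with
  | nil => simp [wSubst, wEval]
  | cons a w ih =>
    have : wSubst σ (a :: w) = (if a.2 then σ a.1 else wInv (σ a.1)) ++ wSubst σ w := by
      simp [wSubst]
    rw [this, wEval_append, ih, wEval_cons]
    rcases a with ⟨i, b⟩
    cases b <;> simp [wEval_inv]

theorem wEval_map {G H : Type*} [Group G] [Group H] (φ : G →* H) (v : ℕ → G) (w : Word) :
    φ (wEval v w) = wEval (fun i => φ (v i)) w := by
  induction w with
  | nil => simp [wEval]
  | cons a w ih =>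
    rw [wEval_cons, wEval_cons, map_mul, ih]
    rcases a with ⟨i, b⟩
    cases b <;> simp

theorem wEval_toWord {G : Type*} [Group G] (v : ℕ → G) (g : FreeGroup ℕ) :
    wEval v g.toWord = FreeGroup.lift v g := by
  conv_rhs => rw [← FreeGroup.mk_toWord (x := g)]
  rw [FreeGroup.lift_mk]
  unfold wEval
  congr 1
  apply List.map_congr_left
  intro a _
  rcases a with ⟨i, b⟩
  cases b <;> rfl

/-- a set closed under the words of the list is closed under all produced words -/
theorem Produced.closed {G : Type*} [Group G] {B : List Word} (S : Set G)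
    (hS : ∀ w ∈ B, ∀ v : ℕ → G, (∀ i, v i ∈ S) → wEval v w ∈ S) {w : Word}
    (hw : Produced G B w) (v : ℕ → G) (hv : ∀ i, v i ∈ S) : wEval v w ∈ S := by
  induction hw generalizing v with
  | base h => exact hS _ h v hv
  | var i =>
    rw [wEval_cons, wEval_nil]
    simpa using hv i
  | subst σ _ _ ih ih' =>
    rw [wEval_subst]
    exact ih _ (fun i => ih' i v hv)
  | congr _ h ih =>
    rw [← h v]
    exact ih v hv

theorem Expr.var {G : Type*} [Group G] {B : List Word} (i : ℕ) : Expr G B (fun v => v i) :=
  ⟨[(i, true)], Produced.var i, fun v => by rw [wEval_cons, wEval_nil]; simp⟩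

theorem Expr.subst {G : Type*} [Group G] {B : List Word} {f : (ℕ → G) → G} (hf : Expr G B f)
    (g : ℕ → (ℕ → G) → G) (hg : ∀ i, Expr G B (g i)) : Expr G B (fun v => f (fun i => g i v)) := by
  obtain ⟨w, hw, hwf⟩ := hf
  choose σ hσ hσg using hg
  refine ⟨wSubst σ w, Produced.subst σ hw hσ, fun v => ?_⟩
  rw [wEval_subst, hwf]
  congr 1
  funext i
  exact hσg i v

theorem Expr.of_mem {G : Type*} [Group G] {B : List Word} {w : Word} (hw : w ∈ B) :
    Expr G B (fun v => wEval v w) :=
  ⟨w, Produced.base hw, fun _ => rfl⟩

theorem Expr.produced {G : Type*} [Group G] {B : List Word} {w : Word}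
    (h : Expr G B (fun v => wEval v w)) : Produced G B w := by
  obtain ⟨u, hu, h⟩ := h
  exact Produced.congr hu h

/-- inverse and product expressible imply completeness -/
theorem complete_of {G : Type*} [Group G] {B : List Word} (hinv : Expr G B (fun v => (v 0)⁻¹))
    (hmul : Expr G B (fun v => v 0 * v 1)) : FunctionallyComplete G B := by
  have hinv' : ∀ f : (ℕ → G) → G, Expr G B f → Expr G B (fun v => (f v)⁻¹) := fun f hf =>
    hinv.subst (fun _ => f) (fun _ => hf)
  have hmul' : ∀ f g : (ℕ → G) → G, Expr G B f → Expr G B g → Expr G B (fun v => f v * g v) := by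
    intro f g hf hg
    have := hmul.subst (fun i => if i = 0 then f else g) (fun i => by split_ifs <;> assumption)
    simpa using this
  intro w
  apply Expr.produced
  induction w with
  | nil =>
    have := hmul' _ _ (Expr.var (G := G) (B := B) 0) (hinv' _ (Expr.var 0))
    simpa [wEval_nil] using this
  | cons a w ih =>
    simp only [wEval_cons]
    apply hmul' _ _ _ ih
    rcases a with ⟨i, b⟩
    cases b
    · simpa using hinv' _ (Expr.var (G := G) (B := B) i)
    · simpa using Expr.var (G := G) (B := B) i

/-- functional completeness does not depend on the copy of the group -/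
theorem complete_equiv {G H : Type*} [Group G] [Group H] (e : G ≃* H) {B : List Word}
    (h : FunctionallyComplete G B) : FunctionallyComplete H B := by
  intro w
  have key : ∀ u, Produced G B u → Produced H B u := by
    intro u hu
    induction hu with
    | base h => exact Produced.base h
    | var i => exact Produced.var i
    | subst σ _ _ ih ih' => exact Produced.subst σ ih ih'
    | congr _ h ih =>
      refine Produced.congr ih (fun v => ?_)
      have h1 := h (fun i => e.symm (v i))
      have h2 := congrArg e.toMonoidHom h1
      rw [wEval_map, wEval_map] at h2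
      simpa using h2
  exact key w (h w)


end Pool.Agent.Helper844.FC
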