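import Mathlib
import Pool.Agent.Helper844.Sys
import Pool.Agent.Helper844.FC.Pat
import Pool.Agent.Helper844.FC.Block
import Pool.Agent.Helper844.FC.Words
set_option autoImplicit false
namespace Pool.Agent.Helper844.FC

open Pool.Agent.Helper844.Sys


/-! ### tuples -/

/-- the configuration tuple -/
def tup {d : ℕ} {G : Type*} [Group G] (e : ℕ) (x : G) (n : Fin d → G) (q r w : G) : List G :=
  x ^ e :: (List.ofFn n ++ [q, r, w])

/-- the word tested in the last component -/
def wlast {d : ℕ} {G : Type*} [Group G] (Q : Eqn (Fin d)) (x : G) (n : Fin d → G) (r : G) : G :=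
  r ^ Q.e * n Q.k ^ Q.a * n Q.l ^ Q.b * n Q.m ^ Q.c * x ^ Q.d

/-- certificate -/
def cert {G : Type*} [Group G] (c : List G) (x y : G) : G := rho c x y ^ n0

/-- value of a rule -/
def ruleV {G : Type*} [Group G] (cin cout : List G) (z x y : G) : G :=
  (rho cout x y * brk (z⁻¹ * rho cin x y ^ n0) (D 2 x y)) ^ n0

/-- value of a final word -/
def finV {G : Type*} [Group G] (B : ℕ) (cin : List G) (z x y : G) : G :=
  (x * y * brk (z⁻¹ * rho cin x y ^ n0) (D B x y)) ^ mF B



theorem K2_brk_one_left {G : Type*} [Group G] (B : G) : brk 1 B = 1 := by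
  unfold brk
  rw [one_mul, inv_one, mul_one, mul_inv_cancel]

theorem K2_brk_one_right {G : Type*} [Group G] (δ : G) : brk δ 1 = 1 := by
  unfold brk
  rw [mul_one, inv_one, mul_one, mul_inv_cancel]

theorem map_rho {G H : Type*} [Group G] [Group H] (φ : G →* H) (c : List G) (x y : G) :
    φ (rho c x y) = rho (c.map φ) (φ x) (φ y) := by
  unfold rho
  rw [map_mul, map_D, map_list_prod, List.map_map, List.map_map]
  congr 2
  apply List.map_congr_left
  intro u _
  show φ (u * D 1 x y * u⁻¹) = φ u * D 1 (φ x) (φ y) * (φ u)⁻¹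
  rw [map_mul, map_mul, map_D, map_inv]

theorem map_brk {G H : Type*} [Group G] [Group H] (φ : G →* H) (δ B : G) :
    φ (brk δ B) = brk (φ δ) (φ B) := by
  unfold brk
  rw [map_mul, map_mul, map_mul, map_inv, map_inv]

theorem map_hval {G H : Type*} [Group G] [Group H] (φ : G →* H) (x y : G) :
    φ (hval x y) = hval (φ x) (φ y) := by
  unfold hval
  have e : List.map (⇑φ ∘ fun j => D (4 + j) x y) (List.range r0) =
      List.map (fun j => D (4 + j) (φ x) (φ y)) (List.range r0) := by
    apply List.map_congr_left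
    intro j _
    exact map_D φ (4 + j) x y
  rw [map_mul, map_mul, map_list_prod, List.map_map, e]

theorem map_tup {d : ℕ} {G H : Type*} [Group G] [Group H] (φ : G →* H) (e : ℕ) (x : G)
    (n : Fin d → G) (q r w : G) :
    (tup e x n q r w).map φ = tup e (φ x) (fun j => φ (n j)) (φ q) (φ r) (φ w) := by
  unfold tup
  rw [List.map_cons, List.map_append, map_pow, List.map_ofFn]
  rfl

theorem map_wlast {d : ℕ} {G H : Type*} [Group G] [Group H] (φ : G →* H) (Q : Eqn (Fin d)) (x : G)
    (n : Fin d → G) (r : G) :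
    φ (wlast Q x n r) = wlast Q (φ x) (fun j => φ (n j)) (φ r) := by
  unfold wlast
  rw [map_mul, map_mul, map_mul, map_mul, map_zpow, map_zpow, map_zpow, map_zpow, map_zpow]

theorem map_cert {G H : Type*} [Group G] [Group H] (φ : G →* H) (c : List G) (x y : G) :
    φ (cert c x y) = cert (c.map φ) (φ x) (φ y) := by
  unfold cert
  rw [map_pow, map_rho]

theorem map_ruleV {G H : Type*} [Group G] [Group H] (φ : G →* H) (c c' : List G) (z x y : G) :
    φ (ruleV c c' z x y) = ruleV (c.map φ) (c'.map φ) (φ z) (φ x) (φ y) := by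
  unfold ruleV
  rw [map_pow, map_mul, map_rho, map_brk, map_mul, map_inv, map_pow, map_rho, map_D]

theorem map_finV {G H : Type*} [Group G] [Group H] (φ : G →* H) (B : ℕ) (c : List G) (z x y : G) :
    φ (finV B c z x y) = finV B (c.map φ) (φ z) (φ x) (φ y) := by
  unfold finV
  rw [map_pow, map_mul, map_mul, map_brk, map_mul, map_inv, map_pow, map_rho, map_D]

/-- when the input certificate is correct, the rule gives the output certificate -/
theorem ruleV_cert {G : Type*} [Group G] (c c' : List G) (x y : G) :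
    ruleV c c' (cert c x y) x y = cert c' x y := by
  unfold ruleV cert
  rw [inv_mul_cancel, K2_brk_one_left, mul_one]

theorem finV_cert {G : Type*} [Group G] (B : ℕ) (c : List G) (x y : G) :
    finV B c (cert c x y) x y = (x * y) ^ mF B := by
  unfold finV cert
  rw [inv_mul_cancel, K2_brk_one_left, mul_one]

theorem rho_comm {G : Type*} [Group G] (c : List G) (x y : G) (h : x * y = y * x) :
    rho c x y = 1 := by
  unfold rho
  rw [D_comm 0 x y h, D_comm 1 x y h, one_mul]
  apply List.prod_eq_one
  intro u hu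
  rw [List.mem_map] at hu
  obtain ⟨v, -, rfl⟩ := hu
  rw [mul_one, mul_inv_cancel]

theorem ruleV_comm {G : Type*} [Group G] (c c' : List G) (z x y : G) (h : x * y = y * x) :
    ruleV c c' z x y = 1 := by
  unfold ruleV
  rw [rho_comm c' x y h, D_comm 2 x y h, K2_brk_one_right, one_mul, one_pow]

theorem finV_comm {G : Type*} [Group G] (B : ℕ) (c : List G) (z x y : G) (h : x * y = y * x) :
    finV B c z x y = (x * y) ^ mF B := by
  unfold finV
  rw [D_comm B x y h, K2_brk_one_right, mul_one]

theorem hval_comm {G : Type*} [Group G] (x y : G) (h : x * y = y * x) : hval x y = x * y := by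
  unfold hval
  rw [List.prod_eq_one, mul_one]
  intro u hu
  rw [List.mem_map] at hu
  obtain ⟨j, -, rfl⟩ := hu
  exact D_comm (4 + j) x y h

theorem tup_length {d : ℕ} {G : Type*} [Group G] (e : ℕ) (x : G) (n : Fin d → G) (q r w : G) :
    (tup e x n q r w).length = d + 4 := by
  unfold tup
  rw [List.length_cons, List.length_append, List.length_ofFn]
  rfl

theorem tup_inj {d : ℕ} {G : Type*} [Group G] {e e' : ℕ} {x : G} {n n' : Fin d → G}
    {q r w q' r' w' : G} (h : tup e x n q r w = tup e' x n' q' r' w') :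
    x ^ e = x ^ e' ∧ n = n' ∧ q = q' ∧ r = r' ∧ w = w' := by
  unfold tup at h
  obtain ⟨h1, h2⟩ := List.cons.inj h
  obtain ⟨h3, h4⟩ := List.append_inj h2 (by rw [List.length_ofFn, List.length_ofFn])
  obtain ⟨h5, h6⟩ := List.cons.inj h4
  obtain ⟨h7, h8⟩ := List.cons.inj h6
  obtain ⟨h9, -⟩ := List.cons.inj h8
  exact ⟨h1, List.ofFn_injective h3, h5, h7, h9⟩

theorem mem_tup {d : ℕ} {G : Type*} [Group G] {e : ℕ} {x : G} {n : Fin d → G} {q r w u : G}
    (h : u ∈ tup e x n q r w) : u = x ^ e ∨ (∃ j, u = n j) ∨ u = q ∨ u = r ∨ u = w := by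
  unfold tup at h
  rw [List.mem_cons, List.mem_append, List.mem_ofFn] at h
  rcases h with h | ⟨j, h⟩ | h
  · exact Or.inl h
  · exact Or.inr (Or.inl ⟨j, h.symm⟩)
  · right; right
    simpa using h


end Pool.Agent.Helper844.FC
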