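import Mathlib
import Pool.Agent.Helper844.Sys
import Pool.Agent.Helper844.FC.Tup
set_option autoImplicit false
namespace Pool.Agent.Helper844.FC

open Pool.Agent.Helper844.Sys

/-- the true tuples -/
def TrS {d : ℕ} (eqs : List (Eqn (Fin d))) (β : Base) (c : List W) : Prop :=
  ∃ (e : ℕ) (n : Fin d → W) (t : ℤ) (rr : W), c = tup e β.x n (β.x ^ t) rr 1 ∧
    (∀ Q, eqs[e]? = some Q → rr = n Q.i ^ t) ∧
    (∀ e' < e, ∀ Q, eqs[e']? = some Q →
      ∃ t' : ℤ, n Q.j = β.x ^ t' ∧ wlast Q β.x n (n Q.i ^ t') = 1)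

/-- the list of equations, preceded by trivial equations testing that each component is a power
of `x` -/
def extL {d : ℕ} (L : List (Eqn (Fin d))) : List (Eqn (Fin d)) :=
  (List.finRange d).map (fun v => ⟨v, v, v, v, v, 0, 0, 0, 0, 0⟩) ++ L



theorem letter_inj {b : Bool} {k l : ℤ} (h : letter b k = letter b l) : k = l := by
  have h1 := Monoid.CoprodI.of_injective (M := fun _ : Bool => Multiplicative ℤ) b h
  exact Multiplicative.ofAdd.injective h1

theorem letter_zpow (b : Bool) (k : ℤ) (n : ℤ) : letter b k ^ n = letter b (k * n) := by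
  unfold letter
  rw [← map_zpow, ← ofAdd_zsmul, smul_eq_mul, mul_comm]

/-- `β.x` has infinite order -/
theorem Base.x_zpow_inj (β : Base) {k l : ℤ} (h : β.x ^ k = β.x ^ l) : k = l := by
  unfold Base.x at h
  rw [letter_zpow, letter_zpow] at h
  exact mul_left_cancel₀ β.hs (letter_inj h)

theorem Base.x_pow_inj (β : Base) {k l : ℕ} (h : β.x ^ k = β.x ^ l) : k = l := by
  have h1 : β.x ^ (k : ℤ) = β.x ^ (l : ℤ) := by
    rw [zpow_natCast, zpow_natCast, h]
  exact_mod_cast β.x_zpow_inj h1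

theorem TrS_start {d : ℕ} (eqs : List (Eqn (Fin d))) (β : Base) (n : Fin d → W) :
    TrS eqs β (tup 0 β.x n 1 1 1) := by
  refine ⟨0, n, 0, 1, by rw [zpow_zero], fun Q _ => by rw [zpow_zero], fun e' he' => ?_⟩
  exact absurd he' (Nat.not_lt_zero _)

theorem TrS_up {d : ℕ} {eqs : List (Eqn (Fin d))} {β : Base} {e : ℕ} {Q : Eqn (Fin d)}
    (hQ : eqs[e]? = some Q) {n : Fin d → W} {q r : W} (h : TrS eqs β (tup e β.x n q r 1)) :
    TrS eqs β (tup e β.x n (q * β.x) (r * n Q.i) 1) := by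
  obtain ⟨e', n', t, rr, hc, h1, h2⟩ := h
  obtain ⟨he, hn, hq, hr, -⟩ := tup_inj hc
  have he := β.x_pow_inj he
  subst he hn hq hr
  refine ⟨e, n, t + 1, r * n Q.i, by rw [zpow_add_one], fun Q' hQ' => ?_, h2⟩
  have hQQ : Q' = Q := by
    rw [hQ] at hQ'
    exact (Option.some.inj hQ').symm
  subst hQQ
  rw [zpow_add_one, h1 Q' hQ]

theorem TrS_down {d : ℕ} {eqs : List (Eqn (Fin d))} {β : Base} {e : ℕ} {Q : Eqn (Fin d)}
    (hQ : eqs[e]? = some Q) {n : Fin d → W} {q r : W} (h : TrS eqs β (tup e β.x n q r 1)) :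
    TrS eqs β (tup e β.x n (q * β.x⁻¹) (r * (n Q.i)⁻¹) 1) := by
  obtain ⟨e', n', t, rr, hc, h1, h2⟩ := h
  obtain ⟨he, hn, hq, hr, -⟩ := tup_inj hc
  have he := β.x_pow_inj he
  subst he hn hq hr
  refine ⟨e, n, t - 1, r * (n Q.i)⁻¹, by rw [zpow_sub_one], fun Q' hQ' => ?_, h2⟩
  have hQQ : Q' = Q := by
    rw [hQ] at hQ'
    exact (Option.some.inj hQ').symm
  subst hQQ
  rw [zpow_sub_one, h1 Q' hQ]

theorem TrS_next {d : ℕ} {eqs : List (Eqn (Fin d))} {β : Base} {e : ℕ} {Q : Eqn (Fin d)}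
    (hQ : eqs[e]? = some Q) {n : Fin d → W} {r : W}
    (h : TrS eqs β (tup e β.x n (n Q.j) r (wlast Q β.x n r))) :
    TrS eqs β (tup (e + 1) β.x n 1 1 1) := by
  obtain ⟨e', n', t, rr, hc, h1, h2⟩ := h
  obtain ⟨he, hn, hq, hr, hw⟩ := tup_inj hc
  have he := β.x_pow_inj he
  subst he hn hr
  refine ⟨e + 1, n, 0, 1, by rw [zpow_zero], fun Q' _ => by rw [zpow_zero], ?_⟩
  intro e2 he2 Q' hQ'
  rcases Nat.lt_succ_iff_lt_or_eq.1 he2 with hlt | heq
  · exact h2 e2 hlt Q' hQ'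
  · subst heq
    have hQQ : Q' = Q := by
      rw [hQ] at hQ'
      exact (Option.some.inj hQ').symm
    subst hQQ
    refine ⟨t, hq, ?_⟩
    rw [← h1 Q' hQ]
    exact hw

/-- a true final tuple gives a solution of the system -/
theorem TrS_final {d : ℕ} {L : List (Eqn (Fin d))} {β : Base} {n : Fin d → W} {q r w : W}
    (h : TrS (extL L) β (tup (extL L).length β.x n q r w)) :
    ∃ z : Fin d → ℤ, (∀ j, n j = β.x ^ z j) ∧ ∀ Q ∈ L, Q.Holds z := by
  obtain ⟨e', n', t, rr, hc, -, h2⟩ := h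
  obtain ⟨he, hn, -, -, -⟩ := tup_inj hc
  have he := β.x_pow_inj he
  subst hn
  rw [← he] at h2
  have hlen : (extL L).length = d + L.length := by
    simp [extL]
  have hv : ∀ v : Fin d, ∃ t' : ℤ, n v = β.x ^ t' := by
    intro v
    have hv1 : (extL L)[(v : ℕ)]? = some ⟨v, v, v, v, v, 0, 0, 0, 0, 0⟩ := by
      unfold extL
      rw [List.getElem?_append_left (by simp)]
      simp
    obtain ⟨t', ht', -⟩ := h2 v (by rw [hlen]; omega) _ hv1
    exact ⟨t', ht'⟩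
  choose z hz using hv
  refine ⟨z, hz, fun Q hQ => ?_⟩
  obtain ⟨i, hi⟩ := List.mem_iff_getElem?.1 hQ
  have hi' : i < L.length := by
    by_contra hcon
    rw [List.getElem?_eq_none (not_lt.1 hcon)] at hi
    exact absurd hi (by simp)
  have hQ1 : (extL L)[d + i]? = some Q := by
    unfold extL
    rw [List.getElem?_append_right (by simp)]
    simpa using hi
  obtain ⟨t', ht', hw⟩ := h2 (d + i) (by rw [hlen]; omega) _ hQ1
  have hj : t' = z Q.j := β.x_zpow_inj (by rw [← ht', hz])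
  subst hj
  unfold wlast at hw
  rw [hz Q.i, hz Q.k, hz Q.l, hz Q.m] at hw
  rw [← zpow_mul, ← zpow_mul, ← zpow_mul, ← zpow_mul, ← zpow_mul, ← zpow_add, ← zpow_add,
    ← zpow_add, ← zpow_add, ← zpow_zero β.x] at hw
  have := β.x_zpow_inj hw
  unfold Eqn.Holds
  linarith [mul_comm (z Q.i * z Q.j) Q.e, mul_comm (z Q.k) Q.a, mul_comm (z Q.l) Q.b,
    mul_comm (z Q.m) Q.c]

theorem extL_holds {d : ℕ} {L : List (Eqn (Fin d))} {z : Fin d → ℤ} (h : ∀ Q ∈ L, Q.Holds z) :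
    ∀ Q ∈ extL L, Q.Holds z := by
  intro Q hQ
  unfold extL at hQ
  rcases List.mem_append.1 hQ with hQ | hQ
  · obtain ⟨v, -, rfl⟩ := List.mem_map.1 hQ
    simp [Eqn.Holds]
  · exact h Q hQ


end Pool.Agent.Helper844.FC
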