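import Mathlib
import Pool.Agent.Helper844.Sys
import Pool.Agent.Helper844.FC.True
import Pool.Agent.Helper844.FC.RelF
set_option autoImplicit false
namespace Pool.Agent.Helper844.FC

open Pool.Agent.Helper844.Sys

/-- the normal subgroup generated by the valid relators -/
def NR (κ : ℕ) (Tr : Base → List W → Prop) : Subgroup W :=
  Subgroup.normalClosure {g : W | ∃ β r, Valid κ Tr β r ∧ g = relOf β r}

instance (κ : ℕ) (Tr : Base → List W → Prop) : (NR κ Tr).Normal := by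
  unfold NR; infer_instance

/-- the image of the two factors in the quotient -/
def SS (κ : ℕ) (Tr : Base → List W → Prop) : Set (W ⧸ NR κ Tr) :=
  (QuotientGroup.mk' (NR κ Tr)) '' Fac



theorem one_mem_fac : (1 : W) ∈ Fac := ⟨true, 0, (letter_zero true).symm⟩

theorem fac_inv {x : W} (hx : x ∈ Fac) : x⁻¹ ∈ Fac := by
  obtain ⟨b, k, rfl⟩ := hx
  exact ⟨b, -k, letter_inv b k⟩

theorem fac_pow {x : W} (hx : x ∈ Fac) (n : ℕ) : x ^ n ∈ Fac := by
  obtain ⟨b, k, rfl⟩ := hx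
  exact ⟨b, _, letter_pow b k n⟩

theorem fac_zpow {x : W} (hx : x ∈ Fac) (n : ℤ) : x ^ n ∈ Fac := by
  cases n with
  | ofNat n => rw [Int.ofNat_eq_natCast, zpow_natCast]; exact fac_pow hx n
  | negSucc n => rw [zpow_negSucc]; exact fac_inv (fac_pow hx _)

theorem base_x_fac (β : Base) : β.x ∈ Fac := ⟨β.b, β.s, rfl⟩

theorem fac_cases {x y : W} (hx : x ∈ Fac) (hy : y ∈ Fac) :
    (x * y = y * x ∧ x * y ∈ Fac) ∨ ∃ β : Base, β.x = x ∧ β.y = y := by
  obtain ⟨b, k, rfl⟩ := hx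
  obtain ⟨c, l, rfl⟩ := hy
  by_cases hk : k = 0
  · left
    subst hk
    rw [letter_zero, one_mul, mul_one]
    exact ⟨rfl, c, l, rfl⟩
  by_cases hl : l = 0
  · left
    subst hl
    rw [letter_zero, one_mul, mul_one]
    exact ⟨rfl, b, k, rfl⟩
  by_cases hc : c = b
  · left
    subst hc
    rw [letter_mul, letter_mul]
    exact ⟨by rw [add_comm], c, _, rfl⟩
  · right
    have hcb : c = !b := by cases b <;> cases c <;> simp_all
    exact ⟨⟨b, k, l, hk, hl⟩, rfl, by rw [hcb]; rfl⟩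

theorem adm_tup {d : ℕ} {e : ℕ} {x : W} {n : Fin d → W} {q r w : W} (hx : x ∈ Fac)
    (hn : ∀ j, n j ∈ Fac) (hq : WL.len q ≤ 5) (hr : WL.len r ≤ 5) (hw : WL.len w ≤ 5) :
    Adm (d + 4) (tup e x n q r w) := by
  refine ⟨tup_length e x n q r w, fun u hu => ?_⟩
  rcases mem_tup hu with rfl | ⟨j, rfl⟩ | rfl | rfl | rfl
  · exact (WL_fac (fac_pow hx e)).trans (by norm_num)
  · exact (WL_fac (hn j)).trans (by norm_num)
  · exact hq
  · exact hr
  · exact hw

theorem len_wlast {d : ℕ} (Q : Eqn (Fin d)) {x : W} {n : Fin d → W} {r : W} (hx : x ∈ Fac)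
    (hn : ∀ j, n j ∈ Fac) (hr : r ∈ Fac) : WL.len (wlast Q x n r) ≤ 5 := by
  unfold wlast
  have h1 := WL_mul_le (r ^ Q.e * n Q.k ^ Q.a * n Q.l ^ Q.b * n Q.m ^ Q.c) (x ^ Q.d)
  have h2 := WL_mul_le (r ^ Q.e * n Q.k ^ Q.a * n Q.l ^ Q.b) (n Q.m ^ Q.c)
  have h3 := WL_mul_le (r ^ Q.e * n Q.k ^ Q.a) (n Q.l ^ Q.b)
  have h4 := WL_mul_le (r ^ Q.e) (n Q.k ^ Q.a)
  have g1 := WL_fac (fac_zpow hx Q.d)
  have g2 := WL_fac (fac_zpow (hn Q.m) Q.c)
  have g3 := WL_fac (fac_zpow (hn Q.l) Q.b)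
  have g4 := WL_fac (fac_zpow (hn Q.k) Q.a)
  have g5 := WL_fac (fac_zpow hr Q.e)
  omega

theorem rel_one (κ : ℕ) (Tr : Base → List W → Prop) (β : Base) (r : RI)
    (h : Valid κ Tr β r) : QuotientGroup.mk' (NR κ Tr) (relOf β r) = 1 := by
  have : relOf β r ∈ NR κ Tr := Subgroup.subset_normalClosure ⟨β, r, h, rfl⟩
  exact (QuotientGroup.eq_one_iff _).mpr this

theorem one_mem_SS (κ : ℕ) (Tr : Base → List W → Prop) : (1 : W ⧸ NR κ Tr) ∈ SS κ Tr :=
  ⟨1, one_mem_fac, map_one _⟩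

theorem cl_cert (κ : ℕ) (Tr : Base → List W → Prop) {c : List W} {x y : W} (hx : x ∈ Fac)
    (hy : y ∈ Fac) (hc : Adm κ c) (hT : ∀ β : Base, β.x = x → β.y = y → Tr β c) :
    QuotientGroup.mk' (NR κ Tr) (cert c x y) ∈ SS κ Tr := by
  rcases fac_cases hx hy with ⟨h1, -⟩ | ⟨β, rfl, rfl⟩
  · rw [cert, rho_comm c x y h1, one_pow, map_one]
    exact one_mem_SS κ Tr
  · have h := rel_one κ Tr β (.T c) ⟨hc, hT β rfl rfl⟩
    have h' : QuotientGroup.mk' (NR κ Tr) (cert c β.x β.y) = 1 := h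
    rw [h']
    exact one_mem_SS κ Tr

theorem cl_rule (κ : ℕ) (Tr : Base → List W → Prop) {c c' : List W} {x y z : W} (hx : x ∈ Fac)
    (hy : y ∈ Fac) (hz : z ∈ Fac) (hc : Adm κ c) (hc' : Adm κ c')
    (hT : ∀ β : Base, β.x = x → β.y = y → Tr β c → Tr β c') :
    QuotientGroup.mk' (NR κ Tr) (ruleV c c' z x y) ∈ SS κ Tr := by
  rcases fac_cases hx hy with ⟨h1, -⟩ | ⟨β, rfl, rfl⟩
  · rw [ruleV_comm c c' z x y h1, map_one]
    exact one_mem_SS κ Tr
  · by_cases ht : Tr β c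
    · have ht' := hT β rfl rfl ht
      have e1 := rel_one κ Tr β (.T c) ⟨hc, ht⟩
      have e2 := rel_one κ Tr β (.T c') ⟨hc', ht'⟩
      simp only [relOf, map_pow] at e1 e2
      have e3 : QuotientGroup.mk' (NR κ Tr) (ruleV c c' z β.x β.y) = 1 := by
        by_cases hz1 : z = 1
        · subst hz1
          simp only [ruleV, map_pow, map_mul, map_brk, map_inv]
          rw [e1]
          simp only [map_one, inv_one, mul_one, brk, one_mul, mul_inv_cancel]
          exact e2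
        · have e4 := rel_one κ Tr β (.R' c' z) ⟨hc', hz, hz1⟩
          simp only [relOf, map_pow, map_mul, map_brk, map_inv] at e4
          simp only [ruleV, map_pow, map_mul, map_brk, map_inv]
          rw [e1, mul_one]
          exact e4
      rw [e3]
      exact one_mem_SS κ Tr
    · have h := rel_one κ Tr β (.R c' z c) ⟨hc', hc, hz, ht⟩
      have h' : QuotientGroup.mk' (NR κ Tr) (ruleV c c' z β.x β.y) = 1 := h
      rw [h']
      exact one_mem_SS κ Tr

theorem cl_fin (κ : ℕ) (Tr : Base → List W → Prop) {B : ℕ} (hB : B = 2 ∨ B = 3) {c : List W}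
    {x y z : W} (hx : x ∈ Fac) (hy : y ∈ Fac) (hz : z ∈ Fac) (hc : Adm κ c)
    (hT : ∀ β : Base, β.x = x → β.y = y → ¬ Tr β c) :
    QuotientGroup.mk' (NR κ Tr) (finV B c z x y) ∈ SS κ Tr := by
  rcases fac_cases hx hy with ⟨h1, h2⟩ | ⟨β, rfl, rfl⟩
  · rw [finV_comm B c z x y h1]
    exact ⟨_, fac_pow h2 (mF B), rfl⟩
  · have h := rel_one κ Tr β (.F B z c) ⟨hB, hc, hz, hT β rfl rfl⟩
    have h' : QuotientGroup.mk' (NR κ Tr) (finV B c z β.x β.y) = 1 := h
    rw [h']
    exact one_mem_SS κ Tr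

theorem cl_h (κ : ℕ) (Tr : Base → List W → Prop) {x y : W} (hx : x ∈ Fac) (hy : y ∈ Fac) :
    QuotientGroup.mk' (NR κ Tr) (hval x y) ∈ SS κ Tr := by
  rcases fac_cases hx hy with ⟨h1, h2⟩ | ⟨β, rfl, rfl⟩
  · rw [hval_comm x y h1]
    exact ⟨_, h2, rfl⟩
  · have h := rel_one κ Tr β .H trivial
    have h' : QuotientGroup.mk' (NR κ Tr) (hval β.x β.y) = 1 := h
    rw [h']
    exact one_mem_SS κ Tr

/-- the projection to a factor -/
noncomputable def prj (b : Bool) : W →* Multiplicative ℤ :=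
  Monoid.CoprodI.lift (M := fun _ : Bool => Multiplicative ℤ)
    (fun i => if i = b then MonoidHom.id (Multiplicative ℤ) else 1)

theorem prj_letter (b c : Bool) (k : ℤ) :
    prj b (letter c k) = if c = b then Multiplicative.ofAdd k else 1 := by
  unfold prj letter
  rw [Monoid.CoprodI.lift_of]
  split_ifs <;> rfl

theorem ab_not_mem (κ : ℕ) (hκ : 1 ≤ κ) (Tr : Base → List W → Prop) :
    QuotientGroup.mk' (NR κ Tr) (letter true 1 * letter false 1) ∉ SS κ Tr := by
  rintro ⟨s, ⟨c, k, rfl⟩, hs⟩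
  have h1 : (letter c k)⁻¹ * (letter true 1 * letter false 1) ∈ NR κ Tr :=
    QuotientGroup.eq.mp hs
  have key : ∀ (p q : ℤ), (p ≠ 0 ∨ q ≠ 0) → letter true p * letter false q ∉ NR κ Tr := by
    intro p q hpq hmem
    have h2 := rel_len κ hκ Tr _ hmem (by
      intro he
      rcases hpq with hp | hq
      · have h := congrArg (prj true) he
        rw [map_mul, map_one, prj_letter, prj_letter, if_pos rfl, if_neg (by decide),
          mul_one] at h
        exact hp (ofAdd_eq_one.mp h)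
      · have h := congrArg (prj false) he
        rw [map_mul, map_one, prj_letter, prj_letter, if_neg (by decide), if_pos rfl,
          one_mul] at h
        exact hq (ofAdd_eq_one.mp h))
    have h3 := WL_mul_le (letter true p) (letter false q)
    have h4 := WL_fac (z := letter true p) ⟨_, _, rfl⟩
    have h5 := WL_fac (z := letter false q) ⟨_, _, rfl⟩
    omega
  cases c
  · have h2 := (inferInstance : (NR κ Tr).Normal).conj_mem _ h1 (letter false k)
    rw [mul_inv_cancel_left, mul_assoc, letter_inv, letter_mul] at h2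
    exact key 1 _ (Or.inl one_ne_zero) h2
  · rw [letter_inv, ← mul_assoc, letter_mul] at h1
    exact key _ 1 (Or.inr one_ne_zero) h1


end Pool.Agent.Helper844.FC
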