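import Mathlib
import Pool.Agent.Helper844.Sys
import Pool.Agent.Helper844.FC.Tup
set_option autoImplicit false
namespace Pool.Agent.Helper844.FC

open Pool.Agent.Helper844.Sys


/-! ### the lists of words -/

/-- generators of the free group -/
def X (i : ℕ) : FreeGroup ℕ := FreeGroup.of i

def nv (d : ℕ) (j : Fin d) : FreeGroup ℕ := X (5 + j)

def startG (d : ℕ) : FreeGroup ℕ :=
  cert (tup 0 (X 0) (nv d) 1 1 1) (X 0) (X 1)

def upG {d : ℕ} (e : ℕ) (Q : Eqn (Fin d)) : FreeGroup ℕ :=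
  ruleV (tup e (X 0) (nv d) (X 3) (X 4) 1) (tup e (X 0) (nv d) (X 3 * X 0) (X 4 * nv d Q.i) 1)
    (X 2) (X 0) (X 1)

def downG {d : ℕ} (e : ℕ) (Q : Eqn (Fin d)) : FreeGroup ℕ :=
  ruleV (tup e (X 0) (nv d) (X 3) (X 4) 1) (tup e (X 0) (nv d) (X 3 * (X 0)⁻¹) (X 4 * (nv d Q.i)⁻¹) 1)
    (X 2) (X 0) (X 1)

def nextG {d : ℕ} (e : ℕ) (Q : Eqn (Fin d)) : FreeGroup ℕ :=
  ruleV (tup e (X 0) (nv d) (nv d Q.j) (X 4) (wlast Q (X 0) (nv d) (X 4))) (tup (e + 1) (X 0) (nv d) 1 1 1)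
    (X 2) (X 0) (X 1)

def finG (d N B : ℕ) : FreeGroup ℕ :=
  finV B (tup N (X 0) (nv d) 1 1 1) (X 2) (X 0) (X 1)

/-- the words of the rules -/
def ruleWords {d : ℕ} (eqs : List (Eqn (Fin d))) : List Word :=
  (List.range eqs.length).flatMap (fun e =>
    match eqs[e]? with
    | some Q => [(upG e Q).toWord, (downG e Q).toWord, (nextG e Q).toWord]
    | none => [])

/-- a word for `x ^ (1 - 4 n)` -/
def pw (n : ℕ) : Word := (0, true) :: (List.range (4 * n)).map (fun _ => (0, false))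

/-- the substitution of `x ^ (1 - 4 n)` for the variable of the input -/
def sg {d : ℕ} (f : Fin d) (n : ℕ) (i : ℕ) : Word := if i = 5 + f then pw n else [(i, true)]

/-- the final words -/
def finW {d : ℕ} (N : ℕ) (f : Fin d) (B n : ℕ) : Word := wSubst (sg f n) (finG d N B).toWord

/-- the list of words of the reduction -/
def theList {d : ℕ} (eqs : List (Eqn (Fin d))) (f : Fin d) (n : ℕ) : List Word :=
  [((X 0)⁻¹).toWord, (hval (X 0) (X 1)).toWord, (startG d).toWord] ++ ruleWords eqs ++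
    [finW eqs.length f 2 n, finW eqs.length f 3 n]



lemma k6_ruleWords_mem {d : ℕ} {eqs : List (Eqn (Fin d))} {w : Word} :
    w ∈ ruleWords eqs ↔ ∃ e Q, eqs[e]? = some Q ∧
        (w = (upG e Q).toWord ∨ w = (downG e Q).toWord ∨ w = (nextG e Q).toWord) := by
  unfold ruleWords
  rw [List.mem_flatMap]
  constructor
  · rintro ⟨e, he, hw⟩
    rw [List.mem_range] at he
    have h1 : eqs[e]? = some eqs[e] := List.getElem?_eq_getElem he
    rw [h1] at hw
    refine ⟨e, eqs[e], h1, ?_⟩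
    simpa using hw
  · rintro ⟨e, Q, h1, hw⟩
    have he : e < eqs.length := by
      by_contra hcon
      rw [List.getElem?_eq_none (by omega)] at h1
      exact absurd h1 (by simp)
    refine ⟨e, List.mem_range.2 he, ?_⟩
    rw [h1]
    simpa using hw

theorem mem_theList {d : ℕ} {eqs : List (Eqn (Fin d))} {f : Fin d} {n : ℕ} {w : Word} :
    w ∈ theList eqs f n ↔ w = ((X 0)⁻¹).toWord ∨ w = (hval (X 0) (X 1)).toWord ∨
      w = (startG d).toWord ∨
      (∃ e Q, eqs[e]? = some Q ∧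
        (w = (upG e Q).toWord ∨ w = (downG e Q).toWord ∨ w = (nextG e Q).toWord)) ∨
      w = finW eqs.length f 2 n ∨ w = finW eqs.length f 3 n := by
  unfold theList
  rw [List.mem_append, List.mem_append, k6_ruleWords_mem]
  simp only [List.mem_cons, List.not_mem_nil, or_false, or_assoc]

theorem val_inv {G : Type*} [Group G] (v : ℕ → G) : wEval v ((X 0)⁻¹).toWord = (v 0)⁻¹ := by
  rw [wEval_toWord]
  simp [X]

lemma k6_phi {G : Type*} [Group G] (v : ℕ → G) : ∃ φ : FreeGroup ℕ →* G,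
    (∀ g : FreeGroup ℕ, wEval v g.toWord = φ g) ∧ ∀ i, φ (X i) = v i := by
  refine ⟨FreeGroup.lift v, wEval_toWord v, fun i => ?_⟩
  unfold X
  exact FreeGroup.lift_apply_of

lemma k6_nv {d : ℕ} {G : Type*} [Group G] {v : ℕ → G} {φ : FreeGroup ℕ →* G}
    (hX : ∀ i, φ (X i) = v i) (j : Fin d) : φ (nv d j) = v (5 + j) := hX (5 + j)

lemma k6_nv' {d : ℕ} {G : Type*} [Group G] {v : ℕ → G} {φ : FreeGroup ℕ →* G}
    (hX : ∀ i, φ (X i) = v i) :
    (fun j : Fin d => φ (nv d j)) = fun j : Fin d => v (5 + j) :=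
  funext fun j => k6_nv hX j

theorem val_h {G : Type*} [Group G] (v : ℕ → G) :
    wEval v (hval (X 0) (X 1)).toWord = hval (v 0) (v 1) := by
  obtain ⟨φ, hφ, hX⟩ := k6_phi v
  rw [hφ, map_hval, hX, hX]

theorem val_start {d : ℕ} {G : Type*} [Group G] (v : ℕ → G) :
    wEval v (startG d).toWord =
      cert (tup 0 (v 0) (fun j : Fin d => v (5 + j)) 1 1 1) (v 0) (v 1) := by
  obtain ⟨φ, hφ, hX⟩ := k6_phi v
  rw [hφ, startG, map_cert, map_tup, hX, hX, k6_nv' hX, map_one]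

theorem val_up {d : ℕ} {G : Type*} [Group G] (v : ℕ → G) (e : ℕ) (Q : Eqn (Fin d)) :
    wEval v (upG e Q).toWord = ruleV (tup e (v 0) (fun j : Fin d => v (5 + j)) (v 3) (v 4) 1)
      (tup e (v 0) (fun j : Fin d => v (5 + j)) (v 3 * v 0) (v 4 * v (5 + Q.i)) 1)
      (v 2) (v 0) (v 1) := by
  obtain ⟨φ, hφ, hX⟩ := k6_phi v
  rw [hφ, upG, map_ruleV, map_tup, map_tup, map_mul, map_mul, hX, hX, hX, hX, hX, k6_nv' hX,
    k6_nv hX, map_one]

theorem val_down {d : ℕ} {G : Type*} [Group G] (v : ℕ → G) (e : ℕ) (Q : Eqn (Fin d)) :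
    wEval v (downG e Q).toWord = ruleV (tup e (v 0) (fun j : Fin d => v (5 + j)) (v 3) (v 4) 1)
      (tup e (v 0) (fun j : Fin d => v (5 + j)) (v 3 * (v 0)⁻¹) (v 4 * (v (5 + Q.i))⁻¹) 1)
      (v 2) (v 0) (v 1) := by
  obtain ⟨φ, hφ, hX⟩ := k6_phi v
  rw [hφ, downG, map_ruleV, map_tup, map_tup, map_mul, map_mul, map_inv, map_inv, hX, hX, hX, hX,
    hX, k6_nv' hX, k6_nv hX, map_one]

theorem val_next {d : ℕ} {G : Type*} [Group G] (v : ℕ → G) (e : ℕ) (Q : Eqn (Fin d)) :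
    wEval v (nextG e Q).toWord =
      ruleV (tup e (v 0) (fun j : Fin d => v (5 + j)) (v (5 + Q.j)) (v 4)
          (wlast Q (v 0) (fun j : Fin d => v (5 + j)) (v 4)))
        (tup (e + 1) (v 0) (fun j : Fin d => v (5 + j)) 1 1 1) (v 2) (v 0) (v 1) := by
  obtain ⟨φ, hφ, hX⟩ := k6_phi v
  rw [hφ, nextG, map_ruleV, map_tup, map_tup, map_wlast, hX, hX, hX, hX, k6_nv' hX, k6_nv hX,
    map_one]

theorem val_pw {G : Type*} [Group G] (v : ℕ → G) (n : ℕ) :
    wEval v (pw n) = v 0 ^ (1 - 4 * n : ℤ) := by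
  have h : wEval v ((List.range (4 * n)).map (fun _ => ((0 : ℕ), false))) = ((v 0)⁻¹) ^ (4 * n) := by
    unfold wEval
    rw [List.map_map]
    simp [Function.comp_def]
  unfold pw
  rw [wEval_cons, h]
  simp only [if_true]
  rw [inv_pow, ← zpow_natCast, ← zpow_neg, sub_eq_add_neg, zpow_add, zpow_one]
  push_cast
  rfl

lemma k6_small {d : ℕ} {G : Type*} [Group G] (v : ℕ → G) (f : Fin d) (n i : ℕ) (h : i < 5) :
    wEval v (sg f n i) = v i := by
  unfold sg
  rw [if_neg (by omega)]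
  simp [wEval]

lemma k6_big {d : ℕ} {G : Type*} [Group G] (v : ℕ → G) (f : Fin d) (n : ℕ) (j : Fin d) :
    wEval v (sg f n (5 + j)) =
      Function.update (fun j : Fin d => v (5 + j)) f (v 0 ^ (1 - 4 * n : ℤ)) j := by
  unfold sg
  rw [Function.update_apply]
  by_cases hj : j = f
  · subst hj
    rw [if_pos rfl, if_pos rfl, val_pw]
  · have : (5 + (j : ℕ)) ≠ 5 + (f : ℕ) := by
      intro h
      exact hj (Fin.ext (by omega))
    rw [if_neg this, if_neg hj]
    simp [wEval]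

theorem val_fin {d : ℕ} {G : Type*} [Group G] (v : ℕ → G) (N : ℕ) (f : Fin d) (B n : ℕ) :
    wEval v (finW N f B n) =
      finV B (tup N (v 0)
        (Function.update (fun j : Fin d => v (5 + j)) f (v 0 ^ (1 - 4 * n : ℤ))) 1 1 1)
        (v 2) (v 0) (v 1) := by
  obtain ⟨φ, hφ, hX⟩ := k6_phi (fun i => wEval v (sg f n i))
  have h : (fun j : Fin d => φ (nv d j)) =
      Function.update (fun j : Fin d => v (5 + j)) f (v 0 ^ (1 - 4 * n : ℤ)) := by
    funext j
    rw [k6_nv hX]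
    exact k6_big v f n j
  unfold finW
  rw [wEval_subst, hφ, finG, map_finV, map_tup, h, hX, hX, hX, map_one,
    k6_small v f n 0 (by norm_num), k6_small v f n 1 (by norm_num),
    k6_small v f n 2 (by norm_num)]


end Pool.Agent.Helper844.FC
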