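import Mathlib
import Pool.Agent.Helper844.Sys
import Pool.Agent.Helper844.FC.TheList
set_option autoImplicit false
namespace Pool.Agent.Helper844.FC

open Pool.Agent.Helper844.Sys


theorem pw_primrec : Primrec pw := by
  have h1 : Primrec (fun n : ℕ => List.range (4 * n)) :=
    Primrec.list_range.comp (Primrec.nat_mul.comp (Primrec.const 4) Primrec.id)
  have h2 : Primrec (fun n : ℕ => (List.range (4 * n)).map (fun _ => ((0, false) : ℕ × Bool))) :=
    Primrec.list_map h1 (Primrec₂.const _)
  exact Primrec.list_cons.comp (Primrec.const _) h2

theorem sg_primrec {d : ℕ} (f : Fin d) (i : ℕ) : Primrec (fun n => sg f n i) := by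
  by_cases h : i = 5 + f
  · have : (fun n => sg f n i) = pw := by
      funext n
      simp only [sg, if_pos h]
    rw [this]
    exact pw_primrec
  · have : (fun n => sg f n i) = fun _ => [(i, true)] := by
      funext n
      simp only [sg, if_neg h]
    rw [this]
    exact Primrec.const _

theorem wInv_primrec : Primrec wInv := by
  have h1 : Primrec₂ (fun (_ : Word) (a : ℕ × Bool) => (a.1, !a.2)) :=
    (Primrec.pair (Primrec.fst.comp Primrec.snd)
      (Primrec.not.comp (Primrec.snd.comp Primrec.snd))).to₂
  exact Primrec.list_reverse.comp (Primrec.list_map Primrec.id h1)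

theorem wSubst_primrec (σ : ℕ → ℕ → Word) (hσ : ∀ i, Primrec (fun n => σ n i)) (w : Word) :
    Primrec (fun n => wSubst (σ n) w) := by
  induction w with
  | nil => exact Primrec.const _
  | cons a l ih =>
    have h1 : (fun n => wSubst (σ n) (a :: l)) = fun n =>
        (if a.2 then σ n a.1 else wInv (σ n a.1)) ++ wSubst (σ n) l := by
      funext n
      simp only [wSubst, List.flatMap_cons]
    rw [h1]
    refine Primrec.list_append.comp ?_ ih
    cases h : a.2 with
    | true => simpa using hσ a.1
    | false => simpa using wInv_primrec.comp (hσ a.1)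

theorem finW_primrec {d : ℕ} (N : ℕ) (f : Fin d) (B : ℕ) : Primrec (finW N f B) :=
  wSubst_primrec (sg f) (fun i => sg_primrec f i) _

theorem theList_computable {d : ℕ} (eqs : List (Eqn (Fin d))) (f : Fin d) :
    Computable (theList eqs f) := by
  have h : Primrec (theList eqs f) :=
    Primrec.list_append.comp (Primrec.const _)
      (Primrec.list_cons.comp (finW_primrec _ f 2)
        (Primrec.list_cons.comp (finW_primrec _ f 3) (Primrec.const [])))
  exact h.to_comp


end Pool.Agent.Helper844.FC
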