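import Mathlib
import Pool.Agent.Helper844.Sys
import Pool.Agent.Helper844.FC.TheList
set_option autoImplicit false
namespace Pool.Agent.Helper844.FC

open Pool.Agent.Helper844.Sys


section
variable {d : ℕ} {eqs : List (Eqn (Fin d))} {f : Fin d} {n : ℕ} {G : Type*} [Group G]

theorem ex_inv {g : (ℕ → G) → G} (hg : Expr G (theList eqs f n) g) :
    Expr G (theList eqs f n) (fun v => (g v)⁻¹) := by
  have hm : ((X 0)⁻¹).toWord ∈ theList eqs f n := mem_theList.2 (Or.inl rfl)
  have h := Expr.subst (Expr.of_mem (G := G) hm) (fun _ => g) (fun _ => hg)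
  simp only [val_inv] at h
  exact h

/-- products of commuting expressible functions are expressible -/
theorem ex_mul_comm {g h : (ℕ → G) → G} (hg : Expr G (theList eqs f n) g)
    (hh : Expr G (theList eqs f n) h) (hc : ∀ v, g v * h v = h v * g v) :
    Expr G (theList eqs f n) (fun v => g v * h v) := by
  have hm : (hval (X 0) (X 1)).toWord ∈ theList eqs f n := mem_theList.2 (Or.inr (Or.inl rfl))
  have hs := Expr.subst (Expr.of_mem (G := G) hm) (fun i => if i = 0 then g else h) (by
    intro i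
    by_cases hi : i = 0
    · simp only [if_pos hi]; exact hg
    · simp only [if_neg hi]; exact hh)
  simp only [val_h, if_true, one_ne_zero, if_false] at hs
  have e : (fun v => hval (g v) (h v)) = fun v => g v * h v := by
    funext v
    exact hval_comm _ _ (hc v)
  rw [← e]
  exact hs

theorem ex_one : Expr G (theList eqs f n) (fun _ => (1 : G)) := by
  have h := ex_mul_comm (eqs := eqs) (f := f) (n := n) (Expr.var (G := G) 0)
    (ex_inv (Expr.var (G := G) 0)) (fun v => by simp)
  simpa using h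

theorem ex_zpow {g : (ℕ → G) → G} (hg : Expr G (theList eqs f n) g) (k : ℤ) :
    Expr G (theList eqs f n) (fun v => g v ^ k) := by
  induction k using Int.induction_on with
  | zero => simpa using ex_one (eqs := eqs) (f := f) (n := n) (G := G)
  | succ i ih =>
    have h := ex_mul_comm ih hg (fun v => by
      rw [← zpow_add_one, ← zpow_one_add, add_comm])
    simp only [← zpow_add_one] at h
    exact h
  | pred i ih =>
    have h := ex_mul_comm ih (ex_inv hg) (fun v => by
      rw [← zpow_sub_one, ← zpow_neg_one, ← zpow_add, sub_eq_add_neg, add_comm])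
    simp only [← zpow_sub_one] at h
    exact h

/-- the assignment used in the rules -/
def asg (z : Fin d → ℤ) (F A B : (ℕ → G) → G) (i : ℕ) (v : ℕ → G) : G :=
  if i = 2 then F v else if i = 3 then A v else if i = 4 then B v else
    if h : 5 ≤ i ∧ i - 5 < d then v 0 ^ z ⟨i - 5, h.2⟩ else v i

theorem asg_0 (z : Fin d → ℤ) (F A B : (ℕ → G) → G) (v : ℕ → G) : asg z F A B 0 v = v 0 := by
  simp [asg]

theorem asg_1 (z : Fin d → ℤ) (F A B : (ℕ → G) → G) (v : ℕ → G) : asg z F A B 1 v = v 1 := by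
  simp [asg]

theorem asg_2 (z : Fin d → ℤ) (F A B : (ℕ → G) → G) (v : ℕ → G) : asg z F A B 2 v = F v := by
  simp [asg]

theorem asg_3 (z : Fin d → ℤ) (F A B : (ℕ → G) → G) (v : ℕ → G) : asg z F A B 3 v = A v := by
  simp [asg]

theorem asg_4 (z : Fin d → ℤ) (F A B : (ℕ → G) → G) (v : ℕ → G) : asg z F A B 4 v = B v := by
  simp [asg]

theorem asg_5 (z : Fin d → ℤ) (F A B : (ℕ → G) → G) (v : ℕ → G) (j : Fin d) :
    asg z F A B (5 + j) v = v 0 ^ z j := by
  have h1 : ¬ (5 + (j : ℕ) = 2) := by omega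
  have h2 : ¬ (5 + (j : ℕ) = 3) := by omega
  have h3 : ¬ (5 + (j : ℕ) = 4) := by omega
  have h4 : 5 ≤ 5 + (j : ℕ) ∧ 5 + (j : ℕ) - 5 < d := ⟨by omega, by have := j.2; omega⟩
  unfold asg
  rw [if_neg h1, if_neg h2, if_neg h3, dif_pos h4]
  congr 2
  apply Fin.ext
  simp

theorem ex_asg (z : Fin d → ℤ) {F A B : (ℕ → G) → G} (hF : Expr G (theList eqs f n) F)
    (hA : Expr G (theList eqs f n) A) (hB : Expr G (theList eqs f n) B) (i : ℕ) :
    Expr G (theList eqs f n) (asg z F A B i) := by
  by_cases h2 : i = 2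
  · have : asg z F A B i = F := by funext v; simp [asg, h2]
    rw [this]; exact hF
  by_cases h3 : i = 3
  · have : asg z F A B i = A := by funext v; simp [asg, h3]
    rw [this]; exact hA
  by_cases h4 : i = 4
  · have : asg z F A B i = B := by funext v; simp [asg, h4]
    rw [this]; exact hB
  by_cases h5 : 5 ≤ i ∧ i - 5 < d
  · have : asg z F A B i = fun v => v 0 ^ z ⟨i - 5, h5.2⟩ := by
      funext v
      unfold asg
      rw [if_neg h2, if_neg h3, if_neg h4, dif_pos h5]
    rw [this]
    exact ex_zpow (Expr.var 0) _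
  · have : asg z F A B i = fun v => v i := by
      funext v
      unfold asg
      rw [if_neg h2, if_neg h3, if_neg h4, dif_neg h5]
    rw [this]
    exact Expr.var i

theorem ex_start (z : Fin d → ℤ) : Expr G (theList eqs f n) (fun v =>
    cert (tup 0 (v 0) (fun j => v 0 ^ z j) 1 1 1) (v 0) (v 1)) := by
  have hm : (startG d).toWord ∈ theList eqs f n := mem_theList.2 (Or.inr (Or.inr (Or.inl rfl)))
  have h := Expr.subst (Expr.of_mem (G := G) hm)
    (asg z (fun v => v 0) (fun v => v 0) (fun v => v 0))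
    (ex_asg z (Expr.var 0) (Expr.var 0) (Expr.var 0))
  simp only [val_start, asg_0, asg_1, asg_5] at h
  exact h

theorem ex_loop (z : Fin d → ℤ) {e : ℕ} {Q : Eqn (Fin d)} (hQ : eqs[e]? = some Q)
    (h : Expr G (theList eqs f n) (fun v =>
      cert (tup e (v 0) (fun j => v 0 ^ z j) 1 1 1) (v 0) (v 1))) (t : ℤ) :
    Expr G (theList eqs f n) (fun v =>
      cert (tup e (v 0) (fun j => v 0 ^ z j) (v 0 ^ t) (v 0 ^ (z Q.i * t)) 1) (v 0) (v 1)) := by
  induction t using Int.induction_on with
  | zero => simpa using h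
  | succ i ih =>
    have hm : (upG e Q).toWord ∈ theList eqs f n :=
      mem_theList.2 (Or.inr (Or.inr (Or.inr (Or.inl ⟨e, Q, hQ, Or.inl rfl⟩))))
    have hs := Expr.subst (Expr.of_mem (G := G) hm)
      (asg z _ (fun v => v 0 ^ (i : ℤ)) (fun v => v 0 ^ (z Q.i * (i : ℤ))))
      (ex_asg z ih (ex_zpow (Expr.var 0) _) (ex_zpow (Expr.var 0) _))
    simp only [val_up, asg_0, asg_1, asg_2, asg_3, asg_4, asg_5, ruleV_cert, ← zpow_add_one,
      ← zpow_add] at hs
    have e1 : z Q.i * ((i : ℤ) + 1) = z Q.i * (i : ℤ) + z Q.i := by ring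
    rw [e1]
    exact hs
  | pred i ih =>
    have hm : (downG e Q).toWord ∈ theList eqs f n :=
      mem_theList.2 (Or.inr (Or.inr (Or.inr (Or.inl ⟨e, Q, hQ, Or.inr (Or.inl rfl)⟩))))
    have hs := Expr.subst (Expr.of_mem (G := G) hm)
      (asg z _ (fun v => v 0 ^ (-(i : ℤ))) (fun v => v 0 ^ (z Q.i * (-(i : ℤ)))))
      (ex_asg z ih (ex_zpow (Expr.var 0) _) (ex_zpow (Expr.var 0) _))
    simp only [val_down, asg_0, asg_1, asg_2, asg_3, asg_4, asg_5, ruleV_cert, ← zpow_sub_one,
      ← zpow_sub] at hs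
    have e1 : z Q.i * (-(i : ℤ) - 1) = z Q.i * (-(i : ℤ)) - z Q.i := by ring
    rw [e1]
    exact hs

theorem ex_next (z : Fin d → ℤ) {e : ℕ} {Q : Eqn (Fin d)} (hQ : eqs[e]? = some Q)
    (hz : Q.Holds z) (h : Expr G (theList eqs f n) (fun v =>
      cert (tup e (v 0) (fun j => v 0 ^ z j) 1 1 1) (v 0) (v 1))) :
    Expr G (theList eqs f n) (fun v =>
      cert (tup (e + 1) (v 0) (fun j => v 0 ^ z j) 1 1 1) (v 0) (v 1)) := by
  have hm : (nextG e Q).toWord ∈ theList eqs f n :=
    mem_theList.2 (Or.inr (Or.inr (Or.inr (Or.inl ⟨e, Q, hQ, Or.inr (Or.inr rfl)⟩))))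
  have hl := ex_loop z hQ h (z Q.j)
  have hs := Expr.subst (Expr.of_mem (G := G) hm)
    (asg z _ (fun v => v 0) (fun v => v 0 ^ (z Q.i * z Q.j)))
    (ex_asg z hl (Expr.var 0) (ex_zpow (Expr.var 0) _))
  have hw : ∀ x : G, wlast Q x (fun j => x ^ z j) (x ^ (z Q.i * z Q.j)) = 1 := by
    intro x
    unfold wlast
    rw [← zpow_mul, ← zpow_mul, ← zpow_mul, ← zpow_mul, ← zpow_add, ← zpow_add, ← zpow_add,
      ← zpow_add]
    unfold Eqn.Holds at hz
    have : z Q.i * z Q.j * Q.e + z Q.k * Q.a + z Q.l * Q.b + z Q.m * Q.c + Q.d = 0 := by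
      rw [← hz]; ring
    rw [this, zpow_zero]
  simp only [val_next, asg_0, asg_1, asg_2, asg_3, asg_4, asg_5, hw, ruleV_cert] at hs
  exact hs

theorem ex_final (z : Fin d → ℤ) (hz : ∀ Q ∈ eqs, Q.Holds z) :
    Expr G (theList eqs f n) (fun v =>
      cert (tup eqs.length (v 0) (fun j => v 0 ^ z j) 1 1 1) (v 0) (v 1)) := by
  have h : ∀ e, e ≤ eqs.length → Expr G (theList eqs f n) (fun v =>
      cert (tup e (v 0) (fun j => v 0 ^ z j) 1 1 1) (v 0) (v 1)) := by
    intro e
    induction e with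
    | zero => intro _; exact ex_start z
    | succ e ih =>
      intro he
      have he' : e < eqs.length := he
      exact ex_next z (List.getElem?_eq_getElem he') (hz _ (List.getElem_mem he')) (ih he'.le)
  exact h _ le_rfl

/-- if the system has a solution then the list is complete on every group -/
theorem complete_of_sol (z : Fin d → ℤ) (hz : ∀ Q ∈ eqs, Q.Holds z) (hf : z f = 1 - 4 * n) :
    FunctionallyComplete G (theList eqs f n) := by
  apply complete_of (ex_inv (Expr.var 0))
  have hl := ex_final (G := G) (f := f) (n := n) z hz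
  have hup : ∀ x : G, Function.update (fun j : Fin d => x ^ z j) f (x ^ (1 - 4 * n : ℤ)) =
      fun j => x ^ z j := by
    intro x
    rw [← hf]
    exact Function.update_eq_self f (fun j : Fin d => x ^ z j)
  have hm2 : finW eqs.length f 2 n ∈ theList eqs f n :=
    mem_theList.2 (Or.inr (Or.inr (Or.inr (Or.inr (Or.inl rfl)))))
  have hm3 : finW eqs.length f 3 n ∈ theList eqs f n :=
    mem_theList.2 (Or.inr (Or.inr (Or.inr (Or.inr (Or.inr rfl)))))
  have h2 := Expr.subst (Expr.of_mem (G := G) hm2) (asg z _ (fun v => v 0) (fun v => v 0))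
    (ex_asg z hl (Expr.var 0) (Expr.var 0))
  have h3 := Expr.subst (Expr.of_mem (G := G) hm3) (asg z _ (fun v => v 0) (fun v => v 0))
    (ex_asg z hl (Expr.var 0) (Expr.var 0))
  simp only [val_fin, asg_0, asg_1, asg_2, asg_5, hup, finV_cert, mF, if_true] at h2 h3
  have h3' := ex_inv h3
  have h4 := ex_mul_comm h3' h2 (fun v => by
    apply Commute.eq
    apply Commute.inv_left
    exact Commute.pow_pow (Commute.refl _) _ _)
  have e : (fun v : ℕ → G => ((v 0 * v 1) ^ 1000)⁻¹ * (v 0 * v 1) ^ 1001) =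
      fun v => v 0 * v 1 := by
    funext v
    rw [pow_succ (v 0 * v 1) 1000, ← mul_assoc, inv_mul_cancel, one_mul]
  rw [← e]
  simpa using h4

end


end Pool.Agent.Helper844.FC
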