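import Mathlib
import Pool.Agent.Helper844.Sys
import Pool.Agent.Helper844.FC.TheList
import Pool.Agent.Helper844.FC.Closed
set_option autoImplicit false
namespace Pool.Agent.Helper844.FC

open Pool.Agent.Helper844.Sys


/-- the image of the two factors is closed under the words of the list -/
theorem SS_closed {d : ℕ} (L : List (Eqn (Fin d))) (f : Fin d) (n : ℕ)
    (hno : ¬ ∃ z : Fin d → ℤ, z f = 1 - 4 * n ∧ ∀ Q ∈ L, Q.Holds z) :
    ∀ w ∈ theList (extL L) f n, ∀ v : ℕ → W ⧸ NR (d + 4) (TrS (extL L)),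
      (∀ i, v i ∈ SS (d + 4) (TrS (extL L))) → wEval v w ∈ SS (d + 4) (TrS (extL L)) := by
  intro w hw v hv
  choose u hu1 hu2 using hv
  have hvu : wEval v w = QuotientGroup.mk' (NR (d + 4) (TrS (extL L))) (wEval u w) := by
    rw [wEval_map]
    congr 1
    funext i
    exact (hu2 i).symm
  rw [hvu]
  have hlen1 : WL.len (1 : W) ≤ 5 := by rw [WL.len_one]; omega
  have hlenF : ∀ x ∈ Fac, WL.len x ≤ 5 := fun x hx => (WL_fac hx).trans (by omega)
  have hlenM : ∀ x ∈ Fac, ∀ y ∈ Fac, WL.len (x * y) ≤ 5 := by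
    intro x hx y hy
    have h1 := WL_mul_le x y
    have h2 := WL_fac hx
    have h3 := WL_fac hy
    omega
  have hfin : ∀ B : ℕ, (B = 2 ∨ B = 3) → QuotientGroup.mk' (NR (d + 4) (TrS (extL L)))
      (wEval u (finW (extL L).length f B n)) ∈ SS (d + 4) (TrS (extL L)) := by
    intro B hB
    rw [val_fin]
    apply cl_fin (d + 4) (TrS (extL L)) hB (hu1 0) (hu1 1) (hu1 2)
    · apply adm_tup (hu1 0) _ hlen1 hlen1 hlen1
      intro j
      by_cases hj : j = f
      · subst hj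
        rw [Function.update_self]
        exact fac_zpow (hu1 0) _
      · rw [Function.update_of_ne hj]
        exact hu1 _
    · intro β hβ _ h
      rw [← hβ] at h
      obtain ⟨z, hz1, hz2⟩ := TrS_final h
      apply hno
      refine ⟨z, ?_, hz2⟩
      have h1 := hz1 f
      rw [Function.update_self] at h1
      exact (Base.x_zpow_inj β h1).symm
  rcases mem_theList.1 hw with hw' | hw' | hw' | ⟨e, Q, hQ, hw' | hw' | hw'⟩ | hw' | hw'
  · rw [hw', val_inv]
    exact ⟨(u 0)⁻¹, fac_inv (hu1 0), rfl⟩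
  · rw [hw', val_h]
    exact cl_h _ _ (hu1 0) (hu1 1)
  · rw [hw', val_start]
    apply cl_cert _ _ (hu1 0) (hu1 1)
    · exact adm_tup (hu1 0) (fun j => hu1 _) hlen1 hlen1 hlen1
    · intro β hβ _
      rw [← hβ]
      exact TrS_start _ _ _
  · rw [hw', val_up]
    apply cl_rule _ _ (hu1 0) (hu1 1) (hu1 2)
    · exact adm_tup (hu1 0) (fun j => hu1 _) (hlenF _ (hu1 3)) (hlenF _ (hu1 4)) hlen1
    · exact adm_tup (hu1 0) (fun j => hu1 _) (hlenM _ (hu1 3) _ (hu1 0))
        (hlenM _ (hu1 4) _ (hu1 _)) hlen1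
    · intro β hβ _ h
      rw [← hβ] at h ⊢
      exact TrS_up hQ h
  · rw [hw', val_down]
    apply cl_rule _ _ (hu1 0) (hu1 1) (hu1 2)
    · exact adm_tup (hu1 0) (fun j => hu1 _) (hlenF _ (hu1 3)) (hlenF _ (hu1 4)) hlen1
    · exact adm_tup (hu1 0) (fun j => hu1 _) (hlenM _ (hu1 3) _ (fac_inv (hu1 0)))
        (hlenM _ (hu1 4) _ (fac_inv (hu1 _))) hlen1
    · intro β hβ _ h
      rw [← hβ] at h ⊢
      exact TrS_down hQ h
  · rw [hw', val_next]
    apply cl_rule _ _ (hu1 0) (hu1 1) (hu1 2)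
    · exact adm_tup (hu1 0) (fun j => hu1 _) (hlenF _ (hu1 _)) (hlenF _ (hu1 4))
        (len_wlast Q (hu1 0) (fun j => hu1 _) (hu1 4))
    · exact adm_tup (hu1 0) (fun j => hu1 _) hlen1 hlen1 hlen1
    · intro β hβ _ h
      rw [← hβ] at h ⊢
      exact TrS_next hQ h
  · rw [hw']
    exact hfin 2 (Or.inl rfl)
  · rw [hw']
    exact hfin 3 (Or.inr rfl)

theorem not_complete {d : ℕ} (L : List (Eqn (Fin d))) (f : Fin d) (n : ℕ)
    (hno : ¬ ∃ z : Fin d → ℤ, z f = 1 - 4 * n ∧ ∀ Q ∈ L, Q.Holds z) :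
    ¬ FunctionallyComplete (W ⧸ NR (d + 4) (TrS (extL L))) (theList (extL L) f n) := by
  intro hcomp
  have h1 := hcomp [(0, true), (1, true)]
  have h2 := h1.closed (SS (d + 4) (TrS (extL L))) (SS_closed L f n hno)
    (fun i => QuotientGroup.mk' (NR (d + 4) (TrS (extL L))) (if i = 0 then letter true 1
      else letter false 1)) (by
      intro i
      refine ⟨_, ?_, rfl⟩
      split_ifs
      · exact ⟨true, 1, rfl⟩
      · exact ⟨false, 1, rfl⟩)
  rw [wEval_cons, wEval_cons, wEval_nil] at h2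
  apply ab_not_mem (d + 4) (by omega) (TrS (extL L))
  rw [map_mul]
  simpa using h2


end Pool.Agent.Helper844.FC
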