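import Mathlib
import Pool.Agent.Helper844.FC.Complete
import Pool.Agent.Helper844.FC.NotComplete
import Pool.Agent.Helper844.FC.Comp

set_option autoImplicit false
namespace Pool.Agent.Helper844.FC

open Pool.Agent.Helper844.Sys Pool.Agent.Helper844.Dio
open Nat.Partrec (Code)

theorem comp_pred {α β : Type*} [Primcodable α] [Primcodable β] {p : β → Prop} {g : α → β}
    (hp : ComputablePred p) (hg : Computable g) : ComputablePred (fun a => p (g a)) := by
  obtain ⟨f, hf, rfl⟩ := ComputablePred.computable_iff.1 hp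
  exact ComputablePred.computable_iff.2 ⟨fun a => f (g a), hf.comp hg, rfl⟩

/-- a recursively enumerable set that is not computable -/
theorem exists_halting : ∃ S : ℕ → Prop, REPred S ∧ ¬ ComputablePred S := by
  refine ⟨fun n => (Code.eval (Denumerable.ofNat Code n) 0).Dom, ?_, ?_⟩
  · have h1 : Partrec fun n : ℕ => Code.eval (Denumerable.ofNat Code n) 0 :=
      Code.eval_part.comp (Computable.ofNat Code) (Computable.const 0)
    exact h1.dom_re
  · intro h
    have h2 := comp_pred h (Computable.encode (α := Code))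
    refine ComputablePred.halting_problem 0 (h2.of_eq fun c => ?_)
    rw [Denumerable.ofNat_encode]

/-- system with variables `Fin d` -/
theorem exists_system_fin (S : ℕ → Prop) (hS : REPred S) :
    ∃ (d : ℕ) (f : Fin d) (L : List (Eqn (Fin d))), ∀ z : ℤ,
      (∃ x : Fin d → ℤ, x f = z ∧ ∀ q ∈ L, q.Holds x) ↔ ∃ n : ℕ, S n ∧ z = 1 - 4 * n := by
  obtain ⟨V, _, f, L, h⟩ := exists_system S (dprm hS)
  let e := Fintype.equivFin V
  refine ⟨Fintype.card V, e f, L.map (Eqn.map e), fun z => ?_⟩
  rw [← h z]
  constructor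
  · rintro ⟨x, hx, hq⟩
    refine ⟨x ∘ e, hx, fun q hqL => ?_⟩
    have := hq (q.map e) (List.mem_map.2 ⟨q, hqL, rfl⟩)
    rwa [Eqn.holds_map] at this
  · rintro ⟨x, hx, hq⟩
    refine ⟨x ∘ e.symm, by simpa using hx, fun q hqL => ?_⟩
    obtain ⟨q', hq', rfl⟩ := List.mem_map.1 hqL
    rw [Eqn.holds_map]
    have : (x ∘ e.symm) ∘ e = x := by
      funext v; simp
    rw [this]
    exact hq q' hq'

/-- the reduction: completeness of the list codes the solvability of the system -/
theorem complete_iff {d : ℕ} (L : List (Eqn (Fin d))) (f : Fin d) (n : ℕ) :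
    (∀ (G : Type) [Group G], FunctionallyComplete G (theList (extL L) f n)) ↔
      ∃ z : Fin d → ℤ, z f = 1 - 4 * n ∧ ∀ Q ∈ L, Q.Holds z := by
  constructor
  · intro h
    by_contra hno
    exact not_complete L f n hno (h _)
  · rintro ⟨z, hz, hL⟩ G _
    exact complete_of_sol z (extL_holds hL) hz

theorem complete_iff' {d : ℕ} (L : List (Eqn (Fin d))) (f : Fin d) (n : ℕ) :
    (∀ (G : Type*) [Group G], FunctionallyComplete G (theList (extL L) f n)) ↔
      ∃ z : Fin d → ℤ, z f = 1 - 4 * n ∧ ∀ Q ∈ L, Q.Holds z := by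
  constructor
  · intro h
    by_contra hno
    exact not_complete L f n hno (complete_equiv MulEquiv.ulift (h (ULift _)))
  · rintro ⟨z, hz, hL⟩ G _
    exact complete_of_sol z (extL_holds hL) hz

theorem undecidable : ¬ ComputablePred (fun B : List Word =>
    ∀ (G : Type*) [Group G], FunctionallyComplete G B) := by
  intro hp
  obtain ⟨S, hre, hnc⟩ := exists_halting
  obtain ⟨d, f, L, hL⟩ := exists_system_fin S hre
  apply hnc
  have h1 := comp_pred hp (theList_computable (extL L) f)
  refine h1.of_eq fun n => ?_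
  rw [complete_iff' L f n, hL]
  constructor
  · rintro ⟨m, hm, h⟩
    have : n = m := by omega
    rwa [this]
  · intro h
    exact ⟨n, h, rfl⟩

end Pool.Agent.Helper844.FC
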