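import Mathlib
import Pool.Agent.Helper844.FC.Complete
import Pool.Agent.Helper844.FC.NotComplete
import Pool.Agent.Helper844.FC.Comp
import Pool.Agent.Helper844.FC.Final

set_option autoImplicit false
namespace Pool.Agent.Helper844.FC

open Pool.Agent.Helper844.Sys

/-- renaming of variables -/
def rn (a b : ℕ) (w : Word) : Word := w.map (fun p => (a * p.1 + b, p.2))

/-- the word `h` -/
def hW : Word := (hval (X 0) (X 1)).toWord

/-- combination of a list of words into one word -/
def comb : List Word → Word
  | [] => []
  | w :: l => wSubst (fun j => if j = 0 then rn 2 0 w else rn 2 1 (comb l)) hW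

theorem wEval_rn {G : Type*} [Group G] (v : ℕ → G) (a b : ℕ) (w : Word) :
    wEval v (rn a b w) = wEval (fun j => v (a * j + b)) w := by
  simp [wEval, rn, Function.comp_def]

theorem val_comb {G : Type*} [Group G] (v : ℕ → G) (w : Word) (l : List Word) :
    wEval v (comb (w :: l)) =
      hval (wEval (fun j => v (2 * j)) w) (wEval (fun j => v (2 * j + 1)) (comb l)) := by
  rw [comb, wEval_subst, hW, val_h]
  simp [wEval_rn]

theorem wEval_one {G : Type*} [Group G] (w : Word) : wEval (fun _ => (1 : G)) w = 1 := by
  induction w with
  | nil => rfl
  | cons a w ih => rw [wEval_cons, ih]; simp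

/-- values at constant assignments commute -/
theorem wEval_const {G : Type*} [Group G] (x : G) (w : Word) :
    ∃ k : ℤ, wEval (fun _ => x) w = x ^ k := by
  induction w with
  | nil => exact ⟨0, by simp [wEval_nil]⟩
  | cons a w ih =>
    obtain ⟨k, hk⟩ := ih
    rw [wEval_cons, hk]
    rcases a with ⟨i, b⟩
    cases b
    · exact ⟨-1 + k, by simp [zpow_add]⟩
    · exact ⟨1 + k, by simp [zpow_add]⟩

theorem comb_const {G : Type*} [Group G] (x : G) (l : List Word) :
    wEval (fun _ => x) (comb l) = (l.map (fun w => wEval (fun _ => x) w)).prod := by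
  induction l with
  | nil => rfl
  | cons w l ih =>
    rw [val_comb, List.map_cons, List.prod_cons]
    rw [hval_comm]
    · rw [ih]
    · obtain ⟨k, hk⟩ := wEval_const x w
      obtain ⟨m, hm⟩ := wEval_const x (comb l)
      rw [hk, hm, ← zpow_add, ← zpow_add, add_comm]

theorem hval_one_right {G : Type*} [Group G] (x : G) : hval x 1 = x := by
  rw [hval_comm _ _ (by simp), mul_one]

theorem hval_one_left {G : Type*} [Group G] (x : G) : hval 1 x = x := by
  rw [hval_comm _ _ (by simp), one_mul]

/-- every word of the list is expressible from the combination, if 1 is -/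
theorem expr_of_comb {G : Type*} [Group G] {B : List Word}
    (h1 : Expr G B (fun _ => (1 : G))) :
    ∀ l : List Word, Expr G B (fun v => wEval v (comb l)) → ∀ w ∈ l,
      Expr G B (fun v => wEval v w) := by
  intro l
  induction l with
  | nil => intro _ w hw; simp at hw
  | cons u l ih =>
    intro h w hw
    rcases List.mem_cons.1 hw with rfl | hw
    · have := h.subst (fun i => if i % 2 = 0 then (fun v => v (i / 2)) else fun _ => 1)
        (fun i => by split_ifs; exacts [Expr.var _, h1])
      have e : (fun v : ℕ → G => wEval (fun i => (if i % 2 = 0 then (fun v : ℕ → G => v (i / 2))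
          else fun _ => 1) v) (comb (w :: l))) = fun v => wEval v w := by
        funext v
        rw [val_comb]
        have e1 : (fun j => (if (2 * j) % 2 = 0 then (fun v : ℕ → G => v (2 * j / 2))
            else fun _ => 1) v) = v := by
          funext j
          simp
        have e2 : (fun j => (if (2 * j + 1) % 2 = 0 then (fun v : ℕ → G => v ((2 * j + 1) / 2))
            else fun _ => 1) v) = fun _ => 1 := by
          funext j
          have : (2 * j + 1) % 2 ≠ 0 := by omega
          simp [this]
        rw [e1, e2, wEval_one, hval_one_right]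
      rwa [e] at this
    · apply ih _ w hw
      have := h.subst (fun i => if i % 2 = 0 then (fun _ => 1) else fun v => v (i / 2))
        (fun i => by split_ifs; exacts [h1, Expr.var _])
      have e : (fun v : ℕ → G => wEval (fun i => (if i % 2 = 0 then (fun _ => 1)
          else fun v : ℕ → G => v (i / 2)) v) (comb (u :: l))) = fun v => wEval v (comb l) := by
        funext v
        rw [val_comb]
        have e1 : (fun j => (if (2 * j) % 2 = 0 then (fun _ => 1)
            else fun v : ℕ → G => v (2 * j / 2)) v) = fun _ => 1 := by
          funext j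
          simp
        have e2 : (fun j => (if (2 * j + 1) % 2 = 0 then (fun _ => 1)
            else fun v : ℕ → G => v ((2 * j + 1) / 2)) v) = v := by
          funext j
          have h1 : (2 * j + 1) % 2 ≠ 0 := by omega
          have h2 : (2 * j + 1) / 2 = j := by omega
          simp [h1, h2]
        rw [e1, e2, wEval_one, hval_one_left]
      rwa [e] at this

theorem Produced.trans {G : Type*} [Group G] {B B' : List Word}
    (h : ∀ w ∈ B, Produced G B' w) {w : Word} (hw : Produced G B w) : Produced G B' w := by
  induction hw with
  | base hb => exact h _ hb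
  | var i => exact Produced.var i
  | subst σ _ _ ih ih' => exact Produced.subst σ ih ih'
  | congr _ he ih => exact Produced.congr ih he

/-- the combination of a list with total exponent zero -/
theorem complete_comb {G : Type*} [Group G] {l : List Word}
    (h0 : ∀ x : G, (l.map (fun w => wEval (fun _ => x) w)).prod = 1)
    (h : FunctionallyComplete G l) : FunctionallyComplete G [comb l] := by
  have hc : Expr G [comb l] (fun v => wEval v (comb l)) := Expr.of_mem (by simp)
  have h1 : Expr G [comb l] (fun _ => (1 : G)) := by
    have := hc.subst (fun _ v => v 0) (fun _ => Expr.var 0)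
    have e : (fun v : ℕ → G => wEval (fun _ => v 0) (comb l)) = fun _ => 1 := by
      funext v
      rw [comb_const, h0]
    rwa [e] at this
  intro w
  refine Produced.trans ?_ (h w)
  intro u hu
  exact (expr_of_comb h1 l hc u hu).produced

/-- closed sets -/
theorem closed_comb {G : Type*} [Group G] {l : List Word} (S : Set G) (h1 : (1 : G) ∈ S)
    (hh : ∀ x ∈ S, ∀ y ∈ S, hval x y ∈ S)
    (hS : ∀ w ∈ l, ∀ v : ℕ → G, (∀ i, v i ∈ S) → wEval v w ∈ S) (v : ℕ → G)
    (hv : ∀ i, v i ∈ S) : wEval v (comb l) ∈ S := by
  induction l generalizing v with
  | nil => exact h1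
  | cons w l ih =>
    rw [val_comb]
    refine hh _ (hS w (by simp) _ fun i => hv _) _ (ih (fun u hu => hS u (by simp [hu])) _
      fun i => hv _)

theorem rn_primrec (a b : ℕ) : Primrec (rn a b) := by
  unfold rn
  refine Primrec.list_map Primrec.id ?_
  show Primrec fun q : Word × (ℕ × Bool) => (a * q.2.1 + b, q.2.2)
  exact Primrec.pair
    (Primrec.nat_add.comp (Primrec.nat_mul.comp (Primrec.const a)
      (Primrec.fst.comp Primrec.snd)) (Primrec.const b))
    (Primrec.snd.comp Primrec.snd)

theorem comb_primrec (Fs : List (ℕ → Word)) (h : ∀ F ∈ Fs, Primrec F) :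
    Primrec (fun n => comb (Fs.map (fun F => F n))) := by
  induction Fs with
  | nil => exact Primrec.const _
  | cons F Fs ih =>
    have h1 := ih (fun F' hF' => h F' (by simp [hF']))
    have h2 : Primrec F := h F (by simp)
    simp only [List.map_cons, comb]
    generalize hW = H
    have h3 : ∀ j, Primrec (fun n => if j = 0 then rn 2 0 (F n) else
        rn 2 1 (comb (Fs.map (fun F => F n)))) := by
      intro j
      by_cases hj : j = 0
      · simp only [hj, if_true]
        exact (rn_primrec 2 0).comp h2
      · simp only [hj, if_false]
        exact (rn_primrec 2 1).comp h1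
    exact wSubst_primrec (fun n j => if j = 0 then rn 2 0 (F n) else
      rn 2 1 (comb (Fs.map (fun F => F n)))) h3 H

end Pool.Agent.Helper844.FC
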