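import Mathlib
import Pool.Agent.Helper844.FC.Comb

set_option autoImplicit false
namespace Pool.Agent.Helper844.FC

open Pool.Agent.Helper844.Sys Pool.Agent.Helper844.Dio

/-- the word `x^(-4003)` -/
def corr : Word := List.replicate 4003 (0, false)

theorem val_rep {G : Type*} [Group G] (v : ℕ → G) (k : ℕ) :
    wEval v (List.replicate k (0, false)) = (v 0)⁻¹ ^ k := by
  simp [wEval]

theorem val_corr {G : Type*} [Group G] (v : ℕ → G) : wEval v corr = (v 0)⁻¹ ^ 4003 :=
  val_rep v 4003

/-- the list with total exponent zero -/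
def theListS {d : ℕ} (eqs : List (Eqn (Fin d))) (f : Fin d) (n : ℕ) : List Word :=
  corr :: theList eqs f n

theorem ruleWords_const {d : ℕ} {G : Type*} [Group G] (x : G) (eqs : List (Eqn (Fin d))) :
    ∀ w ∈ ruleWords eqs, wEval (fun _ => x) w = 1 := by
  intro w hw
  have hx : x * x = x * x := rfl
  simp only [ruleWords, List.mem_flatMap, List.mem_range] at hw
  obtain ⟨e, he, hw⟩ := hw
  rcases hQ : eqs[e]? with _ | Q
  · rw [hQ] at hw; simp at hw
  · rw [hQ] at hw
    simp only [List.mem_cons, List.not_mem_nil, or_false] at hw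
    rcases hw with h | h | h
    · rw [h, val_up, ruleV_comm _ _ _ x x hx]
    · rw [h, val_down, ruleV_comm _ _ _ x x hx]
    · rw [h, val_next, ruleV_comm _ _ _ x x hx]

theorem theListS_const {d : ℕ} {G : Type*} [Group G] (x : G) (eqs : List (Eqn (Fin d)))
    (f : Fin d) (n : ℕ) :
    ((theListS eqs f n).map (fun w => wEval (fun _ => x) w)).prod = 1 := by
  have h1 : ((ruleWords eqs).map (fun w => wEval (fun _ => x) w)).prod = 1 := by
    apply List.prod_eq_one
    intro y hy
    obtain ⟨w, hw, rfl⟩ := List.mem_map.1 hy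
    exact ruleWords_const x eqs w hw
  have hx : x * x = x * x := rfl
  simp only [theListS, theList, List.map_cons, List.map_append, List.prod_cons, List.prod_append,
    List.map_nil, List.prod_nil, h1, val_corr, val_inv, val_h, val_start, val_fin,
    hval_comm x x hx, finV_comm _ _ _ x x hx, cert, rho_comm _ x x hx, one_pow, mul_one]
  rw [← pow_two]
  have e1 : mF 2 = 1001 := rfl
  have e2 : mF 3 = 1000 := rfl
  rw [e1, e2]
  simp only [← zpow_natCast, ← zpow_neg_one, ← zpow_mul, ← zpow_add]
  norm_num

theorem not_complete_comb {d : ℕ} (L : List (Eqn (Fin d))) (f : Fin d) (n : ℕ)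
    (hno : ¬ ∃ z : Fin d → ℤ, z f = 1 - 4 * n ∧ ∀ Q ∈ L, Q.Holds z) :
    ¬ FunctionallyComplete (W ⧸ NR (d + 4) (TrS (extL L))) [comb (theListS (extL L) f n)] := by
  intro h
  have hcl := SS_closed L f n hno
  have hh : ∀ x ∈ SS (d + 4) (TrS (extL L)), ∀ y ∈ SS (d + 4) (TrS (extL L)),
      hval x y ∈ SS (d + 4) (TrS (extL L)) := by
    intro x hx y hy
    have := hcl (hval (X 0) (X 1)).toWord (mem_theList.2 (Or.inr (Or.inl rfl)))
      (fun i => if i = 0 then x else y) (fun i => by split_ifs <;> assumption)
    rw [val_h] at this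
    simpa using this
  have hS : ∀ w ∈ theListS (extL L) f n, ∀ v : ℕ → W ⧸ NR (d + 4) (TrS (extL L)),
      (∀ i, v i ∈ SS (d + 4) (TrS (extL L))) → wEval v w ∈ SS (d + 4) (TrS (extL L)) := by
    intro w hw v hv
    rcases List.mem_cons.1 hw with rfl | hw
    · rw [val_corr]
      obtain ⟨u, hu, hv0⟩ := hv 0
      exact ⟨u⁻¹ ^ 4003, fac_pow (fac_inv hu) _, by rw [map_pow, map_inv, hv0]⟩
    · exact hcl w hw v hv
  have key := fun (w : Word) (hw : Produced _ _ w) => Produced.closed
    (SS (d + 4) (TrS (extL L))) (B := [comb (theListS (extL L) f n)])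
    (fun w hw v hv => by
      rw [List.mem_singleton.1 hw]
      exact closed_comb _ (one_mem_SS _ _) hh hS v hv) hw
  have h2 := key [(0, true), (1, true)] (h _)
    (fun i => if i = 0 then QuotientGroup.mk' (NR (d + 4) (TrS (extL L))) (letter true 1)
      else QuotientGroup.mk' (NR (d + 4) (TrS (extL L))) (letter false 1))
    (fun i => by
      split_ifs
      · exact ⟨_, ⟨true, 1, rfl⟩, rfl⟩
      · exact ⟨_, ⟨false, 1, rfl⟩, rfl⟩)
  rw [wEval_cons, wEval_cons, wEval_nil] at h2
  simp only [if_true, mul_one, one_ne_zero, if_false, ← map_mul] at h2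
  exact ab_not_mem (d + 4) (by omega) (TrS (extL L)) h2

theorem complete_comb_iff {d : ℕ} (L : List (Eqn (Fin d))) (f : Fin d) (n : ℕ) :
    (∀ (G : Type) [Group G], FunctionallyComplete G [comb (theListS (extL L) f n)]) ↔
      ∃ z : Fin d → ℤ, z f = 1 - 4 * n ∧ ∀ Q ∈ L, Q.Holds z := by
  constructor
  · intro h
    by_contra hno
    exact not_complete_comb L f n hno (h _)
  · rintro ⟨z, hz, hL⟩ G _
    apply complete_comb (fun x => theListS_const x _ f n)
    intro w
    exact Produced.trans (fun u hu => Produced.base (List.mem_cons_of_mem _ hu))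
      (complete_of_sol z (extL_holds hL) hz w)

theorem comb_theListS_primrec {d : ℕ} (eqs : List (Eqn (Fin d))) (f : Fin d) :
    Primrec (fun n => comb (theListS eqs f n)) := by
  have h := comb_primrec
    ((corr :: ([((X 0)⁻¹).toWord, (hval (X 0) (X 1)).toWord, (startG d).toWord] ++
      ruleWords eqs)).map (fun w _ => w) ++ [finW eqs.length f 2, finW eqs.length f 3]) (by
      intro F hF
      rcases List.mem_append.1 hF with hF | hF
      · obtain ⟨w, _, rfl⟩ := List.mem_map.1 hF
        exact Primrec.const w
      · simp only [List.mem_cons, List.not_mem_nil, or_false] at hF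
        rcases hF with rfl | rfl
        · exact finW_primrec _ _ _
        · exact finW_primrec _ _ _)
  refine h.of_eq fun n => ?_
  congr 1
  simp [theListS, theList, List.map_append, Function.comp_def]

/-- no algorithm decides whether a single word is complete on every group -/
theorem undecidable_single : ¬ ComputablePred (fun w : Word =>
    ∀ (G : Type) [Group G], FunctionallyComplete G [w]) := by
  intro hp
  obtain ⟨S, hre, hnc⟩ := exists_halting
  obtain ⟨d, f, L, hL⟩ := exists_system_fin S hre
  apply hnc
  have h1 := comp_pred hp (comb_theListS_primrec (extL L) f).to_comp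
  refine h1.of_eq fun n => ?_
  rw [complete_comb_iff L f n, hL]
  constructor
  · rintro ⟨m, hm, h⟩
    have : n = m := by omega
    rwa [this]
  · intro h
    exact ⟨n, h, rfl⟩

theorem lift_mk_eq {G : Type*} [Group G] (v : ℕ → G) (w : Word) :
    FreeGroup.lift v (FreeGroup.mk w) = wEval v w := by
  rw [FreeGroup.lift_mk]
  unfold wEval
  congr 1
  apply List.map_congr_left
  intro a _
  rcases a with ⟨i, b⟩
  cases b <;> rfl

theorem wEval_of (w : Word) : wEval FreeGroup.of w = FreeGroup.mk w := by
  rw [← lift_mk_eq]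
  have : FreeGroup.lift (FreeGroup.of : ℕ → FreeGroup ℕ) = MonoidHom.id _ := by
    ext i; simp
  rw [this]; rfl

theorem mk_wSubst (σ : ℕ → Word) (w : Word) :
    FreeGroup.mk (wSubst σ w) = FreeGroup.lift (fun i => FreeGroup.mk (σ i)) (FreeGroup.mk w) := by
  rw [← wEval_of, wEval_subst, lift_mk_eq]
  congr 1
  funext i
  rw [wEval_of]

/-- the formulation with subsets of the free group -/
theorem frozen_iff (w : Word) :
    (∀ (G : Type) [Group G], ∀ A : FreeGroup ℕ,
      ∀ S : Set (FreeGroup ℕ),
        (∀ i : ℕ, FreeGroup.of i ∈ S) →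
        FreeGroup.mk w ∈ S →
        (∀ C ∈ S, ∀ σ : ℕ → FreeGroup ℕ, (∀ i, σ i ∈ S) → FreeGroup.lift σ C ∈ S) →
        (∀ C ∈ S, ∀ C' : FreeGroup ℕ,
            (∀ f : ℕ → G, FreeGroup.lift f C = FreeGroup.lift f C') → C' ∈ S) →
        A ∈ S) ↔ ∀ (G : Type) [Group G], FunctionallyComplete G [w] := by
  constructor
  · intro h G _ u
    have h1 := h G (FreeGroup.mk u) {A | Produced G [w] A.toWord} ?_ ?_ ?_ ?_
    · refine Produced.congr h1 fun v => ?_
      rw [wEval_toWord, lift_mk_eq]
    · intro i
      show Produced G [w] (FreeGroup.of i).toWord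
      rw [FreeGroup.toWord_of]
      exact Produced.var i
    · show Produced G [w] (FreeGroup.mk w).toWord
      refine Produced.congr (Produced.base (List.mem_singleton.2 rfl)) fun v => ?_
      rw [wEval_toWord, lift_mk_eq]
    · intro C hC σ hσ
      show Produced G [w] (FreeGroup.lift σ C).toWord
      refine Produced.congr (Produced.subst (fun i => (σ i).toWord) hC hσ) fun v => ?_
      rw [wEval_subst, wEval_toWord, wEval_toWord]
      have : (fun i => wEval v (σ i).toWord) = fun i => FreeGroup.lift v (σ i) := by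
        funext i; rw [wEval_toWord]
      rw [this]
      have h2 : FreeGroup.lift (fun i => FreeGroup.lift v (σ i)) =
          (FreeGroup.lift v).comp (FreeGroup.lift σ) := by
        ext i; simp
      rw [h2]; rfl
    · intro C hC C' hCC
      show Produced G [w] C'.toWord
      refine Produced.congr hC fun v => ?_
      rw [wEval_toWord, wEval_toWord, hCC]
  · intro h G _ A S hv hw hs hi
    have key : ∀ u, Produced G [w] u → FreeGroup.mk u ∈ S := by
      intro u hu
      induction hu with
      | base hb => rw [List.mem_singleton] at hb; rw [hb]; exact hw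
      | var i => exact hv i
      | subst σ _ _ ih ih' =>
        rw [mk_wSubst]
        exact hs _ ih _ ih'
      | congr _ he ih =>
        refine hi _ ih _ fun v => ?_
        rw [lift_mk_eq, lift_mk_eq, he v]
    have := key A.toWord (h G A.toWord)
    rwa [FreeGroup.mk_toWord] at this

end Pool.Agent.Helper844.FC
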